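import Pool.Agent.EGR.Stmts

set_option autoImplicit false

/-!
EGR, module AV: some vertex of the base has few neighbours outside the base.
-/

namespace Pool.Agent.EGR

open Finset SimpleGraph
open scoped Classical

namespace AV_

variable {V : Type}

lemma peel_sub (H : SimpleGraph V) (S : Finset V) {T : Finset V} (h : Peel H S T) : S ⊆ T := by
  induction h with
  | base => exact Finset.Subset.refl S
  | step T u _ _ _ ih => exact ih.trans (Finset.subset_insert u T)

lemma dg_mono (H : SimpleGraph V) {A B : Finset V} (h : A ⊆ B) (v : V) : dg H A v ≤ dg H B v := by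
  unfold dg
  exact Finset.card_le_card (Finset.filter_subset_filter _ h)

lemma peel_dg (H : SimpleGraph V) (S : Finset V) {T : Finset V} (h : Peel H S T) :
    ∀ u ∈ T, u ∉ S → dg H S u ≤ 1 := by
  induction h with
  | base => exact fun u hu hu' => absurd hu hu'
  | step T u hT _ hd ih =>
    intro w hw hwS
    rcases Finset.mem_insert.1 hw with h | h
    · rw [h]
      exact (dg_mono H (peel_sub H S hT) u).trans hd
    · exact ih w h hwS

lemma count [Fintype V] (H : SimpleGraph V) (S : Finset V) :
    ∑ v ∈ S, (out H S v).card = ∑ u ∈ univ.filter (fun u => u ∉ S), dg H S u := by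
  have h1 : ∀ v, (out H S v).card = ∑ u ∈ univ.filter (fun u => u ∉ S),
      if H.Adj v u then 1 else 0 := by
    intro v
    unfold out
    rw [Finset.card_eq_sum_ones, ← Finset.sum_filter, Finset.filter_filter]
  have h2 : ∀ u, dg H S u = ∑ v ∈ S, if H.Adj v u then 1 else 0 := by
    intro u
    unfold dg
    rw [Finset.card_eq_sum_ones, Finset.sum_filter]
    refine Finset.sum_congr rfl (fun v _ => ?_)
    simp only [H.adj_comm]
  simp_rw [h1, h2]
  exact Finset.sum_comm

end AV_

open AV_ in
theorem av_proof : Stmt_AV := by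
  intro V _ H S hP hS
  have hd : ∀ u ∈ univ.filter (fun u : V => u ∉ S), dg H S u ≤ 1 := fun u hu =>
    peel_dg H S hP u (Finset.mem_univ u) (Finset.mem_filter.1 hu).2
  have hc : (univ.filter (fun u : V => u ∉ S)).card = Fintype.card V - S.card := by
    have e : univ.filter (fun u : V => u ∉ S) = univ \ S := by
      ext u
      simp
    rw [e, Finset.card_sdiff_of_subset (Finset.subset_univ S), Finset.card_univ]
  have hsum : ∑ v ∈ S, (out H S v).card ≤ Fintype.card V - S.card := by
    rw [count, ← hc]
    calc ∑ u ∈ univ.filter (fun u : V => u ∉ S), dg H S u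
        ≤ ∑ _u ∈ univ.filter (fun u : V => u ∉ S), 1 := Finset.sum_le_sum hd
      _ = _ := by rw [Finset.sum_const, smul_eq_mul, mul_one]
  by_contra hcon
  push Not at hcon
  have h3 : ∑ _v ∈ S, (Fintype.card V - S.card) < ∑ v ∈ S, S.card * (out H S v).card :=
    Finset.sum_lt_sum_of_nonempty hS hcon
  rw [Finset.sum_const, smul_eq_mul, ← Finset.mul_sum] at h3
  exact absurd h3 (not_lt.2 (Nat.mul_le_mul_left _ hsum))

end Pool.Agent.EGR
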