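import Pool.Agent.EGR.Stmts

set_option autoImplicit false

/-!
MP_d778c7_co, squad EGR, module BE: the construction of Burr, Erdos, Faudree, Schelp.
-/

namespace Pool.Agent.EGR

open Finset SimpleGraph
open scoped Classical

namespace BE_

theorem not_free {α β : Type} (G : SimpleGraph α) (K : Finset β) (f : β → α) (n : ℕ)
    (h : ∀ x ∈ K, ∀ y ∈ K, x ≠ y → G.Adj (f x) (f y)) (hn : n ≤ K.card) : ¬ G.CliqueFree n := by
  intro hf
  have hinj : Set.InjOn f (K : Set β) := by
    intro x hx y hy hxy
    by_contra hne
    exact (h x hx y hy hne).ne hxy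
  have hc : G.IsNClique K.card (K.image f) := by
    rw [isNClique_iff]
    constructor
    · intro a ha b hb hab
      rw [Finset.mem_coe, Finset.mem_image] at ha hb
      obtain ⟨x, hx, rfl⟩ := ha
      obtain ⟨y, hy, rfl⟩ := hb
      exact h x hx y hy (fun e => hab (by rw [e]))
    · exact Finset.card_image_of_injOn hinj
  exact (hf.mono hn) _ hc

theorem ex_of_type {α : Type} [Fintype α] (G : SimpleGraph α) {a b M : ℕ} (h1 : G.CliqueFree a)
    (h2 : Gᶜ.CliqueFree b) (hM : M ≤ Fintype.card α) : Ex a b M := by
  obtain ⟨e⟩ : Nonempty (Fin M ↪ α) := by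
    apply Function.Embedding.nonempty_of_card_le
    simpa using hM
  refine ⟨G.comap e, ?_, ?_⟩
  · intro K hK
    refine not_free G K e a ?_ hK.card_eq.ge h1
    intro x hx y hy hxy
    exact hK.isClique hx hy hxy
  · intro K hK
    refine not_free Gᶜ K e b ?_ hK.card_eq.ge h2
    intro x hx y hy hxy
    have h3 := hK.isClique hx hy hxy
    rw [compl_adj] at h3 ⊢
    exact ⟨fun h4 => hxy (e.injective h4), fun h4 => h3.2 h4⟩

theorem ex_mono {a b M M' : ℕ} (h : Ex a b M') (hM : M ≤ M') : Ex a b M := by
  obtain ⟨G, h1, h2⟩ := h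
  exact ex_of_type G h1 h2 (by simpa using hM)

/-- a universal vertex -/
def uni {M : ℕ} (G : SimpleGraph (Fin M)) : SimpleGraph (Option (Fin M)) where
  Adj x y := match x, y with
    | none, none => False
    | none, some _ => True
    | some _, none => True
    | some a, some b => G.Adj a b
  symm := ⟨by
    rintro (_ | a) (_ | b) h
    · exact h
    · trivial
    · trivial
    · exact SimpleGraph.Adj.symm h⟩
  loopless := ⟨by
    rintro (_ | a) h
    · exact h
    · exact G.loopless.irrefl a h⟩

theorem ex_succ {k l M : ℕ} (hk : 1 ≤ k) (hl : 2 ≤ l) (G : SimpleGraph (Fin M))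
    (h1 : G.CliqueFree (k - 1)) (h2 : Gᶜ.CliqueFree l) : Ex k l (M + 1) := by
  refine ex_of_type (uni G) ?_ ?_ (by simp)
  · intro K hK
    -- drop `none`
    have hcard : k - 1 ≤ (K.erase none).card := by
      have := hK.card_eq
      have h3 := Finset.pred_card_le_card_erase (s := K) (a := none)
      omega
    by_cases hM : Nonempty (Fin M)
    · obtain ⟨m0⟩ := hM
      refine not_free G (K.erase none) (fun o => o.getD m0) (k - 1) ?_ hcard h1
      intro x hx y hy hxy
      rw [Finset.mem_erase] at hx hy
      have h4 := hK.isClique hx.2 hy.2 hxy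
      match x, y, hx, hy, h4 with
      | some a, some b, _, _, h4 => exact h4
      | none, _, hx, _, _ => exact absurd rfl hx.1
      | some _, none, _, hy, _ => exact absurd rfl hy.1
    · have h5 : K.erase none = ∅ := by
        rw [Finset.eq_empty_iff_forall_notMem]
        intro x hx
        rw [Finset.mem_erase] at hx
        match x, hx with
        | none, hx => exact hx.1 rfl
        | some a, _ => exact hM ⟨a⟩
      rw [h5, Finset.card_empty] at hcard
      exact h1 ∅ (by
        rw [isNClique_iff]
        refine ⟨by simp, ?_⟩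
        simp; omega)
  · intro K hK
    by_cases hn : none ∈ K
    · -- another vertex
      have h6 : 1 < K.card := by rw [hK.card_eq]; omega
      obtain ⟨y, hy, hne⟩ := Finset.exists_mem_ne h6 none
      have h7 := hK.isClique hn hy (Ne.symm hne)
      rw [compl_adj] at h7
      match y, hne, h7 with
      | none, hne, _ => exact hne rfl
      | some b, _, h7 => exact h7.2 trivial
    · by_cases hM : Nonempty (Fin M)
      · obtain ⟨m0⟩ := hM
        refine not_free Gᶜ K (fun o => o.getD m0) l ?_ hK.card_eq.ge h2
        intro x hx y hy hxy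
        have h4 := hK.isClique hx hy hxy
        rw [compl_adj] at h4
        match x, y, hx, hy, hxy, h4 with
        | some a, some b, _, _, hxy, h4 =>
          rw [compl_adj]
          exact ⟨fun e => hxy (by
            have e' : a = b := e
            rw [e']), fun e => h4.2 e⟩
        | none, _, hx, _, _, _ => exact absurd hx hn
        | some _, none, _, hy, _, _ => exact absurd hy hn
      · have h5 : K = ∅ := by
          rw [Finset.eq_empty_iff_forall_notMem]
          intro x hx
          match x, hx with
          | none, hx => exact hn hx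
          | some a, _ => exact hM ⟨a⟩
        have := hK.card_eq
        rw [h5, Finset.card_empty] at this
        omega

/-- the adjacency of the new graph -/
def nadj {M m : ℕ} (G : SimpleGraph (Fin M)) (v : Fin (m + 2) → Fin M) :
    (Fin M ⊕ (Fin (m + 2) ⊕ Fin (m + 1))) → (Fin M ⊕ (Fin (m + 2) ⊕ Fin (m + 1))) → Prop
  | .inl g, .inl h => G.Adj g h
  | .inl g, .inr (.inl i) => i ≠ Fin.last (m + 1) ∧ g = v i
  | .inr (.inl i), .inl g => i ≠ Fin.last (m + 1) ∧ g = v i
  | .inr (.inl i), .inr (.inl j) => i ≠ j
  | .inr (.inr i), .inl g => G.Adj (v i.castSucc) g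
  | .inl g, .inr (.inr i) => G.Adj (v i.castSucc) g
  | .inr (.inr i), .inr (.inr j) => i ≠ j
  | .inr (.inl j), .inr (.inr i) => i.castSucc ≠ j
  | .inr (.inr i), .inr (.inl j) => i.castSucc ≠ j

def ngr {M m : ℕ} (G : SimpleGraph (Fin M)) (v : Fin (m + 2) → Fin M) :
    SimpleGraph (Fin M ⊕ (Fin (m + 2) ⊕ Fin (m + 1))) where
  Adj := nadj G v
  symm := ⟨by
    rintro (g | i | i) (h | j | j) H
    · exact SimpleGraph.Adj.symm (G := G) H
    · exact H
    · exact H
    · exact H
    · exact Ne.symm H
    · exact H
    · exact H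
    · exact H
    · exact Ne.symm H⟩
  loopless := ⟨by
    rintro (g | i | i) H
    · exact G.loopless.irrefl g H
    · exact H rfl
    · exact H rfl⟩

theorem construct {M m l : ℕ} (hl : 2 ≤ l) (G : SimpleGraph (Fin M)) (h1 : G.CliqueFree (m + 3))
    (h2 : Gᶜ.CliqueFree l) (h3 : ¬ G.CliqueFree (m + 2)) : Ex (m + 3) (l + 1) (M + (2 * m + 3)) := by
  have e := topEmbeddingOfNotCliqueFree h3
  obtain ⟨v, hv⟩ : ∃ v : Fin (m + 2) → Fin M, ∀ i j, i ≠ j → G.Adj (v i) (v j) :=
    ⟨e, fun i j hij => by
      rw [e.map_adj_iff, top_adj]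
      exact hij⟩
  -- old representative
  let φ : (Fin M ⊕ (Fin (m + 2) ⊕ Fin (m + 1))) → Fin M := fun x =>
    match x with
    | .inl g => g
    | .inr (.inl i) => v i
    | .inr (.inr i) => v i.castSucc
  refine ex_of_type (ngr G v) ?_ ?_ (by simp; omega)
  · intro K hK
    by_cases hw : ∃ i : Fin (m + 2), (Sum.inr (Sum.inl i)) ∈ K
    · obtain ⟨i, hi⟩ := hw
      let f : (Fin M ⊕ (Fin (m + 2) ⊕ Fin (m + 1))) → Fin (m + 2) := fun x =>
        match x with
        | .inl _ => Fin.last (m + 1)
        | .inr (.inl i) => i
        | .inr (.inr i) => i.castSucc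
      have key : ∀ g : Fin M, Sum.inl g ∈ K → ∀ j : Fin (m + 2), Sum.inr (Sum.inl j) ∈ K →
          j ≠ Fin.last (m + 1) ∧ g = v j := by
        intro g hg j hj
        exact hK.isClique hg hj (by simp)
      have hinj : Set.InjOn f (K : Set _) := by
        intro x hx y hy hxy
        by_contra hne
        have hadj := hK.isClique hx hy hne
        match x, y, hx, hy, hxy, hne, hadj with
        | .inl g, .inl h, hx, hy, _, hne, _ =>
          exact hne (by rw [(key g hx i hi).2, (key h hy i hi).2])
        | .inl g, .inr (.inl j), hx, hy, hxy, _, _ => exact (key g hx j hy).1 hxy.symm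
        | .inr (.inl j), .inl g, hx, hy, hxy, _, _ => exact (key g hy j hx).1 hxy
        | .inl g, .inr (.inr j), _, _, hxy, _, _ => exact Fin.castSucc_ne_last j hxy.symm
        | .inr (.inr j), .inl g, _, _, hxy, _, _ => exact Fin.castSucc_ne_last j hxy
        | .inr (.inl j), .inr (.inl j'), _, _, hxy, hne, _ =>
          exact hne (by
            have e' : j = j' := hxy
            rw [e'])
        | .inr (.inr j), .inr (.inr j'), _, _, hxy, hne, _ =>
          exact hne (by
            have e' : j = j' := Fin.castSucc_injective _ hxy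
            rw [e'])
        | .inr (.inl j), .inr (.inr j'), _, _, hxy, _, hadj => exact hadj hxy.symm
        | .inr (.inr j), .inr (.inl j'), _, _, hxy, _, hadj => exact hadj hxy
      have hc := Finset.card_le_card_of_injOn f (t := Finset.univ) (s := K)
        (fun x _ => Finset.mem_coe.2 (Finset.mem_univ _)) hinj
      rw [hK.card_eq] at hc
      simp at hc
    · push Not at hw
      refine not_free G K φ (m + 3) ?_ hK.card_eq.ge h1
      intro x hx y hy hne
      have hadj := hK.isClique hx hy hne
      match x, y, hx, hy, hne, hadj with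
      | .inl g, .inl h, _, _, _, hadj => exact hadj
      | .inr (.inl j), _, hx, _, _, _ => exact absurd hx (hw j)
      | _, .inr (.inl j), _, hy, _, _ => exact absurd hy (hw j)
      | .inl g, .inr (.inr j), _, _, _, hadj => exact SimpleGraph.Adj.symm (G := G) hadj
      | .inr (.inr j), .inl g, _, _, _, hadj => exact hadj
      | .inr (.inr j), .inr (.inr j'), _, _, _, hadj =>
        exact hv _ _ (fun e' => hadj (Fin.castSucc_injective _ e'))
  · intro K hK
    have hno : ∀ x ∈ K, ∀ y ∈ K, x ≠ y → ¬ nadj G v x y := by
      intro x hx y hy hxy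
      have := hK.isClique hx hy hxy
      rw [compl_adj] at this
      exact this.2
    have hKc : K.card = l + 1 := hK.card_eq
    by_cases hw : ∃ i : Fin (m + 2), (Sum.inr (Sum.inl i)) ∈ K
    · obtain ⟨i, hi⟩ := hw
      refine not_free Gᶜ (K.erase (Sum.inr (Sum.inl i))) φ l ?_ ?_ h2
      · intro x hx y hy hne
        rw [Finset.mem_erase] at hx hy
        have hx' := hno x hx.2 _ hi hx.1
        have hy' := hno y hy.2 _ hi hy.1
        have hxy := hno x hx.2 y hy.2 hne
        match x, y, hx, hy, hx', hy', hxy, hne with
        | .inl g, .inl h, _, _, _, _, hxy, hne =>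
          rw [compl_adj]
          exact ⟨fun e' => hne (by
            have e'' : g = h := e'
            rw [e'']), hxy⟩
        | .inr (.inl j), _, hx, _, hx', _, _, _ =>
          exact absurd (fun e' : j = i => hx.1 (by rw [e'])) hx'
        | _, .inr (.inl j), _, hy, _, hy', _, _ =>
          exact absurd (fun e' : j = i => hy.1 (by rw [e'])) hy'
        | .inl g, .inr (.inr j), _, _, hx', hy', hxy, _ =>
          have e1 : j.castSucc = i := not_not.1 hy'
          rw [compl_adj]
          refine ⟨fun e' => hx' ⟨?_, ?_⟩, fun e' => hxy (SimpleGraph.Adj.symm (G := G) e')⟩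
          · rw [← e1]; exact Fin.castSucc_ne_last j
          · rw [← e1]; exact e'
        | .inr (.inr j), .inl g, _, _, hx', hy', hxy, _ =>
          have e1 : j.castSucc = i := not_not.1 hx'
          rw [compl_adj]
          refine ⟨fun e' => hy' ⟨?_, ?_⟩, fun e' => hxy e'⟩
          · rw [← e1]; exact Fin.castSucc_ne_last j
          · rw [← e1]; exact e'.symm
        | .inr (.inr j), .inr (.inr j'), _, _, _, _, hxy, hne =>
          have e1 : j = j' := not_not.1 hxy
          exact absurd (by rw [e1]) hne
      · rw [Finset.card_erase_of_mem hi]; omega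
    · push Not at hw
      by_cases hu : ∃ i : Fin (m + 1), (Sum.inr (Sum.inr i)) ∈ K
      · obtain ⟨i, hi⟩ := hu
        refine not_free Gᶜ (K.erase (Sum.inr (Sum.inr i))) φ l ?_ ?_ h2
        · intro x hx y hy hne
          rw [Finset.mem_erase] at hx hy
          have hx' := hno x hx.2 _ hi hx.1
          have hy' := hno y hy.2 _ hi hy.1
          have hxy := hno x hx.2 y hy.2 hne
          match x, y, hx, hy, hx', hy', hxy, hne with
          | .inl g, .inl h, _, _, _, _, hxy, hne =>
            rw [compl_adj]
            exact ⟨fun e' => hne (by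
              have e'' : g = h := e'
              rw [e'']), hxy⟩
          | .inr (.inl j), _, hx, _, _, _, _, _ => exact absurd hx.2 (hw j)
          | _, .inr (.inl j), _, hy, _, _, _, _ => exact absurd hy.2 (hw j)
          | .inr (.inr j), _, hx, _, hx', _, _, _ =>
            exact absurd (fun e' : j = i => hx.1 (by rw [e'])) hx'
          | _, .inr (.inr j), _, hy, _, hy', _, _ =>
            exact absurd (fun e' : j = i => hy.1 (by rw [e'])) hy'
        · rw [Finset.card_erase_of_mem hi]; omega
      · push Not at hu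
        refine not_free Gᶜ K φ l ?_ (by omega) h2
        intro x hx y hy hne
        have hxy := hno x hx y hy hne
        match x, y, hx, hy, hxy, hne with
        | .inl g, .inl h, _, _, hxy, hne =>
          rw [compl_adj]
          exact ⟨fun e' => hne (by
            have e'' : g = h := e'
            rw [e'']), hxy⟩
        | .inr (.inl j), _, hx, _, _, _ => exact absurd hx (hw j)
        | _, .inr (.inl j), _, hy, _, _ => exact absurd hy (hw j)
        | .inr (.inr j), _, hx, _, _, _ => exact absurd hx (hu j)
        | _, .inr (.inr j), _, hy, _, _ => exact absurd hy (hu j)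

end BE_

open BE_ in
theorem be_proof : Stmt_BE := by
  intro k l M hk hl hE
  obtain ⟨m, rfl⟩ : ∃ m, k = m + 3 := ⟨k - 3, by omega⟩
  have e : 2 * (m + 3) - 3 = 2 * m + 3 := by omega
  rw [e]
  -- the first failure
  by_cases hbig : Ex (m + 3) l (M + (2 * m + 3))
  · obtain ⟨G, h1, h2⟩ := hbig
    exact ⟨G, h1, h2.mono (Nat.le_succ l)⟩
  · have hex : ∃ s, ¬ Ex (m + 3) l (M + s) := ⟨_, hbig⟩
    have hs := Nat.find_spec hex
    have hs0 : Nat.find hex ≠ 0 := by
      intro h0
      rw [h0] at hs
      exact hs hE
    obtain ⟨s, hs'⟩ : ∃ s, Nat.find hex = s + 1 := Nat.exists_eq_succ_of_ne_zero hs0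
    have hlt : Ex (m + 3) l (M + s) := by
      have := Nat.find_min hex (m := s) (by omega)
      exact not_not.1 this
    rw [hs'] at hs
    obtain ⟨G, h1, h2⟩ := hlt
    have h3 : ¬ G.CliqueFree (m + 2) := by
      intro h3
      exact hs (ex_succ (k := m + 3) (by omega) hl G h3 h2)
    have h4 := construct hl G h1 h2 h3
    exact ex_mono h4 (by omega)

end Pool.Agent.EGR
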