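import Pool.Agent.EGR.Stmts

set_option autoImplicit false

/-!
MP_d778c7_co, squad EGR, module CH.
-/

namespace Pool.Agent.EGR

open Finset SimpleGraph
open scoped Classical

namespace CH_

variable {V : Type} (H : SimpleGraph V)

lemma two_le_dg {W : Finset V} {u a b : V} (ha : a ∈ W) (hb : b ∈ W) (hab : a ≠ b)
    (h1 : H.Adj u a) (h2 : H.Adj u b) : 2 ≤ dg H W u := by
  have hsub : ({a, b} : Finset V) ⊆ W.filter (fun w => H.Adj u w) := by
    intro z hz
    simp only [mem_insert, mem_singleton] at hz
    rw [mem_filter]
    rcases hz with rfl | rfl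
    · exact ⟨ha, h1⟩
    · exact ⟨hb, h2⟩
  have hc : ({a, b} : Finset V).card = 2 := Finset.card_pair hab
  have := Finset.card_le_card hsub
  rw [hc] at this
  exact this

lemma dg_mono {W T : Finset V} (h : W ⊆ T) (u : V) : dg H W u ≤ dg H T u := by
  unfold dg
  exact Finset.card_le_card (Finset.filter_subset_filter _ h)

lemma dg_insert_self (T : Finset V) (u : V) : dg H (insert u T) u = dg H T u := by
  unfold dg
  rw [Finset.filter_insert, if_neg (H.irrefl)]

lemma peel_sub {S T : Finset V} (h : Peel H S T) : S ⊆ T := by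
  induction h with
  | base => exact Finset.Subset.refl _
  | step T u hT hu hd ih => exact ih.trans (Finset.subset_insert _ _)

lemma peel_out {S T : Finset V} (h : Peel H S T) :
    ∀ W : Finset V, S ⊆ W → W ⊆ T → W ≠ S → ∃ u ∈ W, u ∉ S ∧ dg H W u ≤ 1 := by
  induction h with
  | base =>
    intro W h1 h2 h3
    exact absurd (Finset.Subset.antisymm h2 h1) h3
  | step T u hT hu hd ih =>
    intro W h1 h2 h3
    by_cases huW : u ∈ W
    · refine ⟨u, huW, fun h => hu (peel_sub H hT h), ?_⟩
      calc dg H W u ≤ dg H (insert u T) u := dg_mono H h2 u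
        _ = dg H T u := dg_insert_self H T u
        _ ≤ 1 := hd
    · apply ih W h1 _ h3
      intro z hz
      have := h2 hz
      rw [Finset.mem_insert] at this
      rcases this with rfl | h
      · exact absurd hz huW
      · exact h

lemma peel_of {S : Finset V}
    (h : ∀ W : Finset V, S ⊆ W → W ≠ S → ∃ u ∈ W, u ∉ S ∧ dg H W u ≤ 1) :
    ∀ (n : ℕ) (W : Finset V), W.card = n → S ⊆ W → Peel H S W := by
  intro n
  induction n with
  | zero =>
    intro W hW hS
    have hW0 : W = ∅ := Finset.card_eq_zero.mp hW
    subst hW0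
    have hS0 : S = ∅ := Finset.subset_empty.mp hS
    subst hS0
    exact Peel.base
  | succ n ih =>
    intro W hW hS
    by_cases hWS : W = S
    · subst hWS
      exact Peel.base
    · obtain ⟨u, huW, huS, hd⟩ := h W hS hWS
      have hS' : S ⊆ W.erase u := by
        intro z hz
        rw [Finset.mem_erase]
        refine ⟨?_, hS hz⟩
        rintro rfl
        exact huS hz
      have hc : (W.erase u).card = n := by
        rw [Finset.card_erase_of_mem huW, hW]
        rfl
      have hp := ih (W.erase u) hc hS'
      have hins : insert u (W.erase u) = W := Finset.insert_erase huW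
      rw [← hins]
      refine Peel.step _ _ hp (Finset.notMem_erase _ _) ?_
      exact (dg_mono H (Finset.erase_subset _ _) u).trans hd

lemma key [Fintype V] {S : Finset V} {v : V} (hv : v ∈ S)
    (h : ∀ W : Finset V, S ⊆ W → W ≠ S → ∃ u ∈ W, u ∉ S ∧ dg H W u ≤ 1) :
    ∀ (n : ℕ) (W : Finset V), W.card = n → S ⊆ W → (∃ a ∈ W, a ∉ S ∪ out H S v) →
      ∃ u ∈ W, u ∉ S ∪ out H S v ∧ dg H W u ≤ 1 := by
  intro n
  induction n with
  | zero =>
    rintro W hW hS ⟨a, ha, -⟩
    rw [Finset.card_eq_zero.mp hW] at ha
    exact absurd ha (Finset.notMem_empty _)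
  | succ n ih =>
    rintro W hW hS ⟨a, haW, haS⟩
    have hne : W ≠ S := by
      rintro rfl
      exact haS (Finset.mem_union_left _ haW)
    obtain ⟨u, huW, huS, hd⟩ := h W hS hne
    by_cases huC : u ∈ out H S v
    · have hadj : H.Adj v u := (Finset.mem_filter.mp huC).2.2
      have hS' : S ⊆ W.erase u := by
        intro z hz
        rw [Finset.mem_erase]
        refine ⟨?_, hS hz⟩
        rintro rfl
        exact huS hz
      have hc : (W.erase u).card = n := by
        rw [Finset.card_erase_of_mem huW, hW]
        rfl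
      have haW' : a ∈ W.erase u := by
        rw [Finset.mem_erase]
        refine ⟨?_, haW⟩
        rintro rfl
        exact haS (Finset.mem_union_right _ huC)
      obtain ⟨u1, hu1W, hu1S, hd1⟩ := ih (W.erase u) hc hS' ⟨a, haW', haS⟩
      have hu1W' : u1 ∈ W := Finset.mem_of_mem_erase hu1W
      refine ⟨u1, hu1W', hu1S, ?_⟩
      have hnadj : ¬ H.Adj u1 u := by
        intro hadj1
        have hvu1 : v ≠ u1 := by
          rintro rfl
          exact hu1S (Finset.mem_union_left _ hv)
        have := two_le_dg H (hS hv) hu1W' hvu1 hadj.symm hadj1.symm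
        omega
      have heq : dg H W u1 = dg H (W.erase u) u1 := by
        unfold dg
        congr 1
        ext z
        simp only [Finset.mem_filter, Finset.mem_erase]
        constructor
        · rintro ⟨hz1, hz2⟩
          refine ⟨⟨?_, hz1⟩, hz2⟩
          rintro rfl
          exact hnadj hz2
        · rintro ⟨⟨-, hz1⟩, hz2⟩
          exact ⟨hz1, hz2⟩
      rw [heq]
      exact hd1
    · refine ⟨u, huW, ?_, hd⟩
      rw [Finset.mem_union]
      rintro (h1 | h1)
      · exact huS h1
      · exact huC h1

end CH_

open CH_ in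
theorem ch_proof : Stmt_CH := by
  intro V _ H S v hp hv
  have h : ∀ W : Finset V, S ⊆ W → W ≠ S → ∃ u ∈ W, u ∉ S ∧ dg H W u ≤ 1 :=
    fun W h1 h2 => peel_out H hp W h1 (Finset.subset_univ _) h2
  refine ⟨?_, ?_⟩
  · apply peel_of H _ _ _ rfl (Finset.subset_univ _)
    intro W h1 h2
    have hS : S ⊆ W := fun z hz => h1 (Finset.mem_union_left _ hz)
    have hex : ∃ a ∈ W, a ∉ S ∪ out H S v := by
      by_contra hcon
      push Not at hcon
      exact h2 (Finset.Subset.antisymm hcon h1)
    exact key H hv h _ W rfl hS hex
  · intro c hc b hb hadj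
    have hc' := (Finset.mem_filter.mp hc).2
    rw [Finset.mem_union] at hb
    have hcS : c ∉ S := hc'.1
    have hvc : H.Adj v c := hc'.2
    by_contra hbv
    have hW1 : S ⊆ insert c (insert b S) := by
      intro z hz
      exact Finset.mem_insert_of_mem (Finset.mem_insert_of_mem hz)
    have hW2 : insert c (insert b S) ≠ S := by
      intro heq
      apply hcS
      rw [← heq]
      exact Finset.mem_insert_self _ _
    obtain ⟨u, huW, huS, hd⟩ := h _ hW1 hW2
    have hvW : v ∈ insert c (insert b S) := hW1 hv
    have hbW : b ∈ insert c (insert b S) :=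
      Finset.mem_insert_of_mem (Finset.mem_insert_self _ _)
    have hcW : c ∈ insert c (insert b S) := Finset.mem_insert_self _ _
    rw [Finset.mem_insert, Finset.mem_insert] at huW
    rcases huW with rfl | rfl | h1
    · have := two_le_dg H hvW hbW (fun h => hbv h.symm) hvc.symm hadj
      omega
    · rcases hb with hb | hb
      · exact huS hb
      · have hvb : H.Adj v u := (Finset.mem_filter.mp hb).2.2
        have hvc' : v ≠ c := by
          rintro rfl
          exact hcS hv
        have := two_le_dg H hvW hcW hvc' hvb.symm hadj.symm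
        omega
    · exact huS h1

end Pool.Agent.EGR
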