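import Pool.Agent.EGR.Stmts

set_option autoImplicit false

/-!
MP_d778c7_co, module CL.
-/

namespace Pool.Agent.EGR

open Finset SimpleGraph
open scoped Classical

theorem cl_proof : Stmt_CL := by
  intro V α H S G R hno hS T hT hcl
  have hcard : S.card = T.card := hcl.2.symm
  obtain ⟨s0, hs0⟩ := hS
  have e : {x // x ∈ S} ≃ {x // x ∈ T} :=
    (Finset.equivFin S).trans ((finCongr hcard).trans (Finset.equivFin T).symm)
  let φ : V → α := fun v => if h : v ∈ S then (e ⟨v, h⟩ : α) else (e ⟨s0, hs0⟩ : α)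
  have hφ : ∀ v (h : v ∈ S), φ v = (e ⟨v, h⟩ : α) := fun v h => by simp [φ, h]
  have hinj : Set.InjOn φ (S : Set V) := by
    intro a ha b hb hab
    rw [hφ a ha, hφ b hb] at hab
    have h1 := e.injective (Subtype.ext hab)
    exact congrArg Subtype.val h1
  refine hno φ hinj ?_ ?_
  · intro a ha b hb hab
    refine hcl.1 ?_ ?_ ?_
    · rw [hφ a ha]; exact (e ⟨a, ha⟩).2
    · rw [hφ b hb]; exact (e ⟨b, hb⟩).2
    · exact fun h => hab.ne (hinj ha hb h)
  · intro a ha
    rw [hφ a ha]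
    exact hT (e ⟨a, ha⟩).2

end Pool.Agent.EGR
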