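import Pool.Agent.EGR.Stmts

set_option autoImplicit false

namespace Pool.Agent.EGR

open Finset SimpleGraph
open scoped Classical

/-- CN: two nonadjacent vertices of the base placed at two given vertices. -/
theorem cn_proof : Stmt_CN := by
  intro V α H S G R a b hno ha hb hab hH x hx y hy hxy T hT hadj hcl
  have hxT : x ∉ T := fun h => G.loopless.irrefl x (hadj x h).1
  have hyT : y ∉ T := fun h => G.loopless.irrefl y (hadj y h).2
  set S' := (S.erase a).erase b with hS'
  have hbS : b ∈ S.erase a := Finset.mem_erase.2 ⟨hab.symm, hb⟩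
  have hcard : S'.card = T.card := by
    rw [hS', Finset.card_erase_of_mem hbS, Finset.card_erase_of_mem ha, hcl.card_eq]
    omega
  let e := Finset.equivOfCardEq hcard
  let φ : V → α := fun v => if v = a then x else if v = b then y else
    if h : v ∈ S' then (e ⟨v, h⟩ : α) else x
  have φa : φ a = x := by simp [φ]
  have φb : φ b = y := by simp [φ, hab.symm]
  have φs : ∀ v (h : v ∈ S'), φ v = (e ⟨v, h⟩ : α) := by
    intro v h
    have h1 : v ≠ b := (Finset.mem_erase.1 h).1
    have h2 : v ≠ a := (Finset.mem_erase.1 (Finset.mem_erase.1 h).2).1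
    simp only [φ, if_neg h1, if_neg h2, dif_pos h]
  have φT : ∀ v, v ∈ S' → φ v ∈ T := fun v h => by rw [φs v h]; exact (e ⟨v, h⟩).2
  have hcase : ∀ v ∈ S, v = a ∨ v = b ∨ v ∈ S' := by
    intro v hv
    by_cases h1 : v = a
    · exact Or.inl h1
    · by_cases h2 : v = b
      · exact Or.inr (Or.inl h2)
      · exact Or.inr (Or.inr (Finset.mem_erase.2 ⟨h2, Finset.mem_erase.2 ⟨h1, hv⟩⟩))
  have hne : ∀ v, v ∈ S' → φ v ≠ x ∧ φ v ≠ y := fun v h =>
    ⟨fun h' => hxT (h' ▸ φT v h), fun h' => hyT (h' ▸ φT v h)⟩
  have hinj : Set.InjOn φ (S : Set V) := by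
    intro u hu v hv huv
    rcases hcase u hu with rfl | rfl | hu'
    · rcases hcase v hv with rfl | rfl | hv'
      · rfl
      · rw [φa, φb] at huv; exact absurd huv hxy
      · rw [φa] at huv; exact absurd huv.symm (hne v hv').1
    · rcases hcase v hv with rfl | rfl | hv'
      · rw [φa, φb] at huv; exact absurd huv.symm hxy
      · rfl
      · rw [φb] at huv; exact absurd huv.symm (hne v hv').2
    · rcases hcase v hv with rfl | rfl | hv'
      · rw [φa] at huv; exact absurd huv (hne u hu').1
      · rw [φb] at huv; exact absurd huv (hne u hu').2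
      · rw [φs u hu', φs v hv'] at huv
        have h1 := e.injective (Subtype.ext huv)
        exact congrArg Subtype.val h1
  refine hno φ hinj ?_ ?_
  · intro u hu v hv huv
    have huv' : φ u ≠ φ v := fun h => huv.ne (hinj hu hv h)
    rcases hcase u hu with rfl | rfl | hu'
    · rcases hcase v hv with rfl | rfl | hv'
      · exact absurd rfl huv.ne
      · exact absurd huv hH
      · rw [φa]; exact (hadj _ (φT v hv')).1
    · rcases hcase v hv with rfl | rfl | hv'
      · exact absurd huv.symm hH
      · exact absurd rfl huv.ne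
      · rw [φb]; exact (hadj _ (φT v hv')).2
    · rcases hcase v hv with rfl | rfl | hv'
      · rw [φa]; exact (hadj _ (φT u hu')).1.symm
      · rw [φb]; exact (hadj _ (φT u hu')).2.symm
      · exact hcl.isClique (φT u hu') (φT v hv') huv'
  · intro v hv
    rcases hcase v hv with rfl | rfl | hv'
    · rw [φa]; exact hx
    · rw [φb]; exact hy
    · exact hT (φT v hv')

end Pool.Agent.EGR
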