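import Pool.Agent.EGR.Stmts

set_option autoImplicit false

/-!
MP_d778c7_co: module CR, existence of the core.
-/

namespace Pool.Agent.EGR

open Finset SimpleGraph
open scoped Classical

theorem dg_mono_CR {α : Type} (G : SimpleGraph α) {A B : Finset α} (h : A ⊆ B) (v : α) :
    dg G A v ≤ dg G B v :=
  card_le_card (filter_subset_filter _ h)

theorem CR : Stmt_CR := by
  intro α _ G D
  refine ⟨univ.filter (fun v => ∃ A : Finset α, v ∈ A ∧ ∀ a ∈ A, D ≤ dg G A a), ?_⟩
  set R : Finset α := univ.filter (fun v => ∃ A : Finset α, v ∈ A ∧ ∀ a ∈ A, D ≤ dg G A a) with hR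
  have hdeg : ∀ r ∈ R, D ≤ dg G R r := by
    intro r hr
    obtain ⟨A, hrA, hA⟩ := (mem_filter.mp hr).2
    refine (hA r hrA).trans (dg_mono_CR G ?_ r)
    intro a ha
    exact mem_filter.mpr ⟨mem_univ _, A, ha, hA⟩
  refine ⟨hdeg, ?_⟩
  intro Z hdisj hne
  by_contra hcon
  push Not at hcon
  obtain ⟨z, hz⟩ := hne
  have hzR : z ∈ R := by
    refine mem_filter.mpr ⟨mem_univ _, Z ∪ R, mem_union_left _ hz, ?_⟩
    intro a ha
    rcases mem_union.mp ha with h | h
    · exact hcon a h
    · exact (hdeg a h).trans (dg_mono_CR G subset_union_right a)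
  exact (Finset.disjoint_left.mp hdisj) hz hzR

end Pool.Agent.EGR
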