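import Pool.Agent.EGR.Stmts

set_option autoImplicit false

/-!
EGR, module DC: a set on which the graph and its complement are both degenerate is small.
-/

namespace Pool.Agent.EGR

open Finset SimpleGraph
open scoped Classical

theorem DC_sum {α : Type} (G : SimpleGraph α) (D : ℕ) : ∀ n : ℕ, ∀ Z : Finset α, Z.card = n →
    (∀ Z' ⊆ Z, Z'.Nonempty → ∃ z ∈ Z', dg G Z' z < D) →
    ∑ x ∈ Z, dg G Z x ≤ 2 * (D - 1) * n := by
  intro n
  induction n with
  | zero =>
    intro Z hZ _
    rw [card_eq_zero.1 hZ]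
    simp
  | succ n ih =>
    intro Z hZ h
    have hne : Z.Nonempty := card_pos.1 (by omega)
    obtain ⟨z, hz, hzd⟩ := h Z (Subset.refl _) hne
    have hc : (Z.erase z).card = n := by rw [card_erase_of_mem hz, hZ]; rfl
    have hI := ih (Z.erase z) hc (fun Z' hZ' hn => h Z' (hZ'.trans (erase_subset _ _)) hn)
    have h1 : ∀ x ∈ Z.erase z, dg G Z x = dg G (Z.erase z) x + (if G.Adj x z then 1 else 0) := by
      intro x _
      unfold dg
      conv_lhs => rw [← insert_erase hz]
      rw [filter_insert]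
      split_ifs with hadj
      · rw [card_insert_of_notMem (fun hm => (notMem_erase z Z) (mem_filter.1 hm).1)]
      · rfl
    have h2 : ∑ x ∈ Z.erase z, (if G.Adj x z then 1 else 0) ≤ dg G Z z := by
      rw [← card_filter]
      unfold dg
      refine card_le_card (fun w hw => ?_)
      obtain ⟨hw1, hw2⟩ := mem_filter.1 hw
      exact mem_filter.2 ⟨mem_of_mem_erase hw1, hw2.symm⟩
    rw [← add_sum_erase Z _ hz, sum_congr rfl h1, sum_add_distrib]
    have h3 : 2 * (D - 1) * (n + 1) = 2 * (D - 1) * n + 2 * (D - 1) := by ring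
    rw [h3]
    omega

theorem dc_proof : Stmt_DC := by
  intro α G D Z h1 h2
  rcases Z.eq_empty_or_nonempty with he | hne
  · simp [he]
  have hD : 1 ≤ D := by
    obtain ⟨z, _, hz⟩ := h1 Z (Subset.refl _) hne
    omega
  have hs1 := DC_sum G D Z.card Z rfl h1
  have hs2 := DC_sum Gᶜ D Z.card Z rfl h2
  have hsum : ∀ x ∈ Z, dg G Z x + dg Gᶜ Z x = Z.card - 1 := by
    intro x hx
    unfold dg
    rw [← card_union_of_disjoint, ← filter_or, ← card_erase_of_mem hx]
    · congr 1
      ext w
      simp only [mem_filter, mem_erase, compl_adj]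
      constructor
      · rintro ⟨hw, h | h⟩
        · exact ⟨fun e => G.ne_of_adj h e.symm, hw⟩
        · exact ⟨fun e => h.1 e.symm, hw⟩
      · rintro ⟨hne', hw⟩
        refine ⟨hw, ?_⟩
        by_cases hadj : G.Adj x w
        · exact Or.inl hadj
        · exact Or.inr ⟨fun e => hne' e.symm, hadj⟩
    · rw [Finset.disjoint_left]
      intro w hw hw'
      simp only [mem_filter] at hw hw'
      have h3 : Gᶜ.Adj x w := hw'.2
      rw [compl_adj] at h3
      exact h3.2 hw.2
  have htot : ∑ x ∈ Z, dg G Z x + ∑ x ∈ Z, dg Gᶜ Z x = Z.card * (Z.card - 1) := by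
    rw [← sum_add_distrib, sum_congr rfl hsum, sum_const, smul_eq_mul]
  have hpos : 0 < Z.card := card_pos.2 hne
  have hle : Z.card * (Z.card - 1) ≤ Z.card * (4 * (D - 1)) := by
    rw [← htot]
    refine (Nat.add_le_add hs1 hs2).trans (le_of_eq ?_)
    ring
  have := Nat.le_of_mul_le_mul_left hle hpos
  omega

end Pool.Agent.EGR
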