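import Pool.Agent.EGR.Stmts

set_option autoImplicit false

/-! MP_d778c7_co, module ED -/

namespace Pool.Agent.EGR

open Finset SimpleGraph
open scoped Classical

namespace ED_

/-- the graph with the edges inside `S` replaced by a star -/
def star {V : Type} (H : SimpleGraph V) (S : Finset V) (s : V) : SimpleGraph V where
  Adj u v := H.Adj u v ∧ (u ∉ S ∨ v ∉ S ∨ u = s ∨ v = s)
  symm := ⟨fun u v h => ⟨h.1.symm, by tauto⟩⟩
  loopless := ⟨fun u h => H.loopless.irrefl u h.1⟩

end ED_

open ED_ in
theorem ed_proof : Stmt_ED := by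
  intro V _ H hH S hS hcl
  obtain ⟨s, hs⟩ := hS
  have hreach : ∀ u v, H.Adj u v → (star H S s).Reachable u v := by
    intro u v h
    by_cases hc : u ∉ S ∨ v ∉ S ∨ u = s ∨ v = s
    · exact SimpleGraph.Adj.reachable ⟨h, hc⟩
    · push Not at hc
      obtain ⟨hu, hv, hus, hvs⟩ := hc
      have h1 : (star H S s).Adj u s := ⟨hcl u hu s hs hus, by tauto⟩
      have h2 : (star H S s).Adj s v := ⟨hcl s hs v hv (Ne.symm hvs), by tauto⟩
      exact h1.reachable.trans h2.reachable
  have hconn : (star H S s).Connected := by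
    have := hH.nonempty
    refine SimpleGraph.Connected.mk (fun u v => ?_)
    obtain ⟨w⟩ := hH.preconnected u v
    induction w with
    | nil => exact SimpleGraph.Reachable.refl _
    | cons h _ ih => exact (hreach _ _ h).trans ih
  have h1 := hconn.card_vert_le_card_edgeSet_add_one
  have hB : ((S.erase s).offDiag.image (Function.uncurry Sym2.mk)).card = (S.erase s).card.choose 2 :=
    Sym2.card_image_offDiag _
  have hdis : Disjoint (star H S s).edgeSet (((S.erase s).offDiag.image (Function.uncurry Sym2.mk) : Finset (Sym2 V)) : Set (Sym2 V)) := by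
    rw [Set.disjoint_left]
    intro e he hb
    rw [Finset.mem_coe, Finset.mem_image] at hb
    obtain ⟨⟨a, b⟩, hab, rfl⟩ := hb
    rw [Finset.mem_offDiag] at hab
    have h2 : (star H S s).Adj a b := he
    have ha := Finset.mem_erase.mp hab.1
    have hb := Finset.mem_erase.mp hab.2.1
    rcases h2.2 with h | h | h | h
    · exact h ha.2
    · exact h hb.2
    · exact ha.1 h
    · exact hb.1 h
  have hsub : (star H S s).edgeSet ∪ (((S.erase s).offDiag.image (Function.uncurry Sym2.mk) : Finset (Sym2 V)) : Set (Sym2 V)) ⊆ H.edgeSet := by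
    intro e he
    rcases he with he | hb
    · induction e with
      | _ a b =>
        have h2 : (star H S s).Adj a b := he
        exact h2.1
    · rw [Finset.mem_coe, Finset.mem_image] at hb
      obtain ⟨⟨a, b⟩, hab, rfl⟩ := hb
      rw [Finset.mem_offDiag] at hab
      have ha := Finset.mem_erase.mp hab.1
      have hb := Finset.mem_erase.mp hab.2.1
      exact hcl a ha.2 b hb.2 hab.2.2
  have h3 := Set.ncard_le_ncard hsub (Set.toFinite _)
  rw [Set.ncard_union_eq hdis (Set.toFinite _) (Set.toFinite _), Set.ncard_coe_finset, hB,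
    Finset.card_erase_of_mem hs] at h3
  rw [Nat.card_eq_fintype_card, Nat.card_coe_set_eq] at h1
  have hpos : 0 < S.card := Finset.card_pos.mpr ⟨s, hs⟩
  obtain ⟨k, hk⟩ : ∃ k, S.card = k + 1 := ⟨S.card - 1, by omega⟩
  rw [hk] at h3 ⊢
  have h4 : (k + 1).choose 2 = k + k.choose 2 := by
    rw [Nat.choose_succ_succ' k 1, Nat.choose_one_right]
  rw [h4]
  simp only [Nat.add_sub_cancel] at h3
  have h5 : S.card ≤ Fintype.card V := Finset.card_le_univ S
  omega

end Pool.Agent.EGR
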