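import Pool.Agent.EGR.Stmts

set_option autoImplicit false

open Finset SimpleGraph
open scoped Classical

namespace Pool.Agent.EGR

namespace EM_

theorem subset_of_peel {V : Type} {H : SimpleGraph V} {S T : Finset V} (h : Peel H S T) :
    S ⊆ T := by
  induction h with
  | base => exact Finset.Subset.refl _
  | step T u _ _ _ ih => exact ih.trans (Finset.subset_insert _ _)

theorem exists_free {α : Type} (F P : Finset α) (h : P.card < F.card) : ∃ r ∈ F, r ∉ P := by
  by_contra hc
  push Not at hc
  exact absurd (Finset.card_le_card hc) (by omega)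

theorem main {V : Type} [Fintype V] {H : SimpleGraph V} {S T : Finset V} (hT : Peel H S T)
    {α : Type} (G : SimpleGraph α) (R : Finset α) (hR : R.Nonempty)
    (hdeg : ∀ r ∈ R, Fintype.card V - 1 ≤ dg G R r) (φ : V → α) (hφ : Set.InjOn φ (S : Set V))
    (hadj : ∀ a ∈ S, ∀ b ∈ S, H.Adj a b → G.Adj (φ a) (φ b))
    (hout : ∀ a ∈ S, (∃ b, b ∉ S ∧ H.Adj a b) → φ a ∈ R) :
    ∃ ψ : V → α, Set.InjOn ψ (T : Set V) ∧ (∀ a ∈ T, ∀ b ∈ T, H.Adj a b → G.Adj (ψ a) (ψ b)) ∧
      (∀ a ∈ S, ψ a = φ a) ∧ (∀ a ∈ T, a ∉ S → ψ a ∈ R) := by
  induction hT with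
  | base =>
    exact ⟨φ, hφ, hadj, fun _ _ => rfl, fun a h1 h2 => absurd h1 h2⟩
  | step T u hT hu hd ih =>
    obtain ⟨ψ, h1, h2, h3, h4⟩ := ih
    have hS : S ⊆ T := subset_of_peel hT
    have hcT : T.card + 1 ≤ Fintype.card V := by
      have := Finset.card_le_univ (insert u T)
      rwa [Finset.card_insert_of_notMem hu] at this
    have hci : (T.image ψ).card = T.card := Finset.card_image_of_injOn h1
    -- the new vertex
    obtain ⟨r, hr, hrT, hrA⟩ : ∃ r ∈ R, r ∉ T.image ψ ∧ ∀ w ∈ T, H.Adj u w → G.Adj (ψ w) r := by
      by_cases hw : ∃ w ∈ T, H.Adj u w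
      · obtain ⟨w, hwT, hwu⟩ := hw
        have huniq : ∀ w' ∈ T, H.Adj u w' → w' = w := by
          intro w' hw' hw'u
          unfold dg at hd
          rw [Finset.card_le_one] at hd
          exact hd w' (Finset.mem_filter.mpr ⟨hw', hw'u⟩) w (Finset.mem_filter.mpr ⟨hwT, hwu⟩)
        have hwR : ψ w ∈ R := by
          by_cases hwS : w ∈ S
          · rw [h3 w hwS]
            exact hout w hwS ⟨u, fun h => hu (hS h), hwu.symm⟩
          · exact h4 w hwT hwS
        have hdw := hdeg _ hwR
        have hlt : ((T.image ψ).erase (ψ w)).card < (R.filter (fun x => G.Adj (ψ w) x)).card := by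
          rw [Finset.card_erase_of_mem (Finset.mem_image_of_mem ψ hwT), hci]
          have hTpos : 0 < T.card := Finset.card_pos.mpr ⟨w, hwT⟩
          unfold dg at hdw
          omega
        obtain ⟨r, hrF, hrP⟩ := exists_free _ _ hlt
        rw [Finset.mem_filter] at hrF
        refine ⟨r, hrF.1, ?_, ?_⟩
        · intro hmem
          apply hrP
          rw [Finset.mem_erase]
          exact ⟨hrF.2.ne', hmem⟩
        · intro w' hw' hw'u
          rw [huniq w' hw' hw'u]
          exact hrF.2
      · push Not at hw
        obtain ⟨r₀, hr₀⟩ := hR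
        have hd0 := hdeg r₀ hr₀
        have hlt : (T.image ψ).card < R.card := by
          rw [hci]
          have h5 : (R.filter (fun x => G.Adj r₀ x)).card + 1 ≤ R.card := by
            have h6 : (R.filter (fun x => G.Adj r₀ x)) ⊆ R.erase r₀ := by
              intro x hx
              rw [Finset.mem_filter] at hx
              rw [Finset.mem_erase]
              exact ⟨hx.2.ne', hx.1⟩
            have h7 := Finset.card_le_card h6
            rw [Finset.card_erase_of_mem hr₀] at h7
            have h8 : 0 < R.card := Finset.card_pos.mpr ⟨r₀, hr₀⟩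
            omega
          unfold dg at hd0
          omega
        obtain ⟨r, hrF, hrP⟩ := exists_free _ _ hlt
        exact ⟨r, hrF, hrP, fun w hw' hw'u => absurd hw'u (hw w hw')⟩
    refine ⟨Function.update ψ u r, ?_, ?_, ?_, ?_⟩
    · intro a ha b hb hab
      rw [Finset.mem_coe, Finset.mem_insert] at ha hb
      by_cases hau : a = u
      · by_cases hbu : b = u
        · rw [hau, hbu]
        · exfalso
          have hbT : b ∈ T := hb.resolve_left hbu
          rw [hau, Function.update_self, Function.update_of_ne hbu] at hab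
          exact hrT (Finset.mem_image.mpr ⟨b, hbT, hab.symm⟩)
      · have haT : a ∈ T := ha.resolve_left hau
        by_cases hbu : b = u
        · exfalso
          rw [hbu, Function.update_self, Function.update_of_ne hau] at hab
          exact hrT (Finset.mem_image.mpr ⟨a, haT, hab⟩)
        · have hbT : b ∈ T := hb.resolve_left hbu
          rw [Function.update_of_ne hau, Function.update_of_ne hbu] at hab
          exact h1 haT hbT hab
    · intro a ha b hb hab
      rw [Finset.mem_insert] at ha hb
      by_cases hau : a = u
      · have hbu : b ≠ u := fun h => hab.ne (hau.trans h.symm)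
        have hbT : b ∈ T := hb.resolve_left hbu
        rw [hau, Function.update_self, Function.update_of_ne hbu]
        rw [hau] at hab
        exact (hrA b hbT hab).symm
      · have haT : a ∈ T := ha.resolve_left hau
        by_cases hbu : b = u
        · rw [hbu, Function.update_self, Function.update_of_ne hau]
          rw [hbu] at hab
          exact hrA a haT hab.symm
        · have hbT : b ∈ T := hb.resolve_left hbu
          rw [Function.update_of_ne hau, Function.update_of_ne hbu]
          exact h2 a haT b hbT hab
    · intro a ha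
      have hau : a ≠ u := fun h => hu (hS (h ▸ ha))
      rw [Function.update_of_ne hau]
      exact h3 a ha
    · intro a ha haS
      rw [Finset.mem_insert] at ha
      by_cases hau : a = u
      · rw [hau, Function.update_self]
        exact hr
      · rw [Function.update_of_ne hau]
        exact h4 a (ha.resolve_left hau) haS

end EM_

theorem em_proof : Stmt_EM := by
  intro V _ H S hP α G R hR hdeg φ hφ hadj hout
  obtain ⟨ψ, h1, h2, -, -⟩ := EM_.main hP G R hR hdeg φ hφ hadj hout
  refine ⟨⟨⟨ψ, ?_⟩, ?_⟩⟩
  · intro a b hab
    exact h2 a (Finset.mem_univ _) b (Finset.mem_univ _) hab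
  · intro a b hab
    exact h1 (Finset.mem_coe.mpr (Finset.mem_univ a)) (Finset.mem_coe.mpr (Finset.mem_univ b)) hab

end Pool.Agent.EGR
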