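import Pool.Agent.EGR.Stmts

set_option autoImplicit false

/-!
MP_d778c7_co, squad EGR, module FE.
-/

namespace Pool.Agent.EGR

open Finset SimpleGraph
open scoped Classical

theorem fe_proof (h1 : Stmt_EM) (h2 : Stmt_CH) : Stmt_FE := by
  intro V _ H S v hp hv hS2 α _ G x T hT hx hdeg hcard
  obtain ⟨hp', hadj'⟩ := h2 V H S v hp hv
  have hTcl : ∀ a ∈ T, ∀ b ∈ T, a ≠ b → G.Adj a b := by
    intro a ha b hb hab
    exact hT.isClique (Finset.mem_coe.mpr ha) (Finset.mem_coe.mpr hb) hab
  have hTc : T.card = S.card := hT.card_eq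
  -- neighbours of x outside T
  have hN : (out H S v).card ≤ (univ.filter (fun w => G.Adj x w ∧ w ∉ T)).card := by
    have hsub : univ.filter (fun w => G.Adj x w) ⊆
        univ.filter (fun w => G.Adj x w ∧ w ∉ T) ∪ T.erase x := by
      intro w hw
      rw [Finset.mem_filter] at hw
      rw [Finset.mem_union, Finset.mem_filter, Finset.mem_erase]
      by_cases hwT : w ∈ T
      · right
        refine ⟨?_, hwT⟩
        rintro rfl
        exact G.irrefl hw.2
      · left
        exact ⟨Finset.mem_univ _, hw.2, hwT⟩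
    have h3 := (Finset.card_le_card hsub).trans (Finset.card_union_le _ _)
    have h4 : (T.erase x).card = S.card - 1 := by
      rw [Finset.card_erase_of_mem hx, hTc]
    have h5 : dg G univ x = (univ.filter (fun w => G.Adj x w)).card := rfl
    rw [h4] at h3
    rw [h5] at hcard
    omega
  obtain ⟨P, hPsub, hPcard⟩ := Finset.exists_subset_card_eq hN
  have hcard1 : (S.erase v).card = (T.erase x).card := by
    rw [Finset.card_erase_of_mem hv, Finset.card_erase_of_mem hx, hTc]
  let e1 : (S.erase v) ≃ (T.erase x) := Finset.equivOfCardEq hcard1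
  let e2 : (out H S v) ≃ P := Finset.equivOfCardEq hPcard.symm
  let φ : V → α := fun a =>
    if h : a ∈ S.erase v then ((e1 ⟨a, h⟩ : (T.erase x : Finset α)) : α)
    else if h : a ∈ out H S v then ((e2 ⟨a, h⟩ : (P : Finset α)) : α) else x
  have hφ1 : ∀ a (h : a ∈ S.erase v), φ a = ((e1 ⟨a, h⟩ : (T.erase x : Finset α)) : α) := by
    intro a h
    simp only [φ]
    rw [dif_pos h]
  have hnot : ∀ a ∈ out H S v, a ∉ S := by
    intro a ha
    exact (Finset.mem_filter.mp ha).2.1
  have hφ2 : ∀ a (h : a ∈ out H S v), φ a = ((e2 ⟨a, h⟩ : (P : Finset α)) : α) := by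
    intro a h
    have h' : a ∉ S.erase v := fun h' => hnot a h (Finset.mem_of_mem_erase h')
    simp only [φ]
    rw [dif_neg h', dif_pos h]
  have hφ3 : φ v = x := by
    have h' : v ∉ S.erase v := Finset.notMem_erase _ _
    have h'' : v ∉ out H S v := fun h => hnot v h hv
    simp only [φ]
    rw [dif_neg h', dif_neg h'']
  have hm1 : ∀ a ∈ S.erase v, φ a ∈ T.erase x := by
    intro a ha
    rw [hφ1 a ha]
    exact (e1 ⟨a, ha⟩).2
  have hm2 : ∀ a ∈ out H S v, φ a ∈ P := by
    intro a ha
    rw [hφ2 a ha]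
    exact (e2 ⟨a, ha⟩).2
  have hP : ∀ p ∈ P, G.Adj x p ∧ p ∉ T := by
    intro p hp
    exact (Finset.mem_filter.mp (hPsub hp)).2
  have hmT : ∀ a ∈ S, φ a ∈ T := by
    intro a ha
    by_cases hav : a = v
    · subst hav
      rw [hφ3]
      exact hx
    · exact Finset.mem_of_mem_erase (hm1 a (Finset.mem_erase.mpr ⟨hav, ha⟩))
  -- injectivity
  have hinjS : ∀ a ∈ S, ∀ b ∈ S, φ a = φ b → a = b := by
    intro a ha b hb hab
    by_cases hav : a = v
    · by_cases hbv : b = v
      · rw [hav, hbv]
      · exfalso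
        have := (Finset.mem_erase.mp (hm1 b (Finset.mem_erase.mpr ⟨hbv, hb⟩))).1
        apply this
        rw [← hab, hav, hφ3]
    · by_cases hbv : b = v
      · exfalso
        have := (Finset.mem_erase.mp (hm1 a (Finset.mem_erase.mpr ⟨hav, ha⟩))).1
        apply this
        rw [hab, hbv, hφ3]
      · have ha' : a ∈ S.erase v := Finset.mem_erase.mpr ⟨hav, ha⟩
        have hb' : b ∈ S.erase v := Finset.mem_erase.mpr ⟨hbv, hb⟩
        rw [hφ1 a ha', hφ1 b hb'] at hab
        have h6 := e1.injective (Subtype.ext hab)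
        exact congrArg Subtype.val h6
  have hinj : Set.InjOn φ ((S ∪ out H S v : Finset V) : Set V) := by
    intro a ha b hb hab
    rw [Finset.mem_coe, Finset.mem_union] at ha hb
    rcases ha with ha | ha <;> rcases hb with hb | hb
    · exact hinjS a ha b hb hab
    · exfalso
      have h7 := hmT a ha
      rw [hab] at h7
      exact (hP _ (hm2 b hb)).2 h7
    · exfalso
      have h7 := hmT b hb
      rw [← hab] at h7
      exact (hP _ (hm2 a ha)).2 h7
    · rw [hφ2 a ha, hφ2 b hb] at hab
      have h6 := e2.injective (Subtype.ext hab)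
      exact congrArg Subtype.val h6
  have hhom : ∀ a ∈ S ∪ out H S v, ∀ b ∈ S ∪ out H S v, H.Adj a b → G.Adj (φ a) (φ b) := by
    intro a ha b hb hab
    rw [Finset.mem_union] at ha
    rcases ha with ha | ha
    · have hb' := hb
      rw [Finset.mem_union] at hb'
      rcases hb' with hb' | hb'
      · apply hTcl _ (hmT a ha) _ (hmT b hb')
        intro h8
        have := hinjS a ha b hb' h8
        subst this
        exact H.irrefl hab
      · have h9 : a = v := hadj' b hb' a (Finset.mem_union_left _ ha) hab.symm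
        rw [h9, hφ3]
        exact (hP _ (hm2 b hb')).1
    · have h9 : b = v := hadj' a ha b hb hab
      rw [h9, hφ3]
      exact (hP _ (hm2 a ha)).1.symm
  have hRne : (univ.erase x : Finset α).Nonempty := by
    have h10 : 1 < T.card := by omega
    obtain ⟨y, hy, hyx⟩ := Finset.exists_mem_ne h10 x
    exact ⟨y, Finset.mem_erase.mpr ⟨hyx, Finset.mem_univ _⟩⟩
  refine h1 V H (S ∪ out H S v) hp' α G (univ.erase x) hRne ?_ φ hinj hhom ?_
  · intro r hr
    exact hdeg r (Finset.mem_erase.mp hr).1
  · rintro a ha ⟨b, hb, hab⟩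
    rw [Finset.mem_erase]
    refine ⟨?_, Finset.mem_univ _⟩
    intro hax
    have hav : a = v := by
      apply hinj (Finset.mem_coe.mpr ha) (Finset.mem_coe.mpr (Finset.mem_union_left _ hv))
      rw [hax, hφ3]
    apply hb
    rw [Finset.mem_union]
    by_cases hbS : b ∈ S
    · exact Or.inl hbS
    · right
      unfold out
      rw [Finset.mem_filter]
      refine ⟨Finset.mem_univ _, hbS, ?_⟩
      rw [← hav]
      exact hab

end Pool.Agent.EGR
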