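import Pool.Agent.EGR.Stmts

set_option autoImplicit false

/-!
EGR, module GR: greedy independent set outside the core.
-/

namespace Pool.Agent.EGR

open Finset SimpleGraph
open scoped Classical

theorem gr_proof : Stmt_GR := by
  intro α _ G D R hR
  have key : ∀ n : ℕ, ∀ Z : Finset α, Z.card = n → Disjoint Z R →
      ∃ Q ⊆ Z, (∀ x ∈ Q, ∀ y ∈ Q, ¬ G.Adj x y) ∧
        (Z ∪ R.filter (fun y => ∃ x ∈ Q, G.Adj x y)).card ≤ Q.card * D := by
    intro n
    induction n using Nat.strong_induction_on with
    | _ n ih =>
      intro Z hZ hdis
      rcases Z.eq_empty_or_nonempty with he | hne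
      · refine ⟨∅, empty_subset _, by simp, ?_⟩
        simp [he]
      · obtain ⟨z, hz, hzd⟩ := hR.out Z hdis hne
        set Z' : Finset α := (Z.erase z).filter (fun w => ¬ G.Adj z w) with hZ'
        have hsub : Z' ⊆ Z := (filter_subset _ _).trans (erase_subset _ _)
        have hzZ' : z ∉ Z' := by simp [hZ']
        have hcard : Z'.card < n := by
          rw [← hZ]
          exact card_lt_card ⟨hsub, fun h => hzZ' (h hz)⟩
        obtain ⟨Q', hQ', hind, hle⟩ := ih _ hcard Z' rfl (disjoint_of_subset_left hsub hdis)
        have hzQ' : z ∉ Q' := fun h => hzZ' (hQ' h)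
        have hna : ∀ x ∈ Q', ¬ G.Adj z x := fun x hx => (mem_filter.1 (hQ' hx)).2
        refine ⟨insert z Q', insert_subset hz (hQ'.trans hsub), ?_, ?_⟩
        · intro x hx y hy
          rcases mem_insert.1 hx with rfl | hx'
          · rcases mem_insert.1 hy with rfl | hy'
            · exact G.loopless.irrefl _
            · exact hna y hy'
          · rcases mem_insert.1 hy with rfl | hy'
            · exact fun h => hna x hx' h.symm
            · exact hind x hx' y hy'
        · have hincl : Z ∪ R.filter (fun y => ∃ x ∈ insert z Q', G.Adj x y) ⊆
              (Z' ∪ R.filter (fun y => ∃ x ∈ Q', G.Adj x y)) ∪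
                (insert z ((Z ∪ R).filter (fun w => G.Adj z w))) := by
            intro w hw
            rcases mem_union.1 hw with hw | hw
            · by_cases hwz : w = z
              · exact mem_union_right _ (by simp [hwz])
              · by_cases hadj : G.Adj z w
                · exact mem_union_right _ (mem_insert_of_mem
                    (mem_filter.2 ⟨mem_union_left _ hw, hadj⟩))
                · exact mem_union_left _ (mem_union_left _
                    (mem_filter.2 ⟨mem_erase.2 ⟨hwz, hw⟩, hadj⟩))
            · obtain ⟨hwR, x, hx, hxw⟩ := mem_filter.1 hw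
              rcases mem_insert.1 hx with rfl | hx'
              · exact mem_union_right _ (mem_insert_of_mem
                  (mem_filter.2 ⟨mem_union_right _ hwR, hxw⟩))
              · exact mem_union_left _ (mem_union_right _
                  (mem_filter.2 ⟨hwR, x, hx', hxw⟩))
          have h1 := (card_le_card hincl).trans (card_union_le _ _)
          have h2 : (insert z ((Z ∪ R).filter (fun w => G.Adj z w))).card ≤ D := by
            refine (card_insert_le _ _).trans ?_
            exact hzd
          rw [card_insert_of_notMem hzQ', add_mul, one_mul]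
          exact h1.trans (Nat.add_le_add hle h2)
  intro Z hZ
  exact key Z.card Z rfl hZ

end Pool.Agent.EGR
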