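import Pool.Agent.EGR.Stmts

set_option autoImplicit false

open Finset SimpleGraph
open scoped Classical

namespace Pool.Agent.EGR

namespace JO_

theorem card_lt {α : Type} (G : SimpleGraph α) (n : ℕ) (h : G.CliqueFree n) (s : Finset α)
    (hs : G.IsClique (s : Set α)) : s.card < n := by
  by_contra hc
  push Not at hc
  exact (CliqueFree.mono hc h) s ⟨hs, rfl⟩

/-- The graph on the sum: no edges between the two sides. -/
def sg {M L : ℕ} (G1 : SimpleGraph (Fin M)) (G2 : SimpleGraph (Fin L)) :
    SimpleGraph (Fin M ⊕ Fin L) where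
  Adj x y := (∃ i j, x = Sum.inl i ∧ y = Sum.inl j ∧ G1.Adj i j) ∨
    (∃ i j, x = Sum.inr i ∧ y = Sum.inr j ∧ G2.Adj i j)
  symm := by
    constructor
    rintro x y (⟨i, j, hx, hy, h⟩ | ⟨i, j, hx, hy, h⟩)
    · exact Or.inl ⟨j, i, hy, hx, h.symm⟩
    · exact Or.inr ⟨j, i, hy, hx, h.symm⟩
  loopless := by
    constructor
    rintro x (⟨i, j, hx, hy, h⟩ | ⟨i, j, hx, hy, h⟩)
    · have : i = j := Sum.inl_injective (hx.symm.trans hy)
      subst this
      exact h.ne rfl
    · have : i = j := Sum.inr_injective (hx.symm.trans hy)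
      subst this
      exact h.ne rfl

theorem sg_ll {M L : ℕ} (G1 : SimpleGraph (Fin M)) (G2 : SimpleGraph (Fin L)) (i j : Fin M) :
    (sg G1 G2).Adj (Sum.inl i) (Sum.inl j) ↔ G1.Adj i j := by
  constructor
  · rintro (⟨i', j', hx, hy, h⟩ | ⟨i', j', hx, hy, h⟩)
    · have h1 := Sum.inl_injective hx
      have h2 := Sum.inl_injective hy
      rw [h1, h2]; exact h
    · cases hx
  · intro h
    exact Or.inl ⟨i, j, rfl, rfl, h⟩

theorem sg_rr {M L : ℕ} (G1 : SimpleGraph (Fin M)) (G2 : SimpleGraph (Fin L)) (i j : Fin L) :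
    (sg G1 G2).Adj (Sum.inr i) (Sum.inr j) ↔ G2.Adj i j := by
  constructor
  · rintro (⟨i', j', hx, hy, h⟩ | ⟨i', j', hx, hy, h⟩)
    · cases hx
    · have h1 := Sum.inr_injective hx
      have h2 := Sum.inr_injective hy
      rw [h1, h2]; exact h
  · intro h
    exact Or.inr ⟨i, j, rfl, rfl, h⟩

theorem sg_lr {M L : ℕ} (G1 : SimpleGraph (Fin M)) (G2 : SimpleGraph (Fin L)) (i : Fin M)
    (j : Fin L) : ¬ (sg G1 G2).Adj (Sum.inl i) (Sum.inr j) := by
  rintro (⟨i', j', hx, hy, h⟩ | ⟨i', j', hx, hy, h⟩)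
  · cases hy
  · cases hx

end JO_

open JO_ in
theorem jo_proof : Stmt_JO := by
  rintro a b c M L ⟨G1, h1a, h1b⟩ ⟨G2, h2a, h2c⟩
  have hb : 0 < b := by
    rcases Nat.eq_zero_or_pos b with h | h
    · subst h
      exact absurd (card_lt _ _ h1b ∅ (by simp)) (by simp)
    · exact h
  have hc : 0 < c := by
    rcases Nat.eq_zero_or_pos c with h | h
    · subst h
      exact absurd (card_lt _ _ h2c ∅ (by simp)) (by simp)
    · exact h
  have ha : 0 < a := by
    rcases Nat.eq_zero_or_pos a with h | h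
    · subst h
      exact absurd (card_lt _ _ h1a ∅ (by simp)) (by simp)
    · exact h
  have hinj : Function.Injective (finSumFinEquiv.symm : Fin (M + L) → Fin M ⊕ Fin L) :=
    finSumFinEquiv.symm.injective
  refine ⟨(sg G1 G2).comap (finSumFinEquiv.symm : Fin (M + L) → Fin M ⊕ Fin L), ?_, ?_⟩
  · rintro s ⟨hs, hcard⟩
    set t : Finset (Fin M ⊕ Fin L) := s.image (finSumFinEquiv.symm) with ht
    have htc : t.card = a := by rw [ht, Finset.card_image_of_injective _ hinj, hcard]
    have hadj : ∀ x ∈ t, ∀ y ∈ t, x ≠ y → (sg G1 G2).Adj x y := by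
      intro x hx y hy hxy
      rw [ht, Finset.mem_image] at hx hy
      obtain ⟨x', hx', rfl⟩ := hx
      obtain ⟨y', hy', rfl⟩ := hy
      exact hs hx' hy' (fun h => hxy (by rw [h]))
    have hsplit : t.card = t.toLeft.card + t.toRight.card := by
      exact (Finset.card_toLeft_add_card_toRight).symm
    by_cases hL : t.toLeft = ∅
    · have hr : t.toRight.card < a := by
        refine card_lt G2 a h2a _ ?_
        intro i hi j hj hij
        have hi' : Sum.inr i ∈ t := Finset.mem_toRight.1 hi
        have hj' : Sum.inr j ∈ t := Finset.mem_toRight.1 hj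
        exact (sg_rr G1 G2 i j).1 (hadj _ hi' _ hj' (fun h => hij (Sum.inr_injective h)))
      rw [hL, Finset.card_empty] at hsplit
      omega
    · by_cases hR : t.toRight = ∅
      · have hl : t.toLeft.card < a := by
          refine card_lt G1 a h1a _ ?_
          intro i hi j hj hij
          have hi' : Sum.inl i ∈ t := Finset.mem_toLeft.1 hi
          have hj' : Sum.inl j ∈ t := Finset.mem_toLeft.1 hj
          exact (sg_ll G1 G2 i j).1 (hadj _ hi' _ hj' (fun h => hij (Sum.inl_injective h)))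
        rw [hR, Finset.card_empty] at hsplit
        omega
      · obtain ⟨i, hi⟩ := Finset.nonempty_iff_ne_empty.2 hL
        obtain ⟨j, hj⟩ := Finset.nonempty_iff_ne_empty.2 hR
        exact (sg_lr G1 G2 i j (hadj _ (Finset.mem_toLeft.1 hi) _ (Finset.mem_toRight.1 hj)
          (by simp))).elim
  · rintro s ⟨hs, hcard⟩
    set t : Finset (Fin M ⊕ Fin L) := s.image (finSumFinEquiv.symm) with ht
    have htc : t.card = b + c - 1 := by rw [ht, Finset.card_image_of_injective _ hinj, hcard]
    have hadj : ∀ x ∈ t, ∀ y ∈ t, x ≠ y → ¬ (sg G1 G2).Adj x y := by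
      intro x hx y hy hxy
      rw [ht, Finset.mem_image] at hx hy
      obtain ⟨x', hx', rfl⟩ := hx
      obtain ⟨y', hy', rfl⟩ := hy
      have := hs hx' hy' (fun h => hxy (by rw [h]))
      rw [SimpleGraph.compl_adj] at this
      exact this.2
    have hsplit : t.card = t.toLeft.card + t.toRight.card := by
      exact (Finset.card_toLeft_add_card_toRight).symm
    have hl : t.toLeft.card < b := by
      refine card_lt G1ᶜ b h1b _ ?_
      intro i hi j hj hij
      have hi' : Sum.inl i ∈ t := Finset.mem_toLeft.1 hi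
      have hj' : Sum.inl j ∈ t := Finset.mem_toLeft.1 hj
      rw [SimpleGraph.compl_adj]
      exact ⟨hij, fun h => hadj _ hi' _ hj' (fun h' => hij (Sum.inl_injective h'))
        ((sg_ll G1 G2 i j).2 h)⟩
    have hr : t.toRight.card < c := by
      refine card_lt G2ᶜ c h2c _ ?_
      intro i hi j hj hij
      have hi' : Sum.inr i ∈ t := Finset.mem_toRight.1 hi
      have hj' : Sum.inr j ∈ t := Finset.mem_toRight.1 hj
      rw [SimpleGraph.compl_adj]
      exact ⟨hij, fun h => hadj _ hi' _ hj' (fun h' => hij (Sum.inr_injective h'))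
        ((sg_rr G1 G2 i j).2 h)⟩
    omega

end Pool.Agent.EGR
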