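import Pool.Agent.EGR.Stmts

set_option autoImplicit false

open Finset SimpleGraph
open scoped Classical

namespace Pool.Agent.EGR

namespace NU3_

lemma exp_neg_one_lt : Real.exp (-1) < 1 / 2 := by
  have h := Real.exp_one_gt_d9
  rw [Real.exp_neg]
  rw [inv_lt_comm₀ (Real.exp_pos 1) (by norm_num)]
  linarith

lemma first (x L m : ℝ) (n : ℕ) (hx : 1000000 ≤ x) (hL : L ≤ x / 500) (hLx : x = Real.exp L)
    (hm : m ≤ x ^ 17 / 96) :
    Real.exp (29 * x ^ 16 * L + 3 * m - x ^ 17 / 5) ≤ Real.exp (-1) := by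
  apply Real.exp_le_exp.mpr
  have hx16 : (0 : ℝ) < x ^ 16 := by positivity
  have h1 : 29 * x ^ 16 * L ≤ 29 * x ^ 16 * (x / 500) := by
    apply mul_le_mul_of_nonneg_left hL (by positivity)
  have h17 : x ^ 17 = x ^ 16 * x := by ring
  have h16 : (1 : ℝ) ≤ x ^ 16 := one_le_pow₀ (by linarith)
  have h2 : (1000000 : ℝ) ≤ x ^ 16 * x := by nlinarith
  nlinarith

lemma second (x L m : ℝ) (hx : 1000000 ≤ x) (hL : 12 ≤ L)
    (hm : x ^ 17 / 97 ≤ m) :
    Real.exp (29 * x ^ 16 * L - m * (L - 6)) ≤ Real.exp (-1) := by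
  apply Real.exp_le_exp.mpr
  have hx16 : (0 : ℝ) < x ^ 16 := by positivity
  have h16 : (1 : ℝ) ≤ x ^ 16 := one_le_pow₀ (by linarith)
  have h17 : x ^ 17 = x ^ 16 * x := by ring
  have hm2 : 60 * x ^ 16 ≤ m := by
    have : x ^ 16 * 1000000 ≤ x ^ 16 * x := mul_le_mul_of_nonneg_left hx hx16.le
    rw [h17] at hm
    linarith
  have h1 : 60 * x ^ 16 * (L / 2) ≤ m * (L - 6) := by
    apply mul_le_mul hm2 (by linarith) (by linarith) (by linarith)
  have h2 : x ^ 16 * 1 ≤ x ^ 16 * L := mul_le_mul_of_nonneg_left (by linarith) hx16.le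
  nlinarith

lemma core (s : ℕ) (hs : 1000000 ≤ s) (hL12 : 12 ≤ Real.log s) (hL : Real.log s ≤ (s : ℝ) / 500) :
    Hyp 3 (s ^ 16) (s ^ 29) (s ^ 15) (s ^ 17 / 96) := by
  obtain ⟨m, hm⟩ : ∃ m : ℕ, m = s ^ 17 / 96 := ⟨_, rfl⟩
  have hx : (1000000 : ℝ) ≤ (s : ℝ) := by exact_mod_cast hs
  have hxpos : (0 : ℝ) < (s : ℝ) := by linarith
  have hexp : (s : ℝ) = Real.exp (Real.log s) := (Real.exp_log hxpos).symm
  have hm1 : (m : ℝ) ≤ (s : ℝ) ^ 17 / 96 := by
    have h : 96 * m ≤ s ^ 17 := by rw [hm]; exact Nat.mul_div_le _ _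
    have h' : (96 : ℝ) * m ≤ (s : ℝ) ^ 17 := by exact_mod_cast h
    linarith
  have hm2 : (s : ℝ) ^ 17 / 97 ≤ (m : ℝ) := by
    have h : s ^ 17 < 96 * m + 96 := by
      rw [hm]
      generalize s ^ 17 = t
      omega
    have h' : (s : ℝ) ^ 17 < 96 * m + 96 := by exact_mod_cast h
    have h3 : (1000000 : ℝ) ≤ (s : ℝ) ^ 17 := by
      have h16 : (1 : ℝ) ≤ (s : ℝ) ^ 16 := one_le_pow₀ (by linarith)
      have h17 : (s : ℝ) ^ 17 = (s : ℝ) ^ 16 * s := by ring
      nlinarith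
    linarith
  have hmpos : (0 : ℝ) < (m : ℝ) := lt_of_lt_of_le (by positivity) hm2
  have hmpos' : 0 < m := by exact_mod_cast hmpos
  unfold Hyp
  rw [← hm]
  have hc : Nat.choose 3 2 = 3 := by decide
  rw [hc]
  push_cast
  have hpowexp : ∀ k : ℕ, (s : ℝ) ^ k = Real.exp (k * Real.log s) := by
    intro k
    rw [mul_comm, Real.exp_mul, Real.exp_log hxpos, Real.rpow_natCast]
  have hN : ((s : ℝ) ^ 29) ^ (s ^ 16) = Real.exp (29 * (s : ℝ) ^ 16 * Real.log s) := by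
    rw [← pow_mul, hpowexp]
    congr 1
    push_cast
    ring
  -- first term
  have hA : ((s : ℝ) ^ 29) ^ (s ^ 16) *
      (2 ^ (3 * m) * (1 - 1 / (2 * (s : ℝ) ^ 15)) ^ ((s ^ 16).choose 2)) ≤ Real.exp (-1) := by
    have h2 : (2 : ℝ) ^ (3 * m) ≤ Real.exp (3 * m) := by
      have : (2 : ℝ) ≤ Real.exp 1 := by
        have := Real.exp_one_gt_d9
        linarith
      calc (2 : ℝ) ^ (3 * m) ≤ (Real.exp 1) ^ (3 * m) := pow_le_pow_left₀ (by norm_num) this _
        _ = Real.exp (3 * m) := by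
          rw [← Real.exp_nat_mul]
          congr 1
          push_cast
          ring
    have hq : (0 : ℝ) ≤ 1 - 1 / (2 * (s : ℝ) ^ 15) := by
      have h15 : (1 : ℝ) ≤ (s : ℝ) ^ 15 := one_le_pow₀ (by linarith)
      have : 1 / (2 * (s : ℝ) ^ 15) ≤ 1 := by
        rw [div_le_one (by positivity)]
        linarith
      linarith
    have hC : (2 / 5 : ℝ) * (s : ℝ) ^ 32 ≤ (((s ^ 16).choose 2 : ℕ) : ℝ) := by
      rw [Nat.cast_choose_two]
      push_cast
      have h16 : (1000000 : ℝ) ≤ (s : ℝ) ^ 16 := by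
        have h15 : (1 : ℝ) ≤ (s : ℝ) ^ 15 := one_le_pow₀ (by linarith)
        have : (s : ℝ) ^ 16 = (s : ℝ) ^ 15 * s := by ring
        nlinarith
      have h32 : (s : ℝ) ^ 32 = (s : ℝ) ^ 16 * (s : ℝ) ^ 16 := by ring
      rw [h32]
      nlinarith
    have h3 : (1 - 1 / (2 * (s : ℝ) ^ 15)) ^ ((s ^ 16).choose 2) ≤ Real.exp (-((s : ℝ) ^ 17 / 5)) := by
      have h4 : 1 - 1 / (2 * (s : ℝ) ^ 15) ≤ Real.exp (-(1 / (2 * (s : ℝ) ^ 15))) := by
        have := Real.add_one_le_exp (-(1 / (2 * (s : ℝ) ^ 15)))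
        linarith
      calc (1 - 1 / (2 * (s : ℝ) ^ 15)) ^ ((s ^ 16).choose 2)
          ≤ (Real.exp (-(1 / (2 * (s : ℝ) ^ 15)))) ^ ((s ^ 16).choose 2) :=
            pow_le_pow_left₀ hq h4 _
        _ = Real.exp ((((s ^ 16).choose 2 : ℕ) : ℝ) * (-(1 / (2 * (s : ℝ) ^ 15)))) := by
            rw [← Real.exp_nat_mul]
        _ ≤ Real.exp (-((s : ℝ) ^ 17 / 5)) := by
            apply Real.exp_le_exp.mpr
            have h5 : (s : ℝ) ^ 17 / 5 ≤ (((s ^ 16).choose 2 : ℕ) : ℝ) * (1 / (2 * (s : ℝ) ^ 15)) := by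
              calc (s : ℝ) ^ 17 / 5 = ((2 / 5 : ℝ) * (s : ℝ) ^ 32) * (1 / (2 * (s : ℝ) ^ 15)) := by
                    field_simp
                _ ≤ _ := mul_le_mul_of_nonneg_right hC (by positivity)
            linarith
    calc ((s : ℝ) ^ 29) ^ (s ^ 16) *
        (2 ^ (3 * m) * (1 - 1 / (2 * (s : ℝ) ^ 15)) ^ ((s ^ 16).choose 2))
        ≤ Real.exp (29 * (s : ℝ) ^ 16 * Real.log s) *
          (Real.exp (3 * m) * Real.exp (-((s : ℝ) ^ 17 / 5))) := by
          rw [hN]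
          apply mul_le_mul_of_nonneg_left _ (Real.exp_pos _).le
          exact mul_le_mul h2 h3 (pow_nonneg hq _) (Real.exp_pos _).le
      _ = Real.exp (29 * (s : ℝ) ^ 16 * Real.log s + 3 * m - (s : ℝ) ^ 17 / 5) := by
          rw [← Real.exp_add, ← Real.exp_add]
          congr 1
          ring
      _ ≤ Real.exp (-1) := first (s : ℝ) (Real.log s) m 0 hx hL hexp hm1
  -- second term
  have hB : ((s : ℝ) ^ 29) ^ (s ^ 16) *
      ((((s : ℝ) ^ 16) ^ 2 * ((s : ℝ) ^ 29) ^ (3 - 2)) ^ m /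
        ((m.factorial : ℝ) * ((s : ℝ) ^ 15) ^ (3 * m))) ≤ Real.exp (-1) := by
    have h1 : (((s : ℝ) ^ 16) ^ 2 * ((s : ℝ) ^ 29) ^ (3 - 2)) ^ m /
        ((m.factorial : ℝ) * ((s : ℝ) ^ 15) ^ (3 * m)) = ((s : ℝ) ^ 16) ^ m / (m.factorial : ℝ) := by
      have h2 : (((s : ℝ) ^ 16) ^ 2 * ((s : ℝ) ^ 29) ^ (3 - 2)) ^ m
          = ((s : ℝ) ^ 16) ^ m * ((s : ℝ) ^ 15) ^ (3 * m) := by
        norm_num only
        rw [pow_mul ((s : ℝ) ^ 15) 3 m, ← mul_pow]
        congr 1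
        ring
      rw [h2]
      have h3 : ((s : ℝ) ^ 15) ^ (3 * m) ≠ 0 := by positivity
      rw [mul_div_mul_right _ _ h3]
    have h2 : 1 / (m.factorial : ℝ) ≤ Real.exp m / (m : ℝ) ^ m := by
      have h3 := Real.pow_div_factorial_le_exp (m : ℝ) hmpos.le m
      have hf : (0 : ℝ) < (m.factorial : ℝ) := by exact_mod_cast Nat.factorial_pos m
      have hmm : (0 : ℝ) < (m : ℝ) ^ m := by positivity
      rw [div_le_div_iff₀ hf hmm]
      rw [div_le_iff₀ hf] at h3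
      linarith
    have hlogm : 17 * Real.log s - 5 ≤ Real.log m := by
      have h3 : Real.log ((s : ℝ) ^ 17 / 97) ≤ Real.log m := Real.log_le_log (by positivity) hm2
      rw [Real.log_div (by positivity) (by norm_num), Real.log_pow] at h3
      have h4 : Real.log 97 ≤ 5 := by
        rw [Real.log_le_iff_le_exp (by norm_num)]
        have h5 : (2.7 : ℝ) ≤ Real.exp 1 := by
          have := Real.exp_one_gt_d9
          linarith
        have h6 : Real.exp 5 = (Real.exp 1) ^ 5 := by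
          rw [← Real.exp_nat_mul]
          norm_num
        rw [h6]
        calc (97 : ℝ) ≤ 2.7 ^ 5 := by norm_num
          _ ≤ (Real.exp 1) ^ 5 := pow_le_pow_left₀ (by norm_num) h5 5
      push_cast at h3
      linarith
    have hmm : (m : ℝ) ^ m = Real.exp (m * Real.log m) := by
      rw [mul_comm, Real.exp_mul, Real.exp_log hmpos, Real.rpow_natCast]
    have hsm : ((s : ℝ) ^ 16) ^ m = Real.exp (16 * m * Real.log s) := by
      rw [← pow_mul, hpowexp]
      congr 1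
      push_cast
      ring
    rw [h1, hN]
    calc Real.exp (29 * (s : ℝ) ^ 16 * Real.log s) * (((s : ℝ) ^ 16) ^ m / (m.factorial : ℝ))
        = Real.exp (29 * (s : ℝ) ^ 16 * Real.log s) * (Real.exp (16 * m * Real.log s) *
          (1 / (m.factorial : ℝ))) := by rw [hsm]; ring
      _ ≤ Real.exp (29 * (s : ℝ) ^ 16 * Real.log s) * (Real.exp (16 * m * Real.log s) *
          (Real.exp m / (m : ℝ) ^ m)) := by
          apply mul_le_mul_of_nonneg_left _ (Real.exp_pos _).le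
          exact mul_le_mul_of_nonneg_left h2 (Real.exp_pos _).le
      _ = Real.exp (29 * (s : ℝ) ^ 16 * Real.log s + 16 * m * Real.log s + m - m * Real.log m) := by
          rw [hmm, ← Real.exp_sub, ← Real.exp_add, ← Real.exp_add]
          congr 1
          ring
      _ ≤ Real.exp (29 * (s : ℝ) ^ 16 * Real.log s - m * (Real.log s - 6)) := by
          apply Real.exp_le_exp.mpr
          nlinarith [mul_le_mul_of_nonneg_left hlogm hmpos.le]
      _ ≤ Real.exp (-1) := second (s : ℝ) (Real.log s) m hx hL12 hm2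
  have he := exp_neg_one_lt
  rw [mul_add]
  linarith

end NU3_

open NU3_ in
theorem nu3_proof : Stmt_NU3 := by
  have h1 : ∀ᶠ s : ℕ in Filter.atTop, Real.log s ≤ (s : ℝ) / 500 := by
    have h := Real.isLittleO_log_id_atTop.bound (show (0 : ℝ) < 1 / 500 by norm_num)
    have h2 := tendsto_natCast_atTop_atTop.eventually (f := fun n : ℕ => (n : ℝ)) h
    filter_upwards [h2, Filter.eventually_ge_atTop 1] with s hs hs1
    have h3 : (1 : ℝ) ≤ (s : ℝ) := by exact_mod_cast hs1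
    simp only [id, Real.norm_eq_abs] at hs
    have h4 := le_abs_self (Real.log s)
    have h5 : |(s : ℝ)| = s := abs_of_pos (by linarith)
    rw [h5] at hs
    linarith
  have h2 : ∀ᶠ s : ℕ in Filter.atTop, 12 ≤ Real.log s :=
    (Real.tendsto_log_atTop.comp tendsto_natCast_atTop_atTop).eventually (Filter.eventually_ge_atTop 12)
  obtain ⟨s₀, hs₀⟩ := Filter.eventually_atTop.mp ((h1.and h2).and (Filter.eventually_ge_atTop 1000000))
  refine ⟨s₀, fun s hs => ?_⟩
  obtain ⟨⟨ha, hb⟩, hc⟩ := hs₀ s hs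
  exact core s hc hb ha

end Pool.Agent.EGR
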