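import Pool.Agent.EGR.Stmts

set_option autoImplicit false

namespace Pool.Agent.EGR

namespace NU4_

open Real

lemma log_le {x : ℝ} (hx : 2000000 ≤ x) : log x ≤ x / 1000 := by
  rw [log_le_iff_le_exp (by linarith)]
  have h := quadratic_le_exp_of_nonneg (show (0 : ℝ) ≤ x / 1000 by positivity)
  nlinarith

lemma pow_exp {x : ℝ} (hx : 0 < x) (a k : ℕ) : (x ^ a) ^ k = exp ((a * k) * log x) := by
  rw [← pow_mul, mul_comm ((a : ℝ) * k), exp_mul, exp_log hx, ← Nat.cast_mul, rpow_natCast]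

lemma fac_ge (m : ℕ) : ((m : ℝ) / 3) ^ m ≤ (m.factorial : ℝ) := by
  have h1 : (m : ℝ) ^ m / (m.factorial : ℝ) ≤ exp m := by
    have := pow_div_factorial_le_exp (m : ℝ) (Nat.cast_nonneg m) m
    exact this
  have h2 : exp (m : ℝ) ≤ 3 ^ m := by
    rw [← mul_one (m : ℝ), exp_nat_mul]
    exact pow_le_pow_left₀ (exp_pos 1).le (by linarith [exp_one_lt_d9]) m
  have h3 : (0 : ℝ) < m.factorial := by exact_mod_cast Nat.factorial_pos m
  rw [div_le_iff₀ h3] at h1
  rw [div_pow, div_le_iff₀ (by positivity)]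
  calc (m : ℝ) ^ m ≤ exp m * m.factorial := h1
    _ ≤ 3 ^ m * m.factorial := mul_le_mul_of_nonneg_right h2 h3.le
    _ = m.factorial * 3 ^ m := mul_comm _ _


/-- the first term -/
lemma first {x : ℝ} {s m : ℕ} (hs : (s : ℝ) = x) (hx : 2000000 ≤ x) (hm : (m : ℝ) ≤ x ^ 17 / 96) :
    (x ^ 33) ^ (s ^ 16) * (2 ^ (6 * m) * (1 - 1 / (2 * x ^ 15)) ^ ((s ^ 16).choose 2)) < 1 / 2 := by
  have hx0 : 0 < x := by linarith
  have hl := log_le hx
  have hl0 : 0 ≤ log x := log_nonneg (by linarith)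
  rw [pow_exp hx0]
  have h2 : (2 : ℝ) ^ (6 * m) ≤ exp ((6 * m) * 0.6932) := by
    have e1 : (2 : ℝ) ^ (6 * m) = exp ((6 * m) * log 2) := by
      rw [mul_comm ((6 : ℝ) * m), exp_mul, exp_log two_pos]
      exact_mod_cast (rpow_natCast 2 (6 * m)).symm
    rw [e1]
    apply exp_le_exp.mpr
    apply mul_le_mul_of_nonneg_left _ (by positivity)
    have := log_two_lt_d9
    linarith
  have hc : (((s ^ 16).choose 2 : ℕ) : ℝ) = x ^ 16 * (x ^ 16 - 1) / 2 := by
    rw [Nat.cast_choose_two]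
    push_cast
    rw [hs]
  have h3 : (1 - 1 / (2 * x ^ 15)) ^ ((s ^ 16).choose 2) ≤
      exp ((x ^ 16 * (x ^ 16 - 1) / 2) * -(1 / (2 * x ^ 15))) := by
    rw [← hc, exp_nat_mul]
    apply pow_le_pow_left₀
    · have : 1 / (2 * x ^ 15) ≤ 1 := by
        rw [div_le_one (by positivity)]
        have : (1 : ℝ) ≤ x ^ 15 := one_le_pow₀ (by linarith)
        linarith
      linarith
    · have := add_one_le_exp (-(1 / (2 * x ^ 15)))
      linarith
  have h30 : 0 ≤ (1 - 1 / (2 * x ^ 15)) := by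
    have : 1 / (2 * x ^ 15) ≤ 1 := by
      rw [div_le_one (by positivity)]
      have : (1 : ℝ) ≤ x ^ 15 := one_le_pow₀ (by linarith)
      linarith
    linarith
  have e4 : (x ^ 16 * (x ^ 16 - 1) / 2) * -(1 / (2 * x ^ 15)) = -((x ^ 17 - x) / 4) := by
    field_simp
    ring
  rw [e4] at h3
  have h5 : exp (((33 : ℕ) * ((s ^ 16 : ℕ) : ℝ)) * log x) *
      (2 ^ (6 * m) * (1 - 1 / (2 * x ^ 15)) ^ ((s ^ 16).choose 2)) ≤
      exp (((33 : ℕ) * ((s ^ 16 : ℕ) : ℝ)) * log x) *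
        (exp ((6 * m) * 0.6932) * exp (-((x ^ 17 - x) / 4))) := by
    apply mul_le_mul_of_nonneg_left _ (exp_pos _).le
    exact mul_le_mul h2 h3 (by positivity) (by positivity)
  refine lt_of_le_of_lt h5 ?_
  rw [← exp_add, ← exp_add]
  have h6 : ((33 : ℕ) * ((s ^ 16 : ℕ) : ℝ)) * log x + ((6 * m) * 0.6932 + -((x ^ 17 - x) / 4)) ≤
      -1 := by
    push_cast
    rw [hs]
    have a1 : 33 * x ^ 16 * log x ≤ 33 * x ^ 16 * (x / 1000) :=
      mul_le_mul_of_nonneg_left hl (by positivity)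
    have a2 : 33 * x ^ 16 * (x / 1000) = 0.033 * x ^ 17 := by ring
    have a3 : x ≤ x ^ 17 := le_self_pow₀ (by linarith) (by norm_num)
    have a4 : (2000000 : ℝ) ≤ x ^ 17 := by linarith
    have a5 : x * 2000000 ≤ x ^ 17 := by
      have : x ^ 17 = x * x ^ 16 := by ring
      rw [this]
      apply mul_le_mul_of_nonneg_left _ hx0.le
      exact le_trans hx (le_self_pow₀ (by linarith) (by norm_num))
    generalize x ^ 17 = y at *
    generalize x ^ 16 = z at *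
    linarith
  have h7 : exp (-1 : ℝ) < 1 / 2 := by
    rw [exp_neg, inv_lt_comm₀ (exp_pos 1) (by norm_num)]
    have := exp_one_gt_d9
    norm_num
    linarith
  exact lt_of_le_of_lt (exp_le_exp.mpr h6) h7

/-- the second term -/
lemma second {x : ℝ} {s m : ℕ} (hs : (s : ℝ) = x) (hx : 2000000 ≤ x) (hm : x ^ 17 / 97 ≤ m) :
    (x ^ 33) ^ (s ^ 16) * (((x ^ 16) ^ 2 * (x ^ 33) ^ (4 - 2)) ^ m /
      ((m.factorial : ℝ) * (x ^ 15) ^ (6 * m))) < 1 / 2 := by
  have hx0 : 0 < x := by linarith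
  have hm0 : (0 : ℝ) < m := lt_of_lt_of_le (by positivity) hm
  have hf : (0 : ℝ) < m.factorial := by exact_mod_cast Nat.factorial_pos m
  have e1 : ((x ^ 16) ^ 2 * (x ^ 33) ^ (4 - 2)) ^ m / ((m.factorial : ℝ) * (x ^ 15) ^ (6 * m)) =
      (x ^ 8) ^ m / (m.factorial : ℝ) := by
    have : ((x ^ 16) ^ 2 * (x ^ 33) ^ (4 - 2)) ^ m = (x ^ 8) ^ m * (x ^ 15) ^ (6 * m) := by
      rw [pow_mul, ← mul_pow]
      ring
    rw [this]
    field_simp
  rw [e1]
  have h1 : (x ^ 8) ^ m / (m.factorial : ℝ) ≤ (x⁻¹ ^ 8) ^ m := by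
    rw [div_le_iff₀ hf]
    have h2 := fac_ge m
    have h3 : (x ^ 8) ^ m ≤ (x⁻¹ ^ 8) ^ m * (m / 3) ^ m := by
      rw [← mul_pow]
      apply pow_le_pow_left₀ (by positivity)
      have h4 : x ^ 8 ≤ x⁻¹ ^ 8 * (x ^ 17 / 97 / 3) := by
        have : x⁻¹ ^ 8 * (x ^ 17 / 97 / 3) = x ^ 8 * (x / 291) := by
          field_simp
          norm_num
        rw [this]
        have h5 : 1 ≤ x / 291 := by
          rw [le_div_iff₀ (by norm_num)]; linarith
        have h6 : 0 < x ^ 8 := by positivity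
        nlinarith
      refine le_trans h4 ?_
      apply mul_le_mul_of_nonneg_left _ (by positivity)
      linarith
    refine le_trans h3 ?_
    exact mul_le_mul_of_nonneg_left h2 (by positivity)
  refine lt_of_le_of_lt (mul_le_mul_of_nonneg_left h1 (by positivity)) ?_
  have e2 : (x⁻¹ ^ 8) ^ m = exp (-((8 * m) * log x)) := by
    rw [inv_pow, inv_pow, pow_exp hx0, exp_neg]
    push_cast
    rfl
  rw [pow_exp hx0, e2, ← exp_add]
  have hl1 : 1 ≤ log x := by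
    rw [le_log_iff_exp_le hx0]
    have := exp_one_lt_d9
    linarith
  have h6 : ((33 : ℕ) * ((s ^ 16 : ℕ) : ℝ)) * log x + -((8 * m) * log x) ≤ -1 := by
    push_cast
    rw [hs]
    have a5 : x ^ 16 * 2000000 ≤ x ^ 17 := by
      have : x ^ 17 = x ^ 16 * x := by ring
      rw [this]
      exact mul_le_mul_of_nonneg_left hx (by positivity)
    have a6 : (1 : ℝ) ≤ x ^ 16 := one_le_pow₀ (by linarith)
    have a7 : 33 * x ^ 16 - 8 * m ≤ -1 := by
      generalize x ^ 17 = y at *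
      generalize x ^ 16 = z at *
      linarith
    nlinarith
  have h7 : exp (-1 : ℝ) < 1 / 2 := by
    rw [exp_neg, inv_lt_comm₀ (exp_pos 1) (by norm_num)]
    have := exp_one_gt_d9
    norm_num
    linarith
  exact lt_of_le_of_lt (exp_le_exp.mpr h6) h7

end NU4_

theorem nu4_proof : Stmt_NU4 := by
  refine ⟨2000000, fun s hs => ?_⟩
  unfold Hyp
  obtain ⟨m, hm⟩ : ∃ m, m = s ^ 17 / 96 := ⟨_, rfl⟩
  obtain ⟨x, hxs⟩ : ∃ x : ℝ, (s : ℝ) = x := ⟨_, rfl⟩
  have hx : (2000000 : ℝ) ≤ x := by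
    rw [← hxs]; exact_mod_cast hs
  rw [← hm]
  have hm1 : (m : ℝ) ≤ x ^ 17 / 96 := by
    rw [hm, ← hxs]
    have := @Nat.cast_div_le ℝ _ _ _ (s ^ 17) 96
    push_cast at this
    exact this
  have hm2 : x ^ 17 / 97 ≤ m := by
    have h1 : s ^ 17 < 96 * (m + 1) := by
      rw [hm]
      exact Nat.lt_mul_div_succ _ (by norm_num)
    have h2 : x ^ 17 < 96 * ((m : ℝ) + 1) := by
      rw [← hxs]; exact_mod_cast h1
    have h3 : (2000000 : ℝ) ≤ x ^ 17 := le_trans hx (le_self_pow₀ (by linarith) (by norm_num))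
    generalize x ^ 17 = y at *
    linarith
  have f := NU4_.first hxs hx hm1
  have g := NU4_.second hxs hx hm2
  have c4 : Nat.choose 4 2 = 6 := rfl
  rw [c4, mul_add]
  push_cast
  rw [hxs]
  linarith

end Pool.Agent.EGR
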