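import Pool.Agent.EGR.Stmts

set_option autoImplicit false

namespace Pool.Agent.EGR

open Finset SimpleGraph
open scoped Classical

namespace PE_

theorem peel_trans {V : Type} (H : SimpleGraph V) {S T U : Finset V} (h1 : Peel H S T)
    (h2 : Peel H T U) : Peel H S U := by
  induction h2 with
  | base => exact h1
  | step T' u _ hu hd ih => exact Peel.step T' u ih hu hd

end PE_

/-- PE: peeling down to a set of prescribed size. -/
theorem pe_proof : Stmt_PE := by
  intro V _ H f hf hle
  have key : ∀ k : ℕ, ∀ T : Finset V, T.card = f + k → ∃ S : Finset V, S.card = f ∧ Peel H S T := by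
    intro k
    induction k with
    | zero => intro T hT; exact ⟨T, by simpa using hT, Peel.base⟩
    | succ k ih =>
      intro T hT
      have hex : ∃ v ∈ T, dg H T v < 2 := by
        by_contra hcon
        push Not at hcon
        have := hf T hcon
        omega
      obtain ⟨v, hv, hd⟩ := hex
      obtain ⟨S, hS, hp⟩ := ih (T.erase v) (by rw [Finset.card_erase_of_mem hv]; omega)
      refine ⟨S, hS, ?_⟩
      have h3 : Peel H S (insert v (T.erase v)) := by
        refine Peel.step (T.erase v) v hp (Finset.notMem_erase v T) ?_
        have h4 : dg H (T.erase v) v ≤ dg H T v := by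
          unfold dg
          exact Finset.card_le_card (Finset.filter_subset_filter _ (Finset.erase_subset v T))
        omega
      rwa [Finset.insert_erase hv] at h3
  exact key (Fintype.card V - f) univ (by rw [Finset.card_univ]; omega)

end Pool.Agent.EGR
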