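import Pool.Agent.EGR.Stmts

/-!
# EGR, module RG: the random construction
-/

set_option autoImplicit false

open Finset SimpleGraph
open scoped Classical

namespace Pool.Agent.EGR

namespace RG_

section counting
variable {β : Type} [Fintype β] [DecidableEq β]

/-- number of colourings that vanish on `D` -/
lemma cnt (D : Finset β) (q : ℕ) :
    (((univ : Finset (β → Fin (q + 1))).filter (fun c => ∀ e ∈ D, c e = 0)).card : ℝ) *
      ((q + 1 : ℕ) : ℝ) ^ D.card = ((q + 1 : ℕ) : ℝ) ^ Fintype.card β := by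
  have h : ((univ : Finset (β → Fin (q + 1))).filter (fun c => ∀ e ∈ D, c e = 0)) =
      Fintype.piFinset (fun e => if e ∈ D then ({0} : Finset (Fin (q + 1))) else univ) := by
    ext c
    simp only [mem_filter, mem_univ, true_and, Fintype.mem_piFinset]
    constructor
    · intro h e
      by_cases he : e ∈ D
      · simp [he, h e he]
      · simp [he]
    · intro h e he
      have := h e
      simpa [he] using this
  rw [h, Fintype.card_piFinset]
  have h2 : ∀ e, (if e ∈ D then ({0} : Finset (Fin (q + 1))) else univ).card =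
      if e ∈ D then 1 else (q + 1) := by
    intro e
    by_cases he : e ∈ D
    · simp [he]
    · simp [he]
  simp_rw [h2]
  have h3 : (∏ e, if e ∈ D then 1 else (q + 1)) * (q + 1) ^ D.card =
      (q + 1) ^ Fintype.card β := by
    have h4 : (q + 1) ^ D.card = ∏ e, if e ∈ D then (q + 1) else 1 := by
      rw [Finset.prod_ite_mem univ D (fun _ => q + 1)]
      simp
    rw [h4, ← Finset.prod_mul_distrib]
    have h5 : ∀ e, ((if e ∈ D then 1 else (q + 1)) * if e ∈ D then (q + 1) else 1) = q + 1 := by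
      intro e
      by_cases he : e ∈ D <;> simp [he]
    simp_rw [h5]
    simp
  exact_mod_cast h3

/-- the exponential moment -/
lemma moment (E : Finset β) (q : ℕ) :
    ∑ c : β → Fin (q + 1), (1 / 2 : ℝ) ^ (E.filter (fun e => c e = 0)).card =
      ((q + 1 : ℕ) : ℝ) ^ Fintype.card β * (1 - 1 / (2 * ((q + 1 : ℕ) : ℝ))) ^ E.card := by
  have h1 : ∀ c : β → Fin (q + 1), (1 / 2 : ℝ) ^ (E.filter (fun e => c e = 0)).card =
      ∏ e, (if e ∈ E ∧ c e = 0 then (1 / 2 : ℝ) else 1) := by
    intro c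
    rw [← Finset.prod_filter, Finset.prod_const]
    congr 2
    ext e
    simp
  simp_rw [h1]
  have h2 := Finset.prod_univ_sum (fun _ : β => (univ : Finset (Fin (q + 1))))
    (fun e x => if e ∈ E ∧ x = 0 then (1 / 2 : ℝ) else 1)
  rw [Fintype.piFinset_univ] at h2
  rw [← h2]
  have hq : ((q + 1 : ℕ) : ℝ) ≠ 0 := by positivity
  have h3 : ∀ e, (∑ x : Fin (q + 1), if e ∈ E ∧ x = 0 then (1 / 2 : ℝ) else 1) =
      ((q + 1 : ℕ) : ℝ) * (if e ∈ E then (1 - 1 / (2 * ((q + 1 : ℕ) : ℝ))) else 1) := by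
    intro e
    rw [Fin.sum_univ_succ]
    by_cases he : e ∈ E
    · simp only [he, true_and, if_true, Fin.succ_ne_zero, if_false, Finset.sum_const,
        Finset.card_univ, Fintype.card_fin, nsmul_eq_mul, mul_one]
      field_simp
      push_cast
      ring
    · simp only [he, false_and, if_false, Finset.sum_const, Finset.card_univ, Fintype.card_fin,
        nsmul_eq_mul, mul_one]
      push_cast
      ring
  simp_rw [h3]
  rw [Finset.prod_mul_distrib, Finset.prod_const, Finset.card_univ]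
  congr 1
  rw [Finset.prod_ite_mem univ E (fun _ => (1 - 1 / (2 * ((q + 1 : ℕ) : ℝ))))]
  simp

/-- few zeros are unlikely -/
lemma cntA (E : Finset β) (q k : ℕ) :
    (((univ : Finset (β → Fin (q + 1))).filter
      (fun c => (E.filter (fun e => c e = 0)).card ≤ k)).card : ℝ) ≤
      ((q + 1 : ℕ) : ℝ) ^ Fintype.card β *
        (2 ^ k * (1 - 1 / (2 * ((q + 1 : ℕ) : ℝ))) ^ E.card) := by
  have h1 := moment E q
  have h2 : ∑ c ∈ (univ : Finset (β → Fin (q + 1))).filter
      (fun c => (E.filter (fun e => c e = 0)).card ≤ k), (1 / 2 : ℝ) ^ k ≤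
      ∑ c : β → Fin (q + 1), (1 / 2 : ℝ) ^ (E.filter (fun e => c e = 0)).card := by
    refine le_trans (Finset.sum_le_sum (fun c hc => ?_))
      (Finset.sum_le_sum_of_subset_of_nonneg (Finset.filter_subset _ _) (fun _ _ _ => by positivity))
    exact pow_le_pow_of_le_one (by norm_num) (by norm_num) (mem_filter.1 hc).2
  rw [h1, Finset.sum_const, nsmul_eq_mul] at h2
  have h3 : (2 : ℝ) ^ k * (1 / 2) ^ k = 1 := by rw [← mul_pow]; norm_num
  calc _ = (((univ : Finset (β → Fin (q + 1))).filter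
      (fun c => (E.filter (fun e => c e = 0)).card ≤ k)).card : ℝ) * (1 / 2) ^ k * 2 ^ k := by
        rw [mul_assoc, mul_comm ((1 / 2 : ℝ) ^ k), h3, mul_one]
    _ ≤ (((q + 1 : ℕ) : ℝ) ^ Fintype.card β * (1 - 1 / (2 * ((q + 1 : ℕ) : ℝ))) ^ E.card) *
        2 ^ k := mul_le_mul_of_nonneg_right h2 (by positivity)
    _ = _ := by ring

end counting

section pairsec
variable {α : Type} [Fintype α] [DecidableEq α]

/-- the pairs of `K` -/
def pr (K : Finset α) : Finset (Sym2 α) := K.offDiag.image (Function.uncurry Sym2.mk)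

omit [Fintype α] in
lemma mem_pr {K : Finset α} {a b : α} : s(a, b) ∈ pr K ↔ a ∈ K ∧ b ∈ K ∧ a ≠ b := by
  unfold pr
  rw [mem_image]
  constructor
  · rintro ⟨⟨x, y⟩, hxy, h⟩
    rw [mem_offDiag] at hxy
    rcases Sym2.eq_iff.1 h with ⟨rfl, rfl⟩ | ⟨rfl, rfl⟩
    · exact hxy
    · exact ⟨hxy.2.1, hxy.1, hxy.2.2.symm⟩
  · intro h
    exact ⟨(a, b), mem_offDiag.2 h, rfl⟩

omit [Fintype α] in
lemma card_pr (K : Finset α) : (pr K).card = K.card.choose 2 := Sym2.card_image_offDiag K

/-- the `r`-sets with at least two points in `T` -/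
noncomputable def KT (r : ℕ) (T : Finset α) : Finset (Finset α) :=
  (powersetCard r univ).filter (fun K => 2 ≤ (K ∩ T).card)

lemma card_KT (r : ℕ) (T : Finset α) :
    ((KT r T).card : ℝ) ≤ (T.card : ℝ) ^ 2 * (Fintype.card α : ℝ) ^ (r - 2) := by
  have h1 : KT r T ⊆ ((powersetCard 2 T) ×ˢ (powersetCard (r - 2) (univ : Finset α))).image
      (fun x => x.1 ∪ x.2) := by
    intro K hK
    obtain ⟨hK1, hK2⟩ := mem_filter.1 hK
    have hKc : K.card = r := (mem_powersetCard.1 hK1).2
    obtain ⟨A, hA, hAc⟩ := Finset.exists_subset_card_eq hK2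
    rw [mem_image]
    refine ⟨(A, K \ A), ?_, ?_⟩
    · rw [mem_product, mem_powersetCard, mem_powersetCard]
      refine ⟨⟨hA.trans inter_subset_right, hAc⟩, subset_univ _, ?_⟩
      rw [card_sdiff_of_subset (hA.trans inter_subset_left), hKc, hAc]
    · exact union_sdiff_of_subset (hA.trans inter_subset_left)
  have h2 := (card_le_card h1).trans card_image_le
  rw [card_product, card_powersetCard, card_powersetCard, card_univ] at h2
  have h3 : (T.card.choose 2 : ℝ) ≤ (T.card : ℝ) ^ 2 := by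
    exact_mod_cast Nat.choose_le_pow T.card 2
  have h4 : ((Fintype.card α).choose (r - 2) : ℝ) ≤ (Fintype.card α : ℝ) ^ (r - 2) := by
    exact_mod_cast Nat.choose_le_pow (Fintype.card α) (r - 2)
  calc ((KT r T).card : ℝ) ≤ ((T.card.choose 2 * (Fintype.card α).choose (r - 2) : ℕ) : ℝ) := by
        exact_mod_cast h2
    _ = (T.card.choose 2 : ℝ) * ((Fintype.card α).choose (r - 2) : ℝ) := by push_cast; ring
    _ ≤ _ := mul_le_mul h3 h4 (by positivity) (by positivity)

/-- the good families -/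
def Fam (F : Finset (Finset α)) : Prop := ∀ K ∈ F, ∀ K' ∈ F, K ≠ K' → (K ∩ K').card ≤ 1

omit [Fintype α] in
lemma card_union_pr (r : ℕ) (F : Finset (Finset α)) (hF : Fam F) (hc : ∀ K ∈ F, K.card = r) :
    (F.biUnion pr).card = F.card * r.choose 2 := by
  rw [card_biUnion]
  · rw [Finset.sum_congr rfl (fun K hK => by rw [card_pr, hc K hK]), Finset.sum_const, smul_eq_mul]
  · intro K hK K' hK' hne
    change Disjoint (pr K) (pr K')
    rw [Finset.disjoint_left]
    intro e he he'
    induction e with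
    | h a b =>
      rw [mem_pr] at he he'
      have h1 := hF K hK K' hK' hne
      have h2 : ({a, b} : Finset α) ⊆ K ∩ K' := by
        intro x hx
        rw [mem_insert, mem_singleton] at hx
        rcases hx with rfl | rfl
        · exact mem_inter.2 ⟨he.1, he'.1⟩
        · exact mem_inter.2 ⟨he.2.1, he'.2.1⟩
      have h3 := card_le_card h2
      rw [card_pair he.2.2] at h3
      omega

/-- bad colourings of type B -/
noncomputable def BB (r m q : ℕ) (T : Finset α) : Finset (Sym2 α → Fin (q + 1)) :=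
  ((powersetCard m (KT r T)).filter Fam).biUnion
    (fun F => univ.filter (fun c => ∀ e ∈ F.biUnion pr, c e = 0))

lemma card_BB (r m q : ℕ) (T : Finset α) :
    ((BB r m q T).card : ℝ) ≤ ((q + 1 : ℕ) : ℝ) ^ Fintype.card (Sym2 α) *
      (((T.card : ℝ) ^ 2 * (Fintype.card α : ℝ) ^ (r - 2)) ^ m /
        ((m.factorial : ℝ) * ((q + 1 : ℕ) : ℝ) ^ (r.choose 2 * m))) := by
  have hq : (0 : ℝ) < ((q + 1 : ℕ) : ℝ) := by positivity
  have h1 : ((BB r m q T).card : ℝ) ≤ ∑ F ∈ (powersetCard m (KT r T)).filter Fam,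
      ((univ.filter (fun c : Sym2 α → Fin (q + 1) => ∀ e ∈ F.biUnion pr, c e = 0)).card : ℝ) := by
    exact_mod_cast card_biUnion_le
  have h2 : ∀ F ∈ (powersetCard m (KT r T)).filter Fam,
      ((univ.filter (fun c : Sym2 α → Fin (q + 1) => ∀ e ∈ F.biUnion pr, c e = 0)).card : ℝ) =
      ((q + 1 : ℕ) : ℝ) ^ Fintype.card (Sym2 α) / ((q + 1 : ℕ) : ℝ) ^ (r.choose 2 * m) := by
    intro F hF
    obtain ⟨hF1, hF2⟩ := mem_filter.1 hF
    obtain ⟨hF3, hF4⟩ := mem_powersetCard.1 hF1
    have hc : ∀ K ∈ F, K.card = r := fun K hK =>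
      (mem_powersetCard.1 (mem_filter.1 (hF3 hK)).1).2
    have h3 := cnt (F.biUnion pr) q
    rw [card_union_pr r F hF2 hc, hF4, mul_comm m] at h3
    rw [eq_div_iff (by positivity)]
    exact h3
  rw [Finset.sum_congr rfl h2, Finset.sum_const, nsmul_eq_mul] at h1
  have h4 : (((powersetCard m (KT r T)).filter Fam).card : ℝ) ≤
      ((T.card : ℝ) ^ 2 * (Fintype.card α : ℝ) ^ (r - 2)) ^ m / (m.factorial : ℝ) := by
    calc (((powersetCard m (KT r T)).filter Fam).card : ℝ) ≤ ((powersetCard m (KT r T)).card : ℝ) := by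
          exact_mod_cast card_filter_le _ _
      _ = ((KT r T).card.choose m : ℝ) := by rw [card_powersetCard]
      _ ≤ ((KT r T).card : ℝ) ^ m / (m.factorial : ℝ) := Nat.choose_le_pow_div m _
      _ ≤ _ := by
          refine div_le_div_of_nonneg_right ?_ (by positivity)
          exact pow_le_pow_left₀ (by positivity) (card_KT r T) m
  refine h1.trans ((mul_le_mul_of_nonneg_right h4 (by positivity)).trans (le_of_eq ?_))
  field_simp

/-- bad colourings of type A -/
noncomputable def AA (k q : ℕ) (T : Finset α) : Finset (Sym2 α → Fin (q + 1)) :=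
  univ.filter (fun c => ((pr T).filter (fun e => c e = 0)).card ≤ k)

lemma exists_good (r n m q : ℕ) (hr : 2 ≤ r)
    (h : (Fintype.card α : ℝ) ^ n *
      (2 ^ (r.choose 2 * m) * (1 - 1 / (2 * ((q + 1 : ℕ) : ℝ))) ^ (n.choose 2) +
      ((n : ℝ) ^ 2 * (Fintype.card α : ℝ) ^ (r - 2)) ^ m /
        ((m.factorial : ℝ) * ((q + 1 : ℕ) : ℝ) ^ (r.choose 2 * m))) < 1) :
    ∃ c : Sym2 α → Fin (q + 1), ∀ T : Finset α, T.card = n →
      c ∉ AA (r.choose 2 * m) q T ∧ c ∉ BB r m q T := by
  have hq : (0 : ℝ) < ((q + 1 : ℕ) : ℝ) := by positivity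
  set X : ℝ := (2 ^ (r.choose 2 * m) * (1 - 1 / (2 * ((q + 1 : ℕ) : ℝ))) ^ (n.choose 2) +
      ((n : ℝ) ^ 2 * (Fintype.card α : ℝ) ^ (r - 2)) ^ m /
        ((m.factorial : ℝ) * ((q + 1 : ℕ) : ℝ) ^ (r.choose 2 * m))) with hX
  set S : ℕ := Fintype.card (Sym2 α) with hS
  have hρ : (0 : ℝ) ≤ 1 - 1 / (2 * ((q + 1 : ℕ) : ℝ)) := by
    have : 1 / (2 * ((q + 1 : ℕ) : ℝ)) ≤ 1 := by
      rw [div_le_one (by positivity)]
      push_cast
      have : (0 : ℝ) ≤ q := Nat.cast_nonneg q
      linarith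
    linarith
  have hX0 : 0 ≤ X := by positivity
  have hsmall : ((((powersetCard n (univ : Finset α)).biUnion
      (fun T => AA (r.choose 2 * m) q T ∪ BB r m q T)).card : ℕ) : ℝ) < ((q + 1 : ℕ) : ℝ) ^ S := by
    have h1 : ((((powersetCard n (univ : Finset α)).biUnion
        (fun T => AA (r.choose 2 * m) q T ∪ BB r m q T)).card : ℕ) : ℝ) ≤
        ∑ T ∈ powersetCard n (univ : Finset α),
          ((AA (r.choose 2 * m) q T ∪ BB r m q T).card : ℝ) := by
      exact_mod_cast card_biUnion_le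
    have h2 : ∀ T ∈ powersetCard n (univ : Finset α),
        ((AA (r.choose 2 * m) q T ∪ BB r m q T).card : ℝ) ≤ ((q + 1 : ℕ) : ℝ) ^ S * X := by
      intro T hT
      have hTc : T.card = n := (mem_powersetCard.1 hT).2
      have ha := cntA (pr T) q (r.choose 2 * m)
      rw [card_pr, hTc] at ha
      have hb := card_BB r m q T
      rw [hTc] at hb
      have hc : ((AA (r.choose 2 * m) q T ∪ BB r m q T).card : ℝ) ≤
          ((AA (r.choose 2 * m) q T).card : ℝ) + ((BB r m q T).card : ℝ) := by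
        exact_mod_cast card_union_le _ _
      refine hc.trans ((add_le_add ha hb).trans (le_of_eq ?_))
      rw [hX]
      ring
    have h3 := h1.trans (Finset.sum_le_sum h2)
    rw [Finset.sum_const, card_powersetCard, card_univ, nsmul_eq_mul] at h3
    have h4 : ((Fintype.card α).choose n : ℝ) ≤ (Fintype.card α : ℝ) ^ n := by
      exact_mod_cast Nat.choose_le_pow (Fintype.card α) n
    have h5 : ((Fintype.card α).choose n : ℝ) * (((q + 1 : ℕ) : ℝ) ^ S * X) ≤
        ((q + 1 : ℕ) : ℝ) ^ S * ((Fintype.card α : ℝ) ^ n * X) := by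
      have := mul_le_mul_of_nonneg_right h4 (by positivity : (0 : ℝ) ≤ ((q + 1 : ℕ) : ℝ) ^ S * X)
      linarith
    have h6 : ((q + 1 : ℕ) : ℝ) ^ S * ((Fintype.card α : ℝ) ^ n * X) < ((q + 1 : ℕ) : ℝ) ^ S * 1 :=
      mul_lt_mul_of_pos_left h (by positivity)
    linarith
  by_contra hcon
  push Not at hcon
  have huniv : (powersetCard n (univ : Finset α)).biUnion
      (fun T => AA (r.choose 2 * m) q T ∪ BB r m q T) = univ := by
    rw [eq_univ_iff_forall]
    intro c
    obtain ⟨T, hT, hTc⟩ := hcon c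
    rw [mem_biUnion]
    refine ⟨T, mem_powersetCard.2 ⟨subset_univ _, hT⟩, ?_⟩
    rw [mem_union]
    by_cases ha : c ∈ AA (r.choose 2 * m) q T
    · exact Or.inl ha
    · exact Or.inr (hTc ha)
  rw [huniv, card_univ, Fintype.card_fun, Fintype.card_fin] at hsmall
  push_cast at hsmall
  exact lt_irrefl _ hsmall

/-- the deterministic part -/
lemma main (r n m q : ℕ) (hr : 2 ≤ r)
    (h : (Fintype.card α : ℝ) ^ n *
      (2 ^ (r.choose 2 * m) * (1 - 1 / (2 * ((q + 1 : ℕ) : ℝ))) ^ (n.choose 2) +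
      ((n : ℝ) ^ 2 * (Fintype.card α : ℝ) ^ (r - 2)) ^ m /
        ((m.factorial : ℝ) * ((q + 1 : ℕ) : ℝ) ^ (r.choose 2 * m))) < 1) :
    ∃ Γ : SimpleGraph α, Γᶜ.CliqueFree n ∧ Γ.CliqueFree r := by
  obtain ⟨c, hc⟩ := exists_good r n m q hr h
  -- valid families
  obtain ⟨F, hF, hmax⟩ := Finset.exists_max_image
    ((univ : Finset (Finset (Finset α))).filter (fun F => Fam F ∧ (∀ K ∈ F, K.card = r) ∧
      ∀ e ∈ F.biUnion pr, c e = 0)) card
    ⟨∅, mem_filter.2 ⟨mem_univ _, fun K hK => absurd hK (notMem_empty K),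
      fun K hK => absurd hK (notMem_empty K), fun e he => by simp at he⟩⟩
  obtain ⟨-, hFam, hFr, hFz⟩ := mem_filter.1 hF
  let Γ : SimpleGraph α :=
    { Adj := fun a b => a ≠ b ∧ c s(a, b) = 0 ∧ ∀ K ∈ F, ¬ (a ∈ K ∧ b ∈ K)
      symm := ⟨fun a b hab => ⟨hab.1.symm, by rw [Sym2.eq_swap]; exact hab.2.1,
        fun K hK hh => hab.2.2 K hK ⟨hh.2, hh.1⟩⟩⟩
      loopless := ⟨fun a ha => ha.1 rfl⟩ }
  refine ⟨Γ, ?_, ?_⟩
  · intro T hT
    have hTc : T.card = n := hT.card_eq
    obtain ⟨hA, hB⟩ := hc T hTc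
    -- the members of F that meet T in two points
    set FT : Finset (Finset α) := F.filter (fun K => 2 ≤ (K ∩ T).card) with hFT
    have hlt : FT.card < m := by
      by_contra hge
      push Not at hge
      obtain ⟨F', hF', hF'c⟩ := Finset.exists_subset_card_eq hge
      apply hB
      unfold BB
      rw [mem_biUnion]
      refine ⟨F', mem_filter.2 ⟨mem_powersetCard.2 ⟨?_, hF'c⟩, ?_⟩, mem_filter.2 ⟨mem_univ _, ?_⟩⟩
      · intro K hK
        have hK' := mem_filter.1 (hF' hK)
        exact mem_filter.2 ⟨mem_powersetCard.2 ⟨subset_univ _, hFr K hK'.1⟩, hK'.2⟩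
      · intro K hK K' hK' hne
        exact hFam K (mem_filter.1 (hF' hK)).1 K' (mem_filter.1 (hF' hK')).1 hne
      · intro e he
        apply hFz
        rw [mem_biUnion] at he ⊢
        obtain ⟨K, hK, heK⟩ := he
        exact ⟨K, (mem_filter.1 (hF' hK)).1, heK⟩
    apply hA
    refine mem_filter.2 ⟨mem_univ _, ?_⟩
    have hsub : (pr T).filter (fun e => c e = 0) ⊆ FT.biUnion pr := by
      intro e he
      obtain ⟨he1, he2⟩ := mem_filter.1 he
      induction e with
      | h a b =>
        rw [mem_pr] at he1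
        have hadj : Γᶜ.Adj a b := hT.isClique he1.1 he1.2.1 he1.2.2
        rw [SimpleGraph.compl_adj] at hadj
        have hnot := hadj.2
        have hex : ∃ K ∈ F, a ∈ K ∧ b ∈ K := by
          by_contra hno
          push Not at hno
          exact hnot ⟨he1.2.2, he2, fun K hK hh => hno K hK hh.1 hh.2⟩
        obtain ⟨K, hK, haK, hbK⟩ := hex
        rw [mem_biUnion]
        refine ⟨K, mem_filter.2 ⟨hK, ?_⟩, mem_pr.2 ⟨haK, hbK, he1.2.2⟩⟩
        have h2 : ({a, b} : Finset α) ⊆ K ∩ T := by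
          intro x hx
          rw [mem_insert, mem_singleton] at hx
          rcases hx with rfl | rfl
          · exact mem_inter.2 ⟨haK, he1.1⟩
          · exact mem_inter.2 ⟨hbK, he1.2.1⟩
        have h3 := card_le_card h2
        rwa [card_pair he1.2.2] at h3
    have hcard := card_le_card hsub
    rw [card_union_pr r FT (fun K hK K' hK' hne =>
      hFam K (mem_filter.1 hK).1 K' (mem_filter.1 hK').1 hne)
      (fun K hK => hFr K (mem_filter.1 hK).1)] at hcard
    refine hcard.trans ?_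
    rw [mul_comm]
    exact Nat.mul_le_mul_left _ hlt.le
  · intro K0 hK0
    have hK0c : K0.card = r := hK0.card_eq
    have hadj : ∀ a ∈ K0, ∀ b ∈ K0, a ≠ b → Γ.Adj a b := fun a ha b hb hne =>
      hK0.isClique ha hb hne
    have hnF : K0 ∉ F := by
      intro hmem
      obtain ⟨a, ha, b, hb, hne⟩ := Finset.one_lt_card.1 (by omega : 1 < K0.card)
      exact (hadj a ha b hb hne).2.2 K0 hmem ⟨ha, hb⟩
    have hint : ∀ K ∈ F, (K0 ∩ K).card ≤ 1 := by
      intro K hK
      by_contra hgt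
      push Not at hgt
      obtain ⟨a, ha, b, hb, hne⟩ := Finset.one_lt_card.1 hgt
      exact (hadj a (mem_inter.1 ha).1 b (mem_inter.1 hb).1 hne).2.2 K hK
        ⟨(mem_inter.1 ha).2, (mem_inter.1 hb).2⟩
    have hle := hmax (insert K0 F) (mem_filter.2 ⟨mem_univ _, ?_, ?_, ?_⟩)
    · rw [card_insert_of_notMem hnF] at hle
      omega
    · intro K hK K' hK' hne
      rw [mem_insert] at hK hK'
      rcases hK with rfl | hK
      · rcases hK' with rfl | hK'
        · exact absurd rfl hne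
        · exact hint K' hK'
      · rcases hK' with rfl | hK'
        · rw [inter_comm]
          exact hint K hK
        · exact hFam K hK K' hK' hne
    · intro K hK
      rw [mem_insert] at hK
      rcases hK with rfl | hK
      · exact hK0c
      · exact hFr K hK
    · intro e he
      rw [mem_biUnion] at he
      obtain ⟨K, hK, heK⟩ := he
      rw [mem_insert] at hK
      rcases hK with rfl | hK
      · induction e with
        | h a b =>
          rw [mem_pr] at heK
          exact (hadj a heK.1 b heK.2.1 heK.2.2).2.1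
      · exact hFz e (mem_biUnion.2 ⟨K, hK, heK⟩)

end pairsec

end RG_

open RG_ in
theorem rg_proof : Stmt_RG := by
  intro r n N Q m hr hQ hyp
  obtain ⟨q, rfl⟩ : ∃ q, Q = q + 1 := ⟨Q - 1, by omega⟩
  have h := hyp
  unfold Hyp at h
  obtain ⟨Γ, h1, h2⟩ := main (α := Fin N) r n m q hr (by rw [Fintype.card_fin]; exact h)
  refine ⟨Γᶜ, h1, ?_⟩
  rw [compl_compl]
  exact h2

end Pool.Agent.EGR
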