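import Pool.Agent.EGR.Stmts

set_option autoImplicit false

/-!
MP_d778c7_co: module SU, restriction to a set of vertices.
-/

namespace Pool.Agent.EGR

open Finset SimpleGraph
open scoped Classical

theorem SU : Stmt_SU := by
  intro α G W a b h1 h2
  let e : Fin W.card ≃ W := W.equivFin.symm
  let f : Fin W.card ↪ α := ⟨fun i => (e i : α), fun i j hij => e.injective (Subtype.ext hij)⟩
  have hmem : ∀ i, f i ∈ W := fun i => (e i).2
  have key : ∀ (F : SimpleGraph (Fin W.card)) (K : SimpleGraph α) (n : ℕ),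
      (∀ i j, F.Adj i j → K.Adj (f i) (f j)) → (∀ T ⊆ W, ¬ K.IsNClique n T) → F.CliqueFree n := by
    intro F K n hFK hK T hT
    refine hK (T.map f) ?_ ?_
    · intro x hx
      obtain ⟨i, _, rfl⟩ := mem_map.mp hx
      exact hmem i
    · refine ⟨?_, by rw [card_map]; exact hT.card_eq⟩
      intro x hx y hy hxy
      obtain ⟨i, hi, rfl⟩ := mem_map.mp (mem_coe.mp hx)
      obtain ⟨j, hj, rfl⟩ := mem_map.mp (mem_coe.mp hy)
      exact hFK i j (hT.isClique hi hj (fun h => hxy (by rw [h])))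
  refine ⟨G.comap f, key _ G a (fun i j h => h) h1, key _ Gᶜ b ?_ h2⟩
  intro i j hij
  rw [SimpleGraph.compl_adj] at hij ⊢
  exact ⟨fun h => hij.1 (f.injective h), fun h => hij.2 h⟩

end Pool.Agent.EGR
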