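import Pool.Agent.EGR.Final
import Pool.Agent.EGR.JO
import Pool.Agent.EGR.BE
import Pool.Agent.EGR.SU
import Pool.Agent.EGR.RG
import Pool.Agent.EGR.NU4
import Pool.Agent.EGR.NU3
import Pool.Agent.EGR.CR
import Pool.Agent.EGR.GR
import Pool.Agent.EGR.DC
import Pool.Agent.EGR.PE
import Pool.Agent.EGR.EM
import Pool.Agent.EGR.CH
import Pool.Agent.EGR.AV
import Pool.Agent.EGR.ED
import Pool.Agent.EGR.CL
import Pool.Agent.EGR.CN
import Pool.Agent.EGR.FE

set_option autoImplicit false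

/-!
MP_d778c7_co: the two final theorems, without hypotheses.
-/

namespace Pool.Agent.EGR

open Finset SimpleGraph
open scoped Classical

theorem all_I : ∃ n₀ : ℕ, ∀ n ≥ n₀, ∀ (V : Type) [Fintype V] (H : SimpleGraph V), H.Connected →
      H.edgeSet.ncard = n.choose 2 →
      (∀ S : Finset V, (∀ v ∈ S, 2 ≤ (S.filter (fun w => H.Adj v w)).card) → S.card < n) →
      ∀ N : ℕ, (∀ G : SimpleGraph (Fin N), (⊤ : SimpleGraph (Fin n)).IsContained G ∨
        (⊤ : SimpleGraph (Fin n)).IsContained Gᶜ) →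
      ∀ G : SimpleGraph (Fin N), H.IsContained G ∨ H.IsContained Gᶜ :=
  finalI jo_proof SU rg_proof nu4_proof nu3_proof CR gr_proof dc_proof pe_proof
    em_proof ed_proof cl_proof cn_proof

theorem all_II : ∃ n₀ : ℕ, ∀ n ≥ n₀, ∀ (V : Type) [Fintype V] (H : SimpleGraph V),
      H.Connected → H.edgeSet.ncard = n.choose 2 → (Fintype.card V) ^ 4 ≤ n ^ 7 →
      (∀ S : Finset V, (∀ v ∈ S, 2 ≤ (S.filter (fun w => H.Adj v w)).card) → S.card ≤ n) →
      ∀ N : ℕ, (∀ G : SimpleGraph (Fin N), (⊤ : SimpleGraph (Fin n)).IsContained G ∨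
        (⊤ : SimpleGraph (Fin n)).IsContained Gᶜ) →
      ∀ G : SimpleGraph (Fin N), H.IsContained G ∨ H.IsContained Gᶜ :=
  finalII jo_proof SU rg_proof nu4_proof nu3_proof CR gr_proof dc_proof pe_proof
    em_proof ed_proof cl_proof cn_proof be_proof av_proof (fe_proof em_proof ch_proof)

end Pool.Agent.EGR
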