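import Mathlib

set_option autoImplicit false

/-!
MP_d778c7_co (Erdos and Graham 1973): connected graphs with `n choose 2` edges versus `K_n`.
Definitions.
-/

namespace Pool.Agent.EGR

open Finset SimpleGraph
open scoped Classical

/-- Some graph on `M` vertices has no clique of size `a` and no independent set of size `b`. -/
def Ex (a b M : ℕ) : Prop := ∃ G : SimpleGraph (Fin M), G.CliqueFree a ∧ Gᶜ.CliqueFree b

/-- Number of neighbours of `v` in the set `A`. -/
noncomputable def dg {α : Type} (G : SimpleGraph α) (A : Finset α) (v : α) : ℕ :=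
  (A.filter (fun w => G.Adj v w)).card

/-- `T` arises from `S` by adding vertices one at a time, each with at most one neighbour among
the vertices present. -/
inductive Peel {V : Type} (H : SimpleGraph V) (S : Finset V) : Finset V → Prop
  | base : Peel H S S
  | step (T : Finset V) (u : V) : Peel H S T → u ∉ T → dg H T u ≤ 1 → Peel H S (insert u T)

/-- `R` is the `D`-core of `G`: inside `R` all degrees are at least `D`, and every nonempty set
disjoint from `R` has an element with fewer than `D` neighbours in its union with `R`. -/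
structure Core {α : Type} (G : SimpleGraph α) (D : ℕ) (R : Finset α) : Prop where
  deg : ∀ r ∈ R, D ≤ dg G R r
  out : ∀ Z : Finset α, Disjoint Z R → Z.Nonempty → ∃ z ∈ Z, dg G (Z ∪ R) z < D

/-- No copy of the subgraph of `H` induced by `S` inside `R`. -/
def NoB {V α : Type} (H : SimpleGraph V) (S : Finset V) (G : SimpleGraph α) (R : Finset α) : Prop :=
  ∀ φ : V → α, Set.InjOn φ (S : Set V) → (∀ a ∈ S, ∀ b ∈ S, H.Adj a b → G.Adj (φ a) (φ b)) →
    (∀ a ∈ S, φ a ∈ R) → False

/-- Neighbours of `v` outside `S`. -/
noncomputable def out {V : Type} [Fintype V] (H : SimpleGraph V) (S : Finset V) (v : V) : Finset V :=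
  univ.filter (fun u => u ∉ S ∧ H.Adj v u)

/-- The first moment condition of the random construction. -/
def Hyp (r n N Q m : ℕ) : Prop :=
  (N : ℝ) ^ n * (2 ^ (r.choose 2 * m) * (1 - 1 / (2 * (Q : ℝ))) ^ (n.choose 2) +
    ((n : ℝ) ^ 2 * (N : ℝ) ^ (r - 2)) ^ m / ((m.factorial : ℝ) * (Q : ℝ) ^ (r.choose 2 * m))) < 1

end Pool.Agent.EGR
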