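import Pool.Agent.EGR.Main

set_option autoImplicit false

/-!
MP_d778c7_co: parameters and the two final theorems (from the module statements).
-/

namespace Pool.Agent.EGR

open Finset SimpleGraph
open scoped Classical

/-- The sixteenth root. -/
theorem root16 (s₁ n : ℕ) (h : s₁ ^ 16 ≤ n) : ∃ s, s₁ ≤ s ∧ s ^ 16 ≤ n ∧ n < (s + 1) ^ 16 := by
  have hex : ∃ t, n < (t + 1) ^ 16 :=
    ⟨n, (Nat.lt_succ_self n).trans_le (Nat.le_self_pow (by norm_num) _)⟩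
  refine ⟨Nat.find hex, ?_, ?_, Nat.find_spec hex⟩
  · by_contra hh
    rw [not_le] at hh
    have h1 := Nat.find_spec hex
    have h2 : (Nat.find hex + 1) ^ 16 ≤ s₁ ^ 16 := Nat.pow_le_pow_left hh 16
    omega
  · rcases Nat.eq_zero_or_pos (Nat.find hex) with h0 | h0
    · rw [h0]
      simp
    · have h1 := Nat.find_min hex (Nat.sub_lt h0 one_pos)
      have e : Nat.find hex - 1 + 1 = Nat.find hex := by omega
      rw [not_lt, e] at h1
      exact h1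

/-- `(s+1)^k ≤ 2 s^k` for `s` large. -/
theorem pow_two_mul (k s : ℕ) (h : 2 * k ≤ s + 1) (hs : 1 ≤ s) : (s + 1) ^ k ≤ 2 * s ^ k := by
  have hs1 : (0 : ℝ) < (s : ℝ) + 1 := by positivity
  have h1 := one_add_mul_le_pow (a := -(1 / ((s : ℝ) + 1))) (by
    have : 1 / ((s : ℝ) + 1) ≤ 1 := by
      rw [div_le_one hs1]
      linarith [(Nat.cast_nonneg s : (0 : ℝ) ≤ s)]
    linarith) k
  have h2 : (1 : ℝ) / 2 ≤ 1 + (k : ℝ) * -(1 / ((s : ℝ) + 1)) := by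
    have h3 : (2 : ℝ) * k ≤ s + 1 := by exact_mod_cast h
    have h4 : (k : ℝ) * (1 / ((s : ℝ) + 1)) ≤ 1 / 2 := by
      rw [mul_one_div, div_le_div_iff₀ hs1 (by norm_num)]
      linarith
    linarith
  have h5 : (1 : ℝ) + -(1 / ((s : ℝ) + 1)) = s / (s + 1) := by
    field_simp
    ring
  rw [h5, div_pow] at h1
  have h6 : (1 : ℝ) / 2 ≤ (s : ℝ) ^ k / ((s : ℝ) + 1) ^ k := h2.trans h1
  rw [div_le_div_iff₀ (by norm_num) (by positivity)] at h6
  have h7 : (((s + 1) ^ k : ℕ) : ℝ) ≤ ((2 * s ^ k : ℕ) : ℝ) := by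
    push_cast
    linarith
  exact_mod_cast h7

theorem A4 (hRG : Stmt_RG) (hNU : Stmt_NU4) : ∃ n₀ : ℕ, ∀ n ≥ n₀, Ex n 4 (100 * n ^ 2) := by
  obtain ⟨s₀, hs₀⟩ := hNU
  refine ⟨(max s₀ 200) ^ 16, ?_⟩
  intro n hn
  obtain ⟨s, h1, h2, h3⟩ := root16 _ _ hn
  have hs0 : s₀ ≤ s := (le_max_left _ _).trans h1
  have hs2 : 200 ≤ s := (le_max_right _ _).trans h1
  have hE := hRG 4 (s ^ 16) (s ^ 33) (s ^ 15) (s ^ 17 / 96) (by norm_num)
    (Nat.one_le_pow _ _ (by omega)) (hs₀ s hs0)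
  refine ex_mono h2 le_rfl ?_ hE
  have h4 := pow_two_mul 32 s (by omega) (by omega)
  calc 100 * n ^ 2 ≤ 100 * ((s + 1) ^ 16) ^ 2 :=
        Nat.mul_le_mul_left _ (Nat.pow_le_pow_left h3.le 2)
    _ = 100 * (s + 1) ^ 32 := by rw [← pow_mul]
    _ ≤ 100 * (2 * s ^ 32) := Nat.mul_le_mul_left _ h4
    _ = 200 * s ^ 32 := by ring
    _ ≤ s * s ^ 32 := Nat.mul_le_mul_right _ hs2
    _ = s ^ 33 := by ring

theorem A3 (hRG : Stmt_RG) (hNU : Stmt_NU3) : ∃ n₀ : ℕ, ∀ n ≥ n₀, ∀ h : ℕ, h ^ 4 ≤ n ^ 7 →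
    Ex n 3 (100 * h) := by
  obtain ⟨s₀, hs₀⟩ := hNU
  refine ⟨(max s₀ 200) ^ 16, ?_⟩
  intro n hn h hh
  obtain ⟨s, h1, h2, h3⟩ := root16 _ _ hn
  have hs0 : s₀ ≤ s := (le_max_left _ _).trans h1
  have hs2 : 200 ≤ s := (le_max_right _ _).trans h1
  have hE := hRG 3 (s ^ 16) (s ^ 29) (s ^ 15) (s ^ 17 / 96) (by norm_num)
    (Nat.one_le_pow _ _ (by omega)) (hs₀ s hs0)
  refine ex_mono h2 le_rfl ?_ hE
  have h5 : h ≤ (s + 1) ^ 28 := by
    by_contra hc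
    rw [not_le] at hc
    have h6 : ((s + 1) ^ 28) ^ 4 < h ^ 4 := Nat.pow_lt_pow_left hc (by norm_num)
    have h7 : n ^ 7 ≤ ((s + 1) ^ 16) ^ 7 := Nat.pow_le_pow_left h3.le 7
    have h8 : ((s + 1) ^ 28) ^ 4 = ((s + 1) ^ 16) ^ 7 := by rw [← pow_mul, ← pow_mul]
    omega
  have h4 := pow_two_mul 28 s (by omega) (by omega)
  calc 100 * h ≤ 100 * (s + 1) ^ 28 := Nat.mul_le_mul_left _ h5
    _ ≤ 100 * (2 * s ^ 28) := Nat.mul_le_mul_left _ h4
    _ = 200 * s ^ 28 := by ring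
    _ ≤ s * s ^ 28 := Nat.mul_le_mul_right _ hs2
    _ = s ^ 29 := by ring

theorem not_ex_of_ramsey {n N : ℕ}
    (hR : ∀ H : SimpleGraph (Fin N), (⊤ : SimpleGraph (Fin n)).IsContained H ∨
      (⊤ : SimpleGraph (Fin n)).IsContained Hᶜ) : ∀ M, N ≤ M → ¬ Ex n n M := by
  intro M hM hE
  obtain ⟨G, h1, h2⟩ := ex_mono le_rfl le_rfl hM hE
  rcases hR G with h | h
  · exact (not_cliqueFree_iff_top_isContained n).2 h h1
  · exact (not_cliqueFree_iff_top_isContained n).2 h h2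

theorem noB_of_not {V : Type} [Fintype V] (hEM : Stmt_EM) {H : SimpleGraph V} {S : Finset V}
    (hP : Peel H S univ) (hS : S.Nonempty) {α : Type} {G : SimpleGraph α} {R : Finset α}
    (hR : Core G (Fintype.card V - 1) R) (hG : ¬ H.IsContained G) : NoB H S G R := by
  intro φ h1 h2 h3
  obtain ⟨a, ha⟩ := hS
  exact hG (hEM V H S hP α G R ⟨φ a, h3 a ha⟩ hR.deg φ h1 h2 (fun b hb _ => h3 b hb))

/-- The situation from a colouring without a monochromatic copy. -/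
theorem sit_of {V : Type} [Fintype V] (hEM : Stmt_EM) (hCR : Stmt_CR) (hCL : Stmt_CL)
    (hGR : Stmt_GR) (hDC : Stmt_DC) (hJO : Stmt_JO) {H : SimpleGraph V} {S : Finset V} {f n N : ℕ}
    (hn : 12 ≤ n) (hf : 1 ≤ f) (hfn : f ≤ n) (hS : S.card = f) (hP : Peel H S univ)
    (hD : 2 * (Fintype.card V - 1) ≤ n ^ 2) (hN : ∀ M, N ≤ M → ¬ Ex n n M)
    (hA4 : Ex n 4 (100 * n ^ 2)) (G : SimpleGraph (Fin N)) (hG : ¬ H.IsContained G)
    (hG' : ¬ H.IsContained Gᶜ) :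
    ∃ R B : Finset (Fin N), Sit V H S f (Fintype.card V - 1) (Fin N) G R B := by
  have hSn : S.Nonempty := card_pos.1 (by rw [hS]; exact hf)
  obtain ⟨R, hR⟩ := hCR (Fin N) G (Fintype.card V - 1)
  obtain ⟨B, hB⟩ := hCR (Fin N) Gᶜ (Fintype.card V - 1)
  have nR := noB_of_not hEM hP hSn hR hG
  have nB := noB_of_not hEM hP hSn hB hG'
  refine ⟨R, B, ⟨hS, hf, hR, hB, nR, nB, ?_⟩⟩
  obtain ⟨D, hDD⟩ : ∃ D, D = Fintype.card V - 1 := ⟨_, rfl⟩
  rw [← hDD] at hR hB hD ⊢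
  have h1 := inter_large hCL hGR hDC hS hf hR hB nR nB
  rw [Fintype.card_fin] at h1
  obtain ⟨k, hk⟩ : ∃ k, k = (n - 1) / 3 := ⟨_, rfl⟩
  have hc := ex_copies hJO (b := 3) hA4 k
  have h2 : Ex n n (k * (100 * n ^ 2)) := ex_mono le_rfl (by omega) le_rfl hc
  have h3 : k * (100 * n ^ 2) < N := by
    by_contra hh
    exact hN _ (not_lt.1 hh) h2
  have h4 : (n + 3) * n ^ 2 ≤ k * (100 * n ^ 2) := by
    calc (n + 3) * n ^ 2 ≤ (k * 100) * n ^ 2 := Nat.mul_le_mul_right _ (by omega)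
      _ = k * (100 * n ^ 2) := by ring
  have h5 : 2 * (f * D) ≤ n * n ^ 2 := by
    calc 2 * (f * D) = f * (2 * D) := by ring
      _ ≤ n * n ^ 2 := Nat.mul_le_mul hfn hD
  have h6 : (n + 3) * n ^ 2 = n * n ^ 2 + 3 * n ^ 2 := by ring
  omega

theorem card_facts {V : Type} [Fintype V] {H : SimpleGraph V} {n : ℕ} (hn : 2 ≤ n)
    (hc : H.Connected) (he : H.edgeSet.ncard = n.choose 2) :
    n ≤ Fintype.card V ∧ 2 * (Fintype.card V - 1) ≤ n ^ 2 := by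
  constructor
  · by_contra hh
    rw [not_le] at hh
    have h1 : H.edgeSet.ncard ≤ (Fintype.card V).choose 2 := by
      have := H.card_edgeFinset_le_card_choose_two
      rwa [← Set.ncard_coe_finset, coe_edgeFinset] at this
    have h2 : (Fintype.card V).choose 2 ≤ (n - 1).choose 2 := Nat.choose_le_choose 2 (by omega)
    have h3 : n.choose 2 = (n - 1).choose 1 + (n - 1).choose 2 := by
      obtain ⟨m, rfl⟩ := Nat.exists_eq_add_of_le hn
      have : 2 + m - 1 = m + 1 := by omega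
      rw [this, show 2 + m = (m + 1) + 1 by ring, Nat.choose_succ_succ' (m + 1) 1]
    rw [Nat.choose_one_right] at h3
    omega
  · have h1 := hc.card_vert_le_card_edgeSet_add_one
    rw [Nat.card_eq_fintype_card, Nat.card_coe_set_eq, he] at h1
    have h2 := Nat.choose_two_right n
    have h3 : 2 * (n * (n - 1) / 2) ≤ n * (n - 1) := Nat.mul_div_le _ _
    have h4 : n * (n - 1) ≤ n ^ 2 := by
      rw [pow_two]
      exact Nat.mul_le_mul_left n (Nat.sub_le n 1)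
    omega

theorem finalI (hJO : Stmt_JO) (hSU : Stmt_SU) (hRG : Stmt_RG) (hNU4 : Stmt_NU4)
    (hNU3 : Stmt_NU3) (hCR : Stmt_CR) (hGR : Stmt_GR) (hDC : Stmt_DC) (hPE : Stmt_PE)
    (hEM : Stmt_EM) (hED : Stmt_ED) (hCL : Stmt_CL) (hCN : Stmt_CN) :
    ∃ n₀ : ℕ, ∀ n ≥ n₀, ∀ (V : Type) [Fintype V] (H : SimpleGraph V), H.Connected →
      H.edgeSet.ncard = n.choose 2 →
      (∀ S : Finset V, (∀ v ∈ S, 2 ≤ (S.filter (fun w => H.Adj v w)).card) → S.card < n) →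
      ∀ N : ℕ, (∀ G : SimpleGraph (Fin N), (⊤ : SimpleGraph (Fin n)).IsContained G ∨
        (⊤ : SimpleGraph (Fin n)).IsContained Gᶜ) →
      ∀ G : SimpleGraph (Fin N), H.IsContained G ∨ H.IsContained Gᶜ := by
  obtain ⟨n4, h4⟩ := A4 hRG hNU4
  obtain ⟨n3, h3⟩ := A3 hRG hNU3
  refine ⟨max (max n4 n3) 12, ?_⟩
  intro n hn V _ H hc he hcore N hR G
  have hn4 : n4 ≤ n := ((le_max_left _ _).trans (le_max_left _ _)).trans hn
  have hn3 : n3 ≤ n := ((le_max_right _ _).trans (le_max_left _ _)).trans hn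
  have hn12 : 12 ≤ n := (le_max_right _ _).trans hn
  by_contra hcon
  rw [not_or] at hcon
  obtain ⟨hG, hG'⟩ := hcon
  obtain ⟨hV, hD⟩ := card_facts (by omega) hc he
  have hN := not_ex_of_ramsey hR
  obtain ⟨S, hS, hP⟩ := hPE V H (n - 1) (fun S hS' => by
    have := hcore S hS'
    omega) (by omega)
  obtain ⟨R, B, hSit⟩ := sit_of hEM hCR hCL hGR hDC hJO hn12 (by omega) (by omega) hS hP hD hN
    (h4 n hn4) G hG hG'
  refine caseI hCL hCN hSU hGR hJO hn12 hSit hD (by rw [Fintype.card_fin]; exact hN) (h4 n hn4)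
    ?_ ?_
  · have h5 := h3 n hn3 (2 * n + 1) (by
      calc (2 * n + 1) ^ 4 ≤ (3 * n) ^ 4 := Nat.pow_le_pow_left (by omega) 4
        _ = 81 * n ^ 4 := by ring
        _ ≤ n ^ 3 * n ^ 4 := Nat.mul_le_mul_right _ (by
            calc 81 ≤ 12 ^ 3 := by norm_num
              _ ≤ n ^ 3 := Nat.pow_le_pow_left hn12 3)
        _ = n ^ 7 := by ring)
    exact ex_mono le_rfl le_rfl (by omega) h5
  · intro hcl
    have h5 := hED V H hc S (card_pos.1 (by omega)) hcl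
    rw [hS, he] at h5
    have h6 : n.choose 2 = (n - 1) + (n - 1).choose 2 := by
      obtain ⟨m, rfl⟩ := Nat.exists_eq_add_of_le hn12
      have : 12 + m - 1 = m + 11 := by omega
      rw [this, show 12 + m = (m + 11) + 1 by ring, Nat.choose_succ_succ' (m + 11) 1,
        Nat.choose_one_right]
    omega

theorem finalII (hJO : Stmt_JO) (hSU : Stmt_SU) (hRG : Stmt_RG) (hNU4 : Stmt_NU4)
    (hNU3 : Stmt_NU3) (hCR : Stmt_CR) (hGR : Stmt_GR) (hDC : Stmt_DC) (hPE : Stmt_PE)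
    (hEM : Stmt_EM) (hED : Stmt_ED) (hCL : Stmt_CL) (hCN : Stmt_CN) (hBE : Stmt_BE)
    (hAV : Stmt_AV) (hFE : Stmt_FE) :
    ∃ n₀ : ℕ, ∀ n ≥ n₀, ∀ (V : Type) [Fintype V] (H : SimpleGraph V), H.Connected →
      H.edgeSet.ncard = n.choose 2 → (Fintype.card V) ^ 4 ≤ n ^ 7 →
      (∀ S : Finset V, (∀ v ∈ S, 2 ≤ (S.filter (fun w => H.Adj v w)).card) → S.card ≤ n) →
      ∀ N : ℕ, (∀ G : SimpleGraph (Fin N), (⊤ : SimpleGraph (Fin n)).IsContained G ∨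
        (⊤ : SimpleGraph (Fin n)).IsContained Gᶜ) →
      ∀ G : SimpleGraph (Fin N), H.IsContained G ∨ H.IsContained Gᶜ := by
  obtain ⟨n4, h4⟩ := A4 hRG hNU4
  obtain ⟨n3, h3⟩ := A3 hRG hNU3
  refine ⟨max (max n4 n3) 12, ?_⟩
  intro n hn V _ H hc he hV4 hcore N hR G
  have hn4 : n4 ≤ n := ((le_max_left _ _).trans (le_max_left _ _)).trans hn
  have hn3 : n3 ≤ n := ((le_max_right _ _).trans (le_max_left _ _)).trans hn
  have hn12 : 12 ≤ n := (le_max_right _ _).trans hn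
  obtain ⟨hV, hD⟩ := card_facts (by omega) hc he
  obtain ⟨S, hS, hP⟩ := hPE V H n (fun S hS' => hcore S hS') hV
  have hSn : S.Nonempty := card_pos.1 (by omega)
  by_cases hcl : ∀ a ∈ S, ∀ b ∈ S, a ≠ b → H.Adj a b
  · have h5 := hED V H hc S hSn hcl
    rw [hS, he] at h5
    have h6 : Fintype.card V = n := by omega
    have h7 : H.IsContained (⊤ : SimpleGraph (Fin n)) :=
      isContained_top_iff.2 ⟨(Fintype.equivFinOfCardEq h6).toEmbedding⟩
    rcases hR G with h | h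
    · exact Or.inl (h7.trans h)
    · exact Or.inr (h7.trans h)
  by_contra hcon
  rw [not_or] at hcon
  obtain ⟨hG, hG'⟩ := hcon
  have hN := not_ex_of_ramsey hR
  obtain ⟨R, B, hSit⟩ := sit_of hEM hCR hCL hGR hDC hJO hn12 (by omega) le_rfl hS hP hD hN
    (h4 n hn4) G hG hG'
  refine caseII hCL hCN hSU hGR hJO hBE hAV hFE hn12 hSit hP hV4
    (by rw [Fintype.card_fin]; exact hN) ?_ hcl hG hG'
  exact ex_mono le_rfl le_rfl (by omega) (h3 n hn3 (Fintype.card V) hV4)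

end Pool.Agent.EGR
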