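import Pool.Agent.EGR.Stmts

set_option autoImplicit false

/-!
MP_d778c7_co: assembly (from the module statements).
-/

namespace Pool.Agent.EGR

open Finset SimpleGraph
open scoped Classical

theorem ex_symm {a b M : ℕ} (h : Ex a b M) : Ex b a M := by
  obtain ⟨G, h1, h2⟩ := h
  exact ⟨Gᶜ, h2, by rwa [compl_compl]⟩

theorem ex_mono {a a' b b' M M' : ℕ} (ha : a ≤ a') (hb : b ≤ b') (hM : M' ≤ M) (h : Ex a b M) :
    Ex a' b' M' := by
  obtain ⟨G, h1, h2⟩ := h
  refine ⟨G.comap (Fin.castLEEmb hM), ?_, ?_⟩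
  · exact (h1.comap (SimpleGraph.Embedding.comap (Fin.castLEEmb hM) G).isContained).mono ha
  · have e : (G.comap (Fin.castLEEmb hM))ᶜ ≤ Gᶜ.comap (Fin.castLEEmb hM) := by
      intro x y hxy
      rw [compl_adj] at hxy
      simp only [comap_adj, compl_adj, ne_eq, EmbeddingLike.apply_eq_iff_eq]
      exact hxy
    exact ((h2.comap (SimpleGraph.Embedding.comap (Fin.castLEEmb hM) Gᶜ).isContained).mono hb).anti e

theorem ex_pos {a b M : ℕ} (h : Ex a b M) : 1 ≤ a := by
  obtain ⟨G, h1, _⟩ := h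
  rcases Nat.eq_zero_or_pos a with h0 | h0
  · subst h0
    exact absurd (isNClique_zero.2 rfl) (h1 ∅)
  · exact h0

theorem ex_kn {a : ℕ} (ha : 1 ≤ a) : Ex a 2 (a - 1) := by
  refine ⟨⊤, ?_, ?_⟩
  · intro s hs
    have := card_le_univ s
    rw [hs.2, Fintype.card_fin] at this
    omega
  · rw [compl_top]
    exact cliqueFree_bot le_rfl

theorem ex_copies (hJO : Stmt_JO) {a b M : ℕ} (h : Ex a (b + 1) M) (k : ℕ) :
    Ex a (k * b + 1) (k * M) := by
  induction k with
  | zero =>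
      have ha := ex_pos h
      refine ⟨⊥, ?_, ?_⟩
      · intro s hs
        have := card_le_univ s
        rw [hs.2, Fintype.card_fin] at this
        omega
      · intro s hs
        have := card_le_univ s
        rw [hs.2, Fintype.card_fin] at this
        omega
  | succ k ih =>
      have := hJO _ _ _ _ _ ih h
      have e1 : k * b + 1 + (b + 1) - 1 = (k + 1) * b + 1 := by
        rw [Nat.add_mul]; omega
      have e2 : k * M + M = (k + 1) * M := by ring
      rw [e1, e2] at this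
      exact this

/-- Sub-cliques. -/
theorem sub_clique {α : Type} {G : SimpleGraph α} {a b : ℕ} {T : Finset α} (hT : G.IsNClique a T)
    (hab : b ≤ a) : ∃ T' ⊆ T, G.IsNClique b T' := by
  obtain ⟨T', h1, h2⟩ := exists_subset_card_eq (s := T) (n := b) (by rw [hT.2]; exact hab)
  exact ⟨T', h1, ⟨hT.1.subset (by exact_mod_cast h1), h2⟩⟩

theorem dg_set {α : Type} (G : SimpleGraph α) (A : Finset α) (v : α) :
    ∃ P : Finset α, (∀ w ∈ A, G.Adj v w → w ∈ P) ∧ P.card = dg G A v :=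
  ⟨A.filter (fun w => G.Adj v w), fun _ hw h => mem_filter.2 ⟨hw, h⟩, rfl⟩

theorem greedy_set (hGR : Stmt_GR) {α : Type} [Fintype α] (G : SimpleGraph α) (D : ℕ)
    (R Z : Finset α) (hR : Core G D R) (hZ : Disjoint Z R) :
    ∃ Q ⊆ Z, (∀ x ∈ Q, ∀ y ∈ Q, ¬ G.Adj x y) ∧ ∃ P : Finset α, (∀ w ∈ Z, w ∈ P) ∧
      (∀ w ∈ R, (∃ x ∈ Q, G.Adj x w) → w ∈ P) ∧ P.card ≤ Q.card * D := by
  obtain ⟨Q, h1, h2, h3⟩ := hGR α G D R hR Z hZ
  exact ⟨Q, h1, h2, Z ∪ R.filter (fun y => ∃ x ∈ Q, G.Adj x y),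
    fun w hw => mem_union_left _ hw,
    fun w hw h => mem_union_right _ (mem_filter.2 ⟨hw, h⟩), h3⟩

/-- The situation: a colouring of the edges on `α` with the two cores and no copy of the base. -/
structure Sit (V : Type) [Fintype V] (H : SimpleGraph V) (S : Finset V) (f D : ℕ) (α : Type)
    [Fintype α] (G : SimpleGraph α) (R B : Finset α) : Prop where
  hS : S.card = f
  hf : 1 ≤ f
  cR : Core G D R
  cB : Core Gᶜ D B
  nR : NoB H S G R
  nB : NoB H S Gᶜ B
  big : 2 * D ≤ (R ∩ B).card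

variable {V : Type} [Fintype V] {H : SimpleGraph V} {S : Finset V} {f D : ℕ} {α : Type}
  [Fintype α] {G : SimpleGraph α} {R B : Finset α}

theorem Sit.symm (h : Sit V H S f D α G R B) : Sit V H S f D α Gᶜ B R :=
  ⟨h.hS, h.hf, h.cB, by rw [compl_compl]; exact h.cR, h.nB, by rw [compl_compl]; exact h.nR,
    by rw [inter_comm]; exact h.big⟩

/-- Every vertex lies in one of the cores. -/
theorem Sit.cover (h : Sit V H S f D α G R B) (x : α) : x ∈ R ∨ x ∈ B := by
  by_contra hx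
  rw [not_or] at hx
  obtain ⟨h1, h2⟩ := hx
  obtain ⟨z, hz, hz1⟩ := h.cR.out {x} (by simpa using h1) (singleton_nonempty x)
  obtain ⟨z', hz', hz2⟩ := h.cB.out {x} (by simpa using h2) (singleton_nonempty x)
  rw [mem_singleton] at hz hz'
  subst hz
  subst hz'
  obtain ⟨P, hP1, hP2⟩ := dg_set G ({z'} ∪ R) z'
  obtain ⟨P', hP1', hP2'⟩ := dg_set Gᶜ ({z'} ∪ B) z'
  have hsub : R ∩ B ⊆ P ∪ P' := by
    intro w hw
    rw [mem_inter] at hw
    have hne : z' ≠ w := fun e => h1 (e ▸ hw.1)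
    by_cases hadj : G.Adj z' w
    · exact mem_union_left _ (hP1 w (mem_union_right _ hw.1) hadj)
    · exact mem_union_right _ (hP1' w (mem_union_right _ hw.2)
        ((compl_adj G z' w).2 ⟨hne, hadj⟩))
  have hc := card_le_card hsub
  have hc2 := card_union_le P P'
  have hbig := h.big
  omega

/-- No clique of size `f` in the core. -/
theorem Sit.noR (hCL : Stmt_CL) (h : Sit V H S f D α G R B) : ∀ T ⊆ R, ¬ G.IsNClique f T := by
  intro T hT
  have := hCL V α H S G R h.nR (card_pos.1 (by rw [h.hS]; exact h.hf)) T hT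
  rwa [h.hS] at this

theorem Sit.noR' (hCL : Stmt_CL) (h : Sit V H S f D α G R B) {a : ℕ} (ha : f ≤ a) :
    ∀ T ⊆ R, ¬ G.IsNClique a T := by
  intro T hT hc
  obtain ⟨T', h1, h2⟩ := sub_clique hc ha
  exact h.noR hCL T' (h1.trans hT) h2

/-- The greedy step, for both colours. -/
theorem Sit.greedy (hCL : Stmt_CL) (hGR : Stmt_GR) (hSU : Stmt_SU)
    (h : Sit V H S f D α G R B) :
    ∃ q q' M : ℕ, q < f ∧ q' < f ∧ Ex (f - q') (f - q) M ∧
      Fintype.card α ≤ M + q * D + q' * D ∧ (Rᶜ).card ≤ q * D ∧ (Bᶜ).card ≤ q' * D := by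
  obtain ⟨Q, hQ1, hQ2, P, hP0, hP1, hP2⟩ := greedy_set hGR G D R Rᶜ h.cR disjoint_compl_left
  obtain ⟨Q', hQ1', hQ2', P', hP0', hP1', hP2'⟩ :=
    greedy_set hGR Gᶜ D B Bᶜ h.cB disjoint_compl_left
  have hQB : Q ⊆ B := by
    intro x hx
    have := mem_compl.1 (hQ1 hx)
    exact (h.cover x).resolve_left this
  have hQR : Q' ⊆ R := by
    intro x hx
    have := mem_compl.1 (hQ1' hx)
    exact (h.cover x).resolve_right this
  have hQcl : Gᶜ.IsClique (Q : Set α) := by
    intro x hx y hy hxy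
    exact (compl_adj G x y).2 ⟨hxy, hQ2 x hx y hy⟩
  have hQcl' : G.IsClique (Q' : Set α) := by
    intro x hx y hy hxy
    have := hQ2' x hx y hy
    rw [compl_adj, not_and_not_right] at this
    exact this hxy
  have hq : Q.card < f := by
    by_contra hh
    exact h.symm.noR' hCL (not_lt.1 hh) Q hQB ⟨hQcl, rfl⟩
  have hq' : Q'.card < f := by
    by_contra hh
    exact h.noR' hCL (not_lt.1 hh) Q' hQR ⟨hQcl', rfl⟩
  set W : Finset α := (R ∩ B).filter (fun w => (∀ x ∈ Q, ¬ G.Adj x w) ∧ (∀ y ∈ Q', ¬ Gᶜ.Adj y w))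
    with hW
  have hWR : ∀ w ∈ W, w ∈ R := fun w hw => (mem_inter.1 (mem_filter.1 hw).1).1
  have hWB : ∀ w ∈ W, w ∈ B := fun w hw => (mem_inter.1 (mem_filter.1 hw).1).2
  refine ⟨Q.card, Q'.card, W.card, hq, hq', ?_, ?_, ?_, ?_⟩
  · refine hSU α G W _ _ ?_ ?_
    · intro T hT hc
      have hdis : Disjoint T Q' := by
        rw [Finset.disjoint_left]
        intro t ht ht'
        have := mem_compl.1 (hQ1' ht')
        exact this (hWB t (hT ht))
      refine h.noR hCL (T ∪ Q') (union_subset (fun t ht => hWR t (hT ht)) hQR) ⟨?_, ?_⟩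
      · intro x hx y hy hxy
        rw [mem_coe, mem_union] at hx hy
        rcases hx with hx | hx <;> rcases hy with hy | hy
        · exact hc.1 hx hy hxy
        · have := (mem_filter.1 (hT hx)).2.2 y hy
          rw [compl_adj, not_and_not_right] at this
          exact (this hxy.symm).symm
        · have := (mem_filter.1 (hT hy)).2.2 x hx
          rw [compl_adj, not_and_not_right] at this
          exact this hxy
        · exact hQcl' hx hy hxy
      · rw [card_union_of_disjoint hdis, hc.2]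
        omega
    · intro T hT hc
      have hdis : Disjoint T Q := by
        rw [Finset.disjoint_left]
        intro t ht ht'
        have := mem_compl.1 (hQ1 ht')
        exact this (hWR t (hT ht))
      refine h.symm.noR hCL (T ∪ Q) (union_subset (fun t ht => hWB t (hT ht)) hQB) ⟨?_, ?_⟩
      · intro x hx y hy hxy
        rw [mem_coe, mem_union] at hx hy
        rcases hx with hx | hx <;> rcases hy with hy | hy
        · exact hc.1 hx hy hxy
        · have := (mem_filter.1 (hT hx)).2.1 y hy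
          exact (compl_adj G x y).2 ⟨hxy, fun e => this e.symm⟩
        · have := (mem_filter.1 (hT hy)).2.1 x hx
          exact (compl_adj G x y).2 ⟨hxy, this⟩
        · exact hQcl hx hy hxy
      · rw [card_union_of_disjoint hdis, hc.2]
        omega
  · have hsub : (univ : Finset α) ⊆ W ∪ P ∪ P' := by
      intro v _
      by_cases h1 : v ∈ R
      · by_cases h2 : v ∈ B
        · by_cases h3 : ∃ x ∈ Q, G.Adj x v
          · exact mem_union_left _ (mem_union_right _ (hP1 v h1 h3))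
          · by_cases h4 : ∃ x ∈ Q', Gᶜ.Adj x v
            · exact mem_union_right _ (hP1' v h2 h4)
            · push Not at h3 h4
              exact mem_union_left _ (mem_union_left _
                (mem_filter.2 ⟨mem_inter.2 ⟨h1, h2⟩, h3, h4⟩))
        · exact mem_union_right _ (hP0' v (mem_compl.2 h2))
      · exact mem_union_left _ (mem_union_right _ (hP0 v (mem_compl.2 h1)))
    have hc := card_le_card hsub
    rw [card_univ] at hc
    have hc2 := card_union_le (W ∪ P) P'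
    have hc3 := card_union_le W P
    omega
  · exact (card_le_card hP0).trans hP2
  · exact (card_le_card hP0').trans hP2'


/-- Two vertices outside the red core. -/
theorem Sit.two (hCL : Stmt_CL) (hCN : Stmt_CN) (hSU : Stmt_SU)
    (h : Sit V H S f D α G R B) {a b : V} (ha : a ∈ S) (hb : b ∈ S) (hab : a ≠ b)
    (hnab : ¬ H.Adj a b) (h2 : 2 ≤ (Rᶜ).card) :
    ∃ M : ℕ, Ex f (f - 2) M ∧ Fintype.card α ≤ M + (Rᶜ).card + (Bᶜ).card + 2 * D := by
  obtain ⟨x, hx, y, hy, hxy⟩ := one_lt_card.1 (show 1 < (Rᶜ).card by omega)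
  have hx1 := mem_compl.1 hx
  have hy1 := mem_compl.1 hy
  have hxB : x ∈ B := (h.cover x).resolve_left hx1
  have hyB : y ∈ B := (h.cover y).resolve_left hy1
  obtain ⟨z, hz, hz1⟩ := h.cR.out {x} (by simpa using hx1) (singleton_nonempty x)
  obtain ⟨z', hz', hz1'⟩ := h.cR.out {y} (by simpa using hy1) (singleton_nonempty y)
  rw [mem_singleton] at hz hz'
  rw [hz] at hz1
  rw [hz'] at hz1'
  obtain ⟨P, hP1, hP2⟩ := dg_set G ({x} ∪ R) x
  obtain ⟨P', hP1', hP2'⟩ := dg_set G ({y} ∪ R) y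
  set W : Finset α := (R ∩ B).filter (fun w => ¬ G.Adj x w ∧ ¬ G.Adj y w) with hW
  have hWR : ∀ w ∈ W, w ∈ R := fun w hw => (mem_inter.1 (mem_filter.1 hw).1).1
  have hWB : ∀ w ∈ W, w ∈ B := fun w hw => (mem_inter.1 (mem_filter.1 hw).1).2
  refine ⟨W.card, hSU α G W _ _ ?_ ?_, ?_⟩
  · intro T hT
    exact h.noR hCL T (fun t ht => hWR t (hT ht))
  · intro T hT
    have := hCN V α H S Gᶜ B a b h.nB ha hb hab hnab x hxB y hyB hxy T
      (fun t ht => hWB t (hT ht)) ?_
    · rwa [h.hS] at this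
    · intro t ht
      have h1 := (mem_filter.1 (hT ht)).2
      have h2 := hWR t (hT ht)
      refine ⟨(compl_adj G x t).2 ⟨?_, h1.1⟩, (compl_adj G y t).2 ⟨?_, h1.2⟩⟩
      · intro e
        exact hx1 (e ▸ h2)
      · intro e
        exact hy1 (e ▸ h2)
  · have hsub : (univ : Finset α) ⊆ W ∪ Rᶜ ∪ Bᶜ ∪ P ∪ P' := by
      intro v _
      by_cases h1 : v ∈ R
      · by_cases h2 : v ∈ B
        · by_cases h3 : G.Adj x v
          · exact mem_union_left _ (mem_union_right _ (hP1 v (mem_union_right _ h1) h3))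
          · by_cases h4 : G.Adj y v
            · exact mem_union_right _ (hP1' v (mem_union_right _ h1) h4)
            · exact mem_union_left _ (mem_union_left _ (mem_union_left _ (mem_union_left _
                (mem_filter.2 ⟨mem_inter.2 ⟨h1, h2⟩, h3, h4⟩))))
        · exact mem_union_left _ (mem_union_left _ (mem_union_right _ (mem_compl.2 h2)))
      · exact mem_union_left _ (mem_union_left _ (mem_union_left _
          (mem_union_right _ (mem_compl.2 h1))))
    have hc := card_le_card hsub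
    rw [card_univ] at hc
    have c1 := card_union_le (W ∪ Rᶜ ∪ Bᶜ ∪ P) P'
    have c2 := card_union_le (W ∪ Rᶜ ∪ Bᶜ) P
    have c3 := card_union_le (W ∪ Rᶜ) Bᶜ
    have c4 := card_union_le W Rᶜ
    omega

/-- The common part of the cores. -/
theorem Sit.inter (hCL : Stmt_CL) (hSU : Stmt_SU) (h : Sit V H S f D α G R B) :
    ∃ M : ℕ, Ex f f M ∧ Fintype.card α ≤ M + (Rᶜ).card + (Bᶜ).card := by
  refine ⟨(R ∩ B).card, hSU α G _ _ _ ?_ ?_, ?_⟩
  · intro T hT
    exact h.noR hCL T (hT.trans inter_subset_left)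
  · intro T hT
    exact h.symm.noR hCL T (hT.trans inter_subset_right)
  · have hsub : (univ : Finset α) ⊆ (R ∩ B) ∪ Rᶜ ∪ Bᶜ := by
      intro v _
      by_cases h1 : v ∈ R
      · by_cases h2 : v ∈ B
        · exact mem_union_left _ (mem_union_left _ (mem_inter.2 ⟨h1, h2⟩))
        · exact mem_union_right _ (mem_compl.2 h2)
      · exact mem_union_left _ (mem_union_right _ (mem_compl.2 h1))
    have hc := card_le_card hsub
    rw [card_univ] at hc
    have c1 := card_union_le ((R ∩ B) ∪ Rᶜ) Bᶜ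
    have c2 := card_union_le (R ∩ B) Rᶜ
    omega

/-- The last case (`f = n`, at most one vertex outside each core). -/
theorem Sit.last (hCL : Stmt_CL) (hSU : Stmt_SU) (hBE : Stmt_BE) (hAV : Stmt_AV) (hFE : Stmt_FE)
    (h : Sit V H S f (Fintype.card V - 1) α G R B) (hf : 5 ≤ f)
    (hP : Peel H S univ) (hV : (Fintype.card V) ^ 4 ≤ f ^ 7) (hR : (Rᶜ).card ≤ 1)
    (hB : (Bᶜ).card ≤ 1) (hN : ∀ M, Fintype.card α ≤ M → ¬ Ex f f M) (T : Finset α)
    (hT : G.IsNClique f T) : H.IsContained G := by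
  have hTR : ¬ T ⊆ R := fun e => h.noR hCL T e hT
  obtain ⟨x, hxT, hxR⟩ := not_subset.1 hTR
  have hxB : x ∈ B := (h.cover x).resolve_left hxR
  have honly : ∀ w, w ≠ x → w ∈ R := by
    intro w hw
    by_contra hwR
    exact hw (card_le_one.1 hR w (mem_compl.2 hwR) x (mem_compl.2 hxR))
  have hRe : R = univ.erase x := by
    ext w
    rw [mem_erase]
    constructor
    · intro hw
      exact ⟨fun e => hxR (e ▸ hw), mem_univ _⟩
    · intro hw
      exact honly w hw.1
  obtain ⟨v, hvS, hv⟩ := hAV V H S hP (card_pos.1 (by rw [h.hS]; exact h.hf))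
  rw [h.hS] at hv
  obtain ⟨P, hP1, hP2⟩ := dg_set G univ x
  set W : Finset α := B.filter (fun w => w ≠ x ∧ ¬ G.Adj x w) with hW
  have hWB : ∀ w ∈ W, w ∈ B := fun w hw => (mem_filter.1 hw).1
  have hEx : Ex f (f - 1) W.card := by
    refine hSU α G W _ _ ?_ ?_
    · intro T' hT'
      exact h.noR hCL T' (fun t ht => honly t (mem_filter.1 (hT' ht)).2.1)
    · intro T' hT' hc
      have hxT' : x ∉ T' := fun e => (mem_filter.1 (hT' e)).2.1 rfl
      refine h.symm.noR hCL (insert x T') ?_ ⟨?_, ?_⟩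
      · exact insert_subset hxB (fun t ht => hWB t (hT' ht))
      · rw [coe_insert]
        refine hc.1.insert ?_
        intro b hb _
        have := (mem_filter.1 (hT' hb)).2
        exact (compl_adj G x b).2 ⟨fun e => this.1 e.symm, this.2⟩
      · rw [card_insert_of_notMem hxT', hc.2]
        omega
  have hsub : (univ : Finset α) ⊆ W ∪ Bᶜ ∪ {x} ∪ P := by
    intro w _
    by_cases h1 : w ∈ B
    · by_cases h2 : w = x
      · exact mem_union_left _ (mem_union_right _ (mem_singleton.2 h2))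
      · by_cases h3 : G.Adj x w
        · exact mem_union_right _ (hP1 w (mem_univ _) h3)
        · exact mem_union_left _ (mem_union_left _ (mem_union_left _ (mem_filter.2 ⟨h1, h2, h3⟩)))
    · exact mem_union_left _ (mem_union_left _ (mem_union_right _ (mem_compl.2 h1)))
  have hc := card_le_card hsub
  rw [card_univ] at hc
  have c1 := card_union_le (W ∪ Bᶜ ∪ {x}) P
  have c2 := card_union_le (W ∪ Bᶜ) {x}
  have c3 := card_union_le W Bᶜ
  rw [card_singleton] at c2
  have hE2 := hBE f (f - 1) W.card (by omega) (by omega) hEx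
  have e1 : f - 1 + 1 = f := by omega
  rw [e1] at hE2
  have hd : Fintype.card α > W.card + (2 * f - 3) := by
    by_contra hh
    exact hN _ (not_lt.1 hh) hE2
  have hd2 : 2 * f - 4 ≤ dg G univ x := by omega
  have hout : (out H S v).card ≤ f - 3 := by
    by_contra hh
    rw [not_le] at hh
    have h1 : f - 2 ≤ (out H S v).card := by omega
    have h2 : f * (f - 2) ≤ Fintype.card V - f := (Nat.mul_le_mul_left f h1).trans hv
    have h3 : f * (f - 1) ≤ Fintype.card V := by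
      have h5 : 0 < f * (f - 2) := Nat.mul_pos (by omega) (by omega)
      have h4 : f * (f - 1) = f * (f - 2) + f := by
        obtain ⟨g, rfl⟩ := Nat.exists_eq_add_of_le hf
        have e5 : 5 + g - 1 = g + 4 := by omega
        have e6 : 5 + g - 2 = g + 3 := by omega
        rw [e5, e6]
        ring
      omega
    have h4 : (f * (f - 1)) ^ 4 ≤ f ^ 7 := (Nat.pow_le_pow_left h3 4).trans hV
    obtain ⟨g, rfl⟩ := Nat.exists_eq_add_of_le hf
    have e5 : 5 + g - 1 = g + 4 := by omega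
    rw [e5] at h4
    have h5 : (5 + g) ^ 4 * (g + 4) ^ 4 ≤ (5 + g) ^ 4 * (5 + g) ^ 3 := by
      calc (5 + g) ^ 4 * (g + 4) ^ 4 = ((5 + g) * (g + 4)) ^ 4 := by ring
        _ ≤ (5 + g) ^ 7 := h4
        _ = (5 + g) ^ 4 * (5 + g) ^ 3 := by ring
    have h6 := Nat.le_of_mul_le_mul_left h5 (by positivity)
    have h7 : (5 + g) ^ 3 < (g + 4) ^ 4 := by
      nlinarith [pow_nonneg (Nat.zero_le g) 2, pow_nonneg (Nat.zero_le g) 3,
        pow_nonneg (Nat.zero_le g) 4]
    omega
  refine hFE V H S v hP hvS (by rw [h.hS]; omega) α G x T (by rw [h.hS]; exact hT) hxT ?_ ?_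
  · intro r hr
    have := h.cR.deg r (honly r hr)
    rwa [hRe] at this
  · rw [h.hS]
    omega

/-- The core intersection is large. -/
theorem inter_large (hCL : Stmt_CL) (hGR : Stmt_GR) (hDC : Stmt_DC) (hS : S.card = f)
    (hf : 1 ≤ f) (cR : Core G D R) (cB : Core Gᶜ D B) (nR : NoB H S G R) (nB : NoB H S Gᶜ B) :
    Fintype.card α ≤ (R ∩ B).card + 4 * D + 2 * (f * D) := by
  have hSn : S.Nonempty := card_pos.1 (by rw [hS]; exact hf)
  have clR : ∀ T ⊆ R, G.IsClique (T : Set α) → T.card < f := by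
    intro T hT hc
    by_contra hh
    obtain ⟨T', h1, h2⟩ := sub_clique (⟨hc, rfl⟩ : G.IsNClique T.card T) (not_lt.1 hh)
    have := hCL V α H S G R nR hSn T' (h1.trans hT)
    rw [hS] at this
    exact this h2
  have clB : ∀ T ⊆ B, Gᶜ.IsClique (T : Set α) → T.card < f := by
    intro T hT hc
    by_contra hh
    obtain ⟨T', h1, h2⟩ := sub_clique (⟨hc, rfl⟩ : Gᶜ.IsNClique T.card T) (not_lt.1 hh)
    have := hCL V α H S Gᶜ B nB hSn T' (h1.trans hT)
    rw [hS] at this
    exact this h2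
  have hmono : ∀ (G' : SimpleGraph α) (A A' : Finset α) (z : α), A ⊆ A' → dg G' A z ≤ dg G' A' z :=
    fun G' A A' z hA => card_le_card (filter_subset_filter _ hA)
  have h1 : (Rᶜ ∩ Bᶜ).card ≤ 4 * D := by
    refine hDC α G D _ ?_ ?_
    · intro Z' hZ' hne
      have hdis : Disjoint Z' R := by
        rw [Finset.disjoint_left]
        intro t ht
        exact mem_compl.1 (mem_inter.1 (hZ' ht)).1
      obtain ⟨z, hz, hz1⟩ := cR.out Z' hdis hne
      exact ⟨z, hz, (hmono G _ _ z subset_union_left).trans_lt hz1⟩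
    · intro Z' hZ' hne
      have hdis : Disjoint Z' B := by
        rw [Finset.disjoint_left]
        intro t ht
        exact mem_compl.1 (mem_inter.1 (hZ' ht)).2
      obtain ⟨z, hz, hz1⟩ := cB.out Z' hdis hne
      exact ⟨z, hz, (hmono Gᶜ _ _ z subset_union_left).trans_lt hz1⟩
  have h2 : (Rᶜ ∩ B).card ≤ f * D := by
    have hdis : Disjoint (Rᶜ ∩ B) R := by
      rw [Finset.disjoint_left]
      intro t ht
      exact mem_compl.1 (mem_inter.1 ht).1
    obtain ⟨Q, hQ1, hQ2, P, hP0, _, hP2⟩ := greedy_set hGR G D R _ cR hdis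
    have hQcl : Gᶜ.IsClique (Q : Set α) := by
      intro x hx y hy hxy
      exact (compl_adj G x y).2 ⟨hxy, hQ2 x hx y hy⟩
    have hq := clB Q (hQ1.trans inter_subset_right) hQcl
    exact (card_le_card hP0).trans (hP2.trans (Nat.mul_le_mul_right D hq.le))
  have h3 : (R ∩ Bᶜ).card ≤ f * D := by
    have hdis : Disjoint (R ∩ Bᶜ) B := by
      rw [Finset.disjoint_left]
      intro t ht
      exact mem_compl.1 (mem_inter.1 ht).2
    obtain ⟨Q, hQ1, hQ2, P, hP0, _, hP2⟩ := greedy_set hGR Gᶜ D B _ cB hdis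
    have hQcl : G.IsClique (Q : Set α) := by
      intro x hx y hy hxy
      have := hQ2 x hx y hy
      rw [compl_adj, not_and_not_right] at this
      exact this hxy
    have hq := clR Q (hQ1.trans inter_subset_left) hQcl
    exact (card_le_card hP0).trans (hP2.trans (Nat.mul_le_mul_right D hq.le))
  have hsub : (univ : Finset α) ⊆ (R ∩ B) ∪ (Rᶜ ∩ Bᶜ) ∪ (Rᶜ ∩ B) ∪ (R ∩ Bᶜ) := by
    intro v _
    simp only [mem_union, mem_inter, mem_compl]
    tauto
  have hc := card_le_card hsub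
  rw [card_univ] at hc
  have c1 := card_union_le ((R ∩ B) ∪ (Rᶜ ∩ Bᶜ) ∪ (Rᶜ ∩ B)) (R ∩ Bᶜ)
  have c2 := card_union_le ((R ∩ B) ∪ (Rᶜ ∩ Bᶜ)) (Rᶜ ∩ B)
  have c3 := card_union_le (R ∩ B) (Rᶜ ∩ Bᶜ)
  omega


theorem bigI (hJO : Stmt_JO) {n q q' M N D : ℕ} (hq : 2 ≤ q) (hqn : q < n - 1)
    (hq' : q' ≤ q) (h : Ex (n - 1 - q') (n - 1 - q) M) (hA4 : Ex n 4 (100 * n ^ 2))
    (hD : 2 * D ≤ n ^ 2) (hN : N ≤ M + q * D + q' * D) : ∃ M', N ≤ M' ∧ Ex n n M' := by
  have hk : ∃ k, k = (q + 1) / 3 := ⟨_, rfl⟩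
  obtain ⟨k, hk⟩ := hk
  have h1 : 3 * k ≤ q + 1 := by omega
  have h2 : q ≤ 3 * k + 1 := by omega
  have h3 : 1 ≤ k := by omega
  have hc := ex_copies hJO (b := 3) hA4 k
  have hj := hJO n (n - 1 - q) (k * 3 + 1) M (k * (100 * n ^ 2))
    (ex_mono (by omega) le_rfl le_rfl h) hc
  refine ⟨M + k * (100 * n ^ 2), ?_, ex_mono le_rfl (by omega) le_rfl hj⟩
  have h4 : q' * D ≤ q * D := Nat.mul_le_mul_right D hq'
  have h5 : 2 * (q * D) ≤ q * n ^ 2 := by
    calc 2 * (q * D) = q * (2 * D) := by ring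
      _ ≤ q * n ^ 2 := Nat.mul_le_mul_left q hD
  have h6 : q * n ^ 2 ≤ k * (100 * n ^ 2) := by
    calc q * n ^ 2 ≤ (k * 100) * n ^ 2 := Nat.mul_le_mul_right _ (by omega)
      _ = k * (100 * n ^ 2) := by ring
  omega

theorem bigII (hJO : Stmt_JO) {n q q' M N D : ℕ} (hq : 2 ≤ q) (hqn : q < n)
    (hq' : q' ≤ q) (h : Ex (n - q') (n - q) M) (hA3 : Ex n 3 (100 * D + 100))
    (hN : N ≤ M + q * D + q' * D) : ∃ M', N ≤ M' ∧ Ex n n M' := by
  have hk : ∃ k, k = q / 2 := ⟨_, rfl⟩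
  obtain ⟨k, hk⟩ := hk
  have h1 : 2 * k ≤ q := by omega
  have h2 : q ≤ 2 * k + 1 := by omega
  have h3 : 1 ≤ k := by omega
  have hc := ex_copies hJO (b := 2) hA3 k
  have hj := hJO n (n - q) (k * 2 + 1) M (k * (100 * D + 100))
    (ex_mono (by omega) le_rfl le_rfl h) hc
  refine ⟨M + k * (100 * D + 100), ?_, ex_mono le_rfl (by omega) le_rfl hj⟩
  have h4 : q' * D ≤ q * D := Nat.mul_le_mul_right D hq'
  have h6 : 2 * (q * D) ≤ k * (100 * D + 100) := by
    calc 2 * (q * D) = (2 * q) * D := by ring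
      _ ≤ (k * 100) * D := Nat.mul_le_mul_right _ (by omega)
      _ ≤ k * (100 * D + 100) := by
          rw [mul_assoc]
          exact Nat.mul_le_mul_left k (by omega)
  omega

theorem caseI (hCL : Stmt_CL) (hCN : Stmt_CN) (hSU : Stmt_SU) (hGR : Stmt_GR) (hJO : Stmt_JO)
    {n : ℕ} (hn : 12 ≤ n) (h : Sit V H S (n - 1) D α G R B) (hD : 2 * D ≤ n ^ 2)
    (hN : ∀ M, Fintype.card α ≤ M → ¬ Ex n n M) (hA4 : Ex n 4 (100 * n ^ 2))
    (hA3 : Ex n 3 (100 * (2 * n) + 100))
    (hcl : (∀ a ∈ S, ∀ b ∈ S, a ≠ b → H.Adj a b) → D ≤ 2 * n) : False := by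
  obtain ⟨q, q', M, hq, hq', hEx, hM, hR, hB⟩ := h.greedy hCL hGR hSU
  by_cases h0 : q = 0 ∧ q' = 0
  · obtain ⟨rfl, rfl⟩ := h0
    exact hN M (by omega) (ex_mono (by omega) (by omega) le_rfl hEx)
  by_cases h2 : 2 ≤ q ∨ 2 ≤ q'
  · rcases le_total q' q with hqq | hqq
    · obtain ⟨M', h3, h4⟩ := bigI hJO (by omega) hq hqq hEx hA4 hD hM
      exact hN M' h3 h4
    · obtain ⟨M', h3, h4⟩ := bigI hJO (q := q') (q' := q) (by omega) hq' hqq (ex_symm hEx) hA4 hD
        (show Fintype.card α ≤ M + q' * D + q * D by omega)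
      exact hN M' h3 h4
  have hq1 : q ≤ 1 := by omega
  have hq1' : q' ≤ 1 := by omega
  have hqD : q * D ≤ D := by
    calc q * D ≤ 1 * D := Nat.mul_le_mul_right D hq1
      _ = D := one_mul D
  have hqD' : q' * D ≤ D := by
    calc q' * D ≤ 1 * D := Nat.mul_le_mul_right D hq1'
      _ = D := one_mul D
  by_cases hc : ∀ a ∈ S, ∀ b ∈ S, a ≠ b → H.Adj a b
  · have hD2 := hcl hc
    have hEx2 : Ex n (n - 2) M := by
      rcases Nat.eq_zero_or_pos q with e | e
      · have e' : q' = 1 := by omega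
        subst e'
        exact ex_mono (by omega) (by omega) le_rfl (ex_symm hEx)
      · exact ex_mono (by omega) (by omega) le_rfl hEx
    have hj := hJO n (n - 2) 3 M _ hEx2 hA3
    exact hN _ (by omega) (ex_mono le_rfl (by omega) le_rfl hj)
  · push Not at hc
    obtain ⟨a, ha, b, hb, hab, hnab⟩ := hc
    by_cases hR2 : 2 ≤ (Rᶜ).card
    · obtain ⟨M2, hE2, hM2⟩ := h.two hCL hCN hSU ha hb hab hnab hR2
      have hj := hJO n (n - 1 - 2) 4 M2 _ (ex_mono (by omega) le_rfl le_rfl hE2) hA4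
      exact hN _ (by omega) (ex_mono le_rfl (by omega) le_rfl hj)
    by_cases hB2 : 2 ≤ (Bᶜ).card
    · obtain ⟨M2, hE2, hM2⟩ := h.symm.two hCL hCN hSU ha hb hab hnab hB2
      have hj := hJO n (n - 1 - 2) 4 M2 _ (ex_mono (by omega) le_rfl le_rfl hE2) hA4
      exact hN _ (by omega) (ex_mono le_rfl (by omega) le_rfl hj)
    obtain ⟨M2, hE2, hM2⟩ := h.inter hCL hSU
    have hj := hJO n (n - 1) 2 M2 (n - 1) (ex_mono (by omega) le_rfl le_rfl hE2)
      (ex_kn (by omega))
    exact hN _ (by omega) (ex_mono le_rfl (by omega) le_rfl hj)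

theorem caseII (hCL : Stmt_CL) (hCN : Stmt_CN) (hSU : Stmt_SU) (hGR : Stmt_GR) (hJO : Stmt_JO)
    (hBE : Stmt_BE) (hAV : Stmt_AV) (hFE : Stmt_FE)
    {n : ℕ} (hn : 12 ≤ n) (h : Sit V H S n (Fintype.card V - 1) α G R B)
    (hP : Peel H S univ) (hV : (Fintype.card V) ^ 4 ≤ n ^ 7)
    (hN : ∀ M, Fintype.card α ≤ M → ¬ Ex n n M)
    (hA3 : Ex n 3 (100 * (Fintype.card V - 1) + 100))
    (hcl : ¬ (∀ a ∈ S, ∀ b ∈ S, a ≠ b → H.Adj a b)) (hG : ¬ H.IsContained G)
    (hG' : ¬ H.IsContained Gᶜ) : False := by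
  obtain ⟨q, q', M, hq, hq', hEx, hM, hR, hB⟩ := h.greedy hCL hGR hSU
  obtain ⟨D, hD⟩ : ∃ D, D = Fintype.card V - 1 := ⟨_, rfl⟩
  rw [← hD] at hM hR hB hA3
  by_cases h0 : q = 0 ∧ q' = 0
  · obtain ⟨rfl, rfl⟩ := h0
    exact hN M (by omega) (ex_mono (by omega) (by omega) le_rfl hEx)
  by_cases h2 : 2 ≤ q ∨ 2 ≤ q'
  · rcases le_total q' q with hqq | hqq
    · obtain ⟨M', h3, h4⟩ := bigII hJO (by omega) hq hqq hEx hA3 hM
      exact hN M' h3 h4
    · obtain ⟨M', h3, h4⟩ := bigII hJO (q := q') (q' := q) (by omega) hq' hqq (ex_symm hEx) hA3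
        (show Fintype.card α ≤ M + q' * D + q * D by omega)
      exact hN M' h3 h4
  have hq1 : q ≤ 1 := by omega
  have hq1' : q' ≤ 1 := by omega
  have hqD : q * D ≤ D := by
    calc q * D ≤ 1 * D := Nat.mul_le_mul_right D hq1
      _ = D := one_mul D
  have hqD' : q' * D ≤ D := by
    calc q' * D ≤ 1 * D := Nat.mul_le_mul_right D hq1'
      _ = D := one_mul D
  push Not at hcl
  obtain ⟨a, ha, b, hb, hab, hnab⟩ := hcl
  by_cases hR2 : 2 ≤ (Rᶜ).card
  · obtain ⟨M2, hE2, hM2⟩ := h.two hCL hCN hSU ha hb hab hnab hR2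
    have hj := hJO n (n - 2) 3 M2 _ hE2 hA3
    exact hN _ (by omega) (ex_mono le_rfl (by omega) le_rfl hj)
  by_cases hB2 : 2 ≤ (Bᶜ).card
  · obtain ⟨M2, hE2, hM2⟩ := h.symm.two hCL hCN hSU ha hb hab hnab hB2
    have hj := hJO n (n - 2) 3 M2 _ hE2 hA3
    exact hN _ (by omega) (ex_mono le_rfl (by omega) le_rfl hj)
  by_cases hT : ∃ T, G.IsNClique n T
  · obtain ⟨T, hT⟩ := hT
    exact hG (h.last hCL hSU hBE hAV hFE (by omega) hP hV (by omega) (by omega) hN T hT)
  by_cases hT' : ∃ T, Gᶜ.IsNClique n T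
  · obtain ⟨T, hT'⟩ := hT'
    exact hG' (h.symm.last hCL hSU hBE hAV hFE (by omega) hP hV (by omega) (by omega) hN T hT')
  · push Not at hT hT'
    have := hSU α G univ n n (fun T _ => hT T) (fun T _ => hT' T)
    exact hN _ (by rw [card_univ]) this

end Pool.Agent.EGR
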