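import Pool.Agent.EGR.Defs

set_option autoImplicit false

/-!
MP_d778c7_co: statements of the modules of squad EGR.
-/

namespace Pool.Agent.EGR

open Finset SimpleGraph
open scoped Classical

/-- JO: disjoint union of the graphs (join of the complements). -/
def Stmt_JO : Prop := ∀ a b c M L : ℕ, Ex a b M → Ex a c L → Ex a (b + c - 1) (M + L)

/-- BE: Burr, Erdos, Faudree, Schelp: `R(k, l+1) ≥ R(k, l) + 2k - 3`. -/
def Stmt_BE : Prop := ∀ k l M : ℕ, 3 ≤ k → 2 ≤ l → Ex k l M → Ex k (l + 1) (M + (2 * k - 3))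

/-- SU: restriction to a set of vertices. -/
def Stmt_SU : Prop := ∀ (α : Type) (G : SimpleGraph α) (W : Finset α) (a b : ℕ),
  (∀ T ⊆ W, ¬ G.IsNClique a T) → (∀ T ⊆ W, ¬ Gᶜ.IsNClique b T) → Ex a b W.card

/-- RG: the random graph with the edges of a maximal edge-disjoint family of `r`-cliques deleted. -/
def Stmt_RG : Prop := ∀ r n N Q m : ℕ, 2 ≤ r → 1 ≤ Q → Hyp r n N Q m → Ex n r N

/-- NU4: numerical inequality. -/
def Stmt_NU4 : Prop := ∃ s₀ : ℕ, ∀ s ≥ s₀, Hyp 4 (s ^ 16) (s ^ 33) (s ^ 15) (s ^ 17 / 96)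

/-- NU3: numerical inequality. -/
def Stmt_NU3 : Prop := ∃ s₀ : ℕ, ∀ s ≥ s₀, Hyp 3 (s ^ 16) (s ^ 29) (s ^ 15) (s ^ 17 / 96)

/-- CR: existence of the core. -/
def Stmt_CR : Prop := ∀ (α : Type) [Fintype α] (G : SimpleGraph α) (D : ℕ),
  ∃ R : Finset α, Core G D R

/-- GR: greedy independent set outside the core. -/
def Stmt_GR : Prop := ∀ (α : Type) [Fintype α] (G : SimpleGraph α) (D : ℕ) (R : Finset α),
  Core G D R → ∀ Z : Finset α, Disjoint Z R →
    ∃ Q ⊆ Z, (∀ x ∈ Q, ∀ y ∈ Q, ¬ G.Adj x y) ∧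
      (Z ∪ R.filter (fun y => ∃ x ∈ Q, G.Adj x y)).card ≤ Q.card * D

/-- DC: a set on which the graph and its complement are both degenerate is small. -/
def Stmt_DC : Prop := ∀ (α : Type) (G : SimpleGraph α) (D : ℕ) (Z : Finset α),
  (∀ Z' ⊆ Z, Z'.Nonempty → ∃ z ∈ Z', dg G Z' z < D) →
  (∀ Z' ⊆ Z, Z'.Nonempty → ∃ z ∈ Z', dg Gᶜ Z' z < D) → Z.card ≤ 4 * D

/-- PE: peeling down to a set of prescribed size. -/
def Stmt_PE : Prop := ∀ (V : Type) [Fintype V] (H : SimpleGraph V) (f : ℕ),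
  (∀ S : Finset V, (∀ v ∈ S, 2 ≤ dg H S v) → S.card ≤ f) → f ≤ Fintype.card V →
    ∃ S : Finset V, S.card = f ∧ Peel H S univ

/-- EM: embedding by adding the peeled vertices. -/
def Stmt_EM : Prop := ∀ (V : Type) [Fintype V] (H : SimpleGraph V) (S : Finset V),
  Peel H S univ → ∀ (α : Type) (G : SimpleGraph α) (R : Finset α), R.Nonempty →
    (∀ r ∈ R, Fintype.card V - 1 ≤ dg G R r) → ∀ φ : V → α, Set.InjOn φ (S : Set V) →
    (∀ a ∈ S, ∀ b ∈ S, H.Adj a b → G.Adj (φ a) (φ b)) →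
    (∀ a ∈ S, (∃ b, b ∉ S ∧ H.Adj a b) → φ a ∈ R) → H.IsContained G

/-- CH: adding all neighbours of `v` to the base. -/
def Stmt_CH : Prop := ∀ (V : Type) [Fintype V] (H : SimpleGraph V) (S : Finset V) (v : V),
  Peel H S univ → v ∈ S → Peel H (S ∪ out H S v) univ ∧
    ∀ c ∈ out H S v, ∀ b ∈ S ∪ out H S v, H.Adj c b → b = v

/-- AV: some vertex of the base has few neighbours outside the base. -/
def Stmt_AV : Prop := ∀ (V : Type) [Fintype V] (H : SimpleGraph V) (S : Finset V),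
  Peel H S univ → S.Nonempty → ∃ v ∈ S, S.card * (out H S v).card ≤ Fintype.card V - S.card

/-- ED: a connected graph with a clique has many edges. -/
def Stmt_ED : Prop := ∀ (V : Type) [Fintype V] (H : SimpleGraph V), H.Connected →
  ∀ S : Finset V, S.Nonempty → (∀ a ∈ S, ∀ b ∈ S, a ≠ b → H.Adj a b) →
    S.card.choose 2 + (Fintype.card V - S.card) ≤ H.edgeSet.ncard

/-- CL: no clique of the size of the base. -/
def Stmt_CL : Prop := ∀ (V α : Type) (H : SimpleGraph V) (S : Finset V) (G : SimpleGraph α)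
  (R : Finset α), NoB H S G R → S.Nonempty → ∀ T ⊆ R, ¬ G.IsNClique S.card T

/-- CN: two nonadjacent vertices of the base placed at two given vertices. -/
def Stmt_CN : Prop := ∀ (V α : Type) (H : SimpleGraph V) (S : Finset V) (G : SimpleGraph α)
  (R : Finset α) (a b : V), NoB H S G R → a ∈ S → b ∈ S → a ≠ b → ¬ H.Adj a b →
    ∀ x ∈ R, ∀ y ∈ R, x ≠ y → ∀ T ⊆ R, (∀ t ∈ T, G.Adj x t ∧ G.Adj y t) →
      ¬ G.IsNClique (S.card - 2) T

/-- FE: the embedding in the last case. -/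
def Stmt_FE : Prop := ∀ (V : Type) [Fintype V] (H : SimpleGraph V) (S : Finset V) (v : V),
  Peel H S univ → v ∈ S → 2 ≤ S.card → ∀ (α : Type) [Fintype α] (G : SimpleGraph α) (x : α)
    (T : Finset α), G.IsNClique S.card T → x ∈ T →
    (∀ r, r ≠ x → Fintype.card V - 1 ≤ dg G (univ.erase x) r) →
    S.card + (out H S v).card ≤ dg G univ x + 1 → H.IsContained G

end Pool.Agent.EGR
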